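import Pool.Agent.Q35.LG2.Defs
import Pool.Graph.R_seed8.Y721.LG.Grp
import Pool.Graph.R_seed8.Y721.LG.NoEven

/-! Few odd points when the exceptional odd points are far from each other. -/

open MeasureTheory Set

namespace Pool.Agent.Q35.LG2.Branch

open Pool.Agent.Q35.LG2 Pool.Agent.W868.FI Pool.Agent.Y721.LG
open Monoid.CoprodI

/-- reduced words -/
abbrev Wd (d u : ℕ) : Type := Word (fun _ : Fin d => Multiplicative (ZMod u))

theorem prod_inj {d u : ℕ} {w w' : Wd d u} (h : w.prod = w'.prod) : w = w' := by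
  classical
  exact (Word.equiv (M := fun _ : Fin d => Multiplicative (ZMod u))).symm.injective h

/-- the ball of radius `s` -/
def bl (d u s : ℕ) : Set (G d u) := {g | ∃ w : Wd d u, w.toList.length ≤ s ∧ w.prod = g}

theorem bl_fin (d u s : ℕ) [NeZero u] : (bl d u s).Finite := by
  classical
  have : Fintype (Multiplicative (ZMod u)) := inferInstanceAs (Fintype (ZMod u))
  have h1 := List.finite_length_le (Σ _ : Fin d, Multiplicative (ZMod u)) s
  have h2 : {w : Wd d u | w.toList.length ≤ s}.Finite := by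
    refine Set.Finite.of_injOn (f := fun w : Wd d u => w.toList) (fun w hw => hw) ?_ h1
    intro w _ w' _ h
    exact Word.ext h
  refine (h2.image (fun w => w.prod)).subset ?_
  rintro g ⟨w, hw, rfl⟩
  exact ⟨w, hw, rfl⟩

section mass

variable {X : Type} [MeasurableSpace X] (μ : Measure X) [IsProbabilityMeasure μ]

open Classical in
theorem sum_int {I : Type} (T : Finset I) (S : I → Set X) (hS : ∀ g, MeasurableSet (S g)) :
    ∑ g ∈ T, μ.real (S g) = ∫ x, ((T.filter (fun g => x ∈ S g)).card : ℝ) ∂μ := by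
  have h1 : ∀ x, ((T.filter (fun g => x ∈ S g)).card : ℝ) =
      ∑ g ∈ T, (S g).indicator (1 : X → ℝ) x := by
    intro x
    rw [Finset.card_filter]
    push_cast
    refine Finset.sum_congr rfl fun g _ => ?_
    by_cases h : x ∈ S g <;> simp [h]
  simp_rw [h1]
  rw [integral_finset_sum]
  · exact Finset.sum_congr rfl fun g _ => (integral_indicator_one (hS g)).symm
  · intro g _
    exact (integrable_const (1 : ℝ)).indicator (hS g)

open Classical in
theorem int_ok {I : Type} (T : Finset I) (S : I → Set X) (hS : ∀ g, MeasurableSet (S g)) :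
    Integrable (fun x => ((T.filter (fun g => x ∈ S g)).card : ℝ)) μ := by
  have h1 : (fun x => ((T.filter (fun g => x ∈ S g)).card : ℝ)) =
      fun x => ∑ g ∈ T, (S g).indicator (1 : X → ℝ) x := by
    funext x
    rw [Finset.card_filter]
    push_cast
    refine Finset.sum_congr rfl fun g _ => ?_
    by_cases h : x ∈ S g <;> simp [h]
  rw [h1]
  exact integrable_finset_sum _ fun g _ => (integrable_const (1 : ℝ)).indicator (hS g)

open Classical in
theorem lower {I : Type} (T : Finset I) (S : I → Set X) (hS : ∀ g, MeasurableSet (S g))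
    (B : Set X) (hB : MeasurableSet B) (n : ℕ)
    (h : ∀ x ∈ B, n ≤ (T.filter (fun g => x ∈ S g)).card) :
    n * μ.real B ≤ ∑ g ∈ T, μ.real (S g) := by
  rw [sum_int μ T S hS]
  have h1 : n * μ.real B = ∫ x, B.indicator (fun _ => (n : ℝ)) x ∂μ := by
    rw [integral_indicator_const _ hB, smul_eq_mul, mul_comm]
  rw [h1]
  refine integral_mono ((integrable_const (n : ℝ)).indicator hB) (int_ok μ T S hS) ?_
  intro x
  by_cases hx : x ∈ B
  · simp only [Set.indicator_of_mem hx]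
    exact_mod_cast h x hx
  · simp only [Set.indicator_of_notMem hx]
    positivity

open Classical in
theorem upper {I : Type} (T : Finset I) (S : I → Set X) (hS : ∀ g, MeasurableSet (S g))
    (A : Set X) (hA : MeasurableSet A) (n : ℕ) (hSA : ∀ g, S g ⊆ A)
    (h : ∀ x, (T.filter (fun g => x ∈ S g)).card ≤ n) :
    ∑ g ∈ T, μ.real (S g) ≤ n * μ.real A := by
  rw [sum_int μ T S hS]
  have h1 : n * μ.real A = ∫ x, A.indicator (fun _ => (n : ℝ)) x ∂μ := by
    rw [integral_indicator_const _ hA, smul_eq_mul, mul_comm]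
  rw [h1]
  refine integral_mono (int_ok μ T S hS) ((integrable_const (n : ℝ)).indicator hA) ?_
  intro x
  by_cases hx : x ∈ A
  · simp only [Set.indicator_of_mem hx]
    exact_mod_cast h x
  · simp only [Set.indicator_of_notMem hx]
    have : T.filter (fun g => x ∈ S g) = ∅ := by
      rw [Finset.filter_eq_empty_iff]
      intro g _ hg
      exact hx (hSA g hg)
    rw [this]
    simp

end mass

section path

variable {d u : ℕ} [NeZero u] {Lam : Type} (Z : Fin d → (G d u → Lam) → Bool)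
  (W : Bool → Set (G d u → Lam)) (B : Set (G d u))

/-- the bad points -/
def Err : Set (G d u → Lam) :=
  {y | (∃ (i : Fin d) (c : ZMod u), Z i (sh (gen i c) y) ≠ Z i y) ∨
    ((∀ j, y ∉ W j) ∧ Odd {i : Fin d | Z i y = true}.ncard) ∨
    ∃ j, y ∈ W j ∧ ∃ g ∈ B, g ≠ 1 ∧ sh g y ∈ W j}

theorem sh_mul_eq (g h : G d u) (x : G d u → Lam) : sh (g * h) x = sh g (sh h x) := by
  rw [sh_sh]

/-- following the marked hyperedges -/
theorem follow (s : ℕ) (x : G d u → Lam)
    (hx : ∀ g ∈ bl d u s, sh g x ∉ Err Z W B) (hu : 2 ≤ u) (i₁ : Fin d) (hi₁ : Z i₁ x = true)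
    (c₀ : ZMod u) (hc₀ : c₀ ≠ 0)
    (hex : ∀ w : Wd d u, w.toList.length ≤ s →
      w.toList.getLast? = some ⟨i₁, Multiplicative.ofAdd c₀⟩ → ∀ j, sh w.prod x ∉ W j) :
    ∀ t : ℕ, t + 1 ≤ s → ∃ w : Wd d u, w.toList.length = t + 1 ∧
      w.toList.getLast? = some ⟨i₁, Multiplicative.ofAdd c₀⟩ ∧
      ∃ i, w.fstIdx = some i ∧ Z i (sh w.prod x) = true := by
  classical
  have hE : ∀ g ∈ bl d u s, ∀ (i : Fin d) (c : ZMod u),
      Z i (sh (gen i c) (sh g x)) = Z i (sh g x) := by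
    intro g hg i c
    by_contra h
    exact hx g hg (Or.inl ⟨i, c, h⟩)
  intro t
  induction t with
  | zero =>
    intro hs
    have h1 : (Multiplicative.ofAdd c₀ : Multiplicative (ZMod u)) ≠ 1 := by
      intro h; exact hc₀ (ofAdd_eq_one.mp h)
    have h2 : (Word.empty : Wd d u).fstIdx ≠ some i₁ := by
      simp [Word.fstIdx, Word.empty]
    refine ⟨Word.cons (i := i₁) (Multiplicative.ofAdd c₀) Word.empty h2 h1, ?_, ?_, i₁, ?_, ?_⟩
    · simp [Word.cons, Word.empty]
    · simp [Word.cons, Word.empty]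
    · rw [Word.fstIdx_cons]
    · rw [Word.prod_cons, Word.prod_empty, mul_one]
      have h3 := hE 1 ⟨Word.empty, Nat.zero_le _, Word.prod_empty⟩ i₁ c₀
      rw [sh_one] at h3
      exact h3.trans hi₁
  | succ t ih =>
    intro hs
    obtain ⟨w, hw1, hw2, i, hw3, hw4⟩ := ih (by omega)
    have hwb : w.prod ∈ bl d u s := ⟨w, by omega, rfl⟩
    have hnW := hex w (by omega) hw2
    have hev : Even {k : Fin d | Z k (sh w.prod x) = true}.ncard := by
      rw [← Nat.not_odd_iff_even]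
      intro ho
      exact hx _ hwb (Or.inr (Or.inl ⟨hnW, ho⟩))
    obtain ⟨i', hi', hne⟩ : ∃ i', Z i' (sh w.prod x) = true ∧ i' ≠ i := by
      by_contra hcon
      push Not at hcon
      have : {k : Fin d | Z k (sh w.prod x) = true} = {i} := by
        ext k
        constructor
        · intro hk; exact hcon k hk
        · intro hk
          rw [Set.mem_singleton_iff] at hk
          rw [hk]; exact hw4
      rw [this, Set.ncard_singleton] at hev
      exact absurd hev (by decide)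
    have h1 : (Multiplicative.ofAdd (1 : ZMod u) : Multiplicative (ZMod u)) ≠ 1 := by
      intro h
      have h3 : (1 : ZMod u) = 0 := ofAdd_eq_one.mp h
      haveI : Fact (1 < u) := ⟨by omega⟩
      exact one_ne_zero h3
    have h2 : w.fstIdx ≠ some i' := by
      rw [hw3]
      intro h
      exact hne (Option.some.inj h).symm
    refine ⟨Word.cons (i := i') (Multiplicative.ofAdd (1 : ZMod u)) w h2 h1, ?_, ?_, i', ?_, ?_⟩
    · simp [Word.cons, hw1]
    · have hne' : w.toList ≠ [] := by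
        intro h
        rw [h] at hw1
        simp at hw1
      show (List.getLast? (_ :: w.toList)) = _
      rw [List.getLast?_cons_of_ne_nil hne']
      exact hw2
    · rw [Word.fstIdx_cons]
    · rw [Word.prod_cons, sh_mul_eq]
      have h3 := hE _ hwb i' 1
      exact h3.trans hi'

/-- odd good points -/
def Bp (s : ℕ) (E' : Set (G d u → Lam)) : Set (G d u → Lam) :=
  {x | Odd {i : Fin d | Z i x = true}.ncard} ∩ ⋂ g ∈ bl d u s, (sh g) ⁻¹' E'ᶜ

theorem pigeon (j0 j1 j2 : Bool) : j0 = j1 ∨ j0 = j2 ∨ j1 = j2 := by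
  cases j0 <;> cases j1 <;> cases j2 <;> simp

/-- no two different elements of the ball move `x` into the same `W j` -/
theorem sepa (s : ℕ) (x : G d u → Lam) (hx : ∀ g ∈ bl d u s, sh g x ∉ Err Z W B)
    (hB : ∀ g ∈ bl d u s, ∀ h ∈ bl d u s, h * g⁻¹ ∈ B) (g h : G d u) (hg : g ∈ bl d u s)
    (hh : h ∈ bl d u s) (j : Bool) (h1 : sh g x ∈ W j) (h2 : sh h x ∈ W j) : g = h := by
  by_contra hne
  refine hx g hg (Or.inr (Or.inr ⟨j, h1, h * g⁻¹, hB g hg h hh, ?_, ?_⟩))
  · intro h3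
    exact hne (mul_inv_eq_one.1 h3).symm
  · rw [← sh_mul_eq, inv_mul_cancel_right]
    exact h2

theorem one_bl (s : ℕ) : (1 : G d u) ∈ bl d u s :=
  ⟨Word.empty, Nat.zero_le _, Word.prod_empty⟩

theorem many (s : ℕ) (x : G d u → Lam)
    (hx : ∀ g ∈ bl d u s, sh g x ∉ Err Z W B) (hu : 3 ≤ u)
    (hB : ∀ g ∈ bl d u s, ∀ h ∈ bl d u s, h * g⁻¹ ∈ B)
    (ho : Odd {i : Fin d | Z i x = true}.ncard) :
    ∃ f : Fin s → G d u, Function.Injective f ∧ ∀ t, f t ∈ bl d u s ∧
      ∃ i, Z i (sh (f t) x) = true := by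
  classical
  obtain ⟨i₁, hi₁⟩ : ∃ i, Z i x = true := by
    by_contra hcon
    push Not at hcon
    have : {i : Fin d | Z i x = true} = ∅ := by
      ext i
      simpa using hcon i
    rw [this, Set.ncard_empty] at ho
    exact absurd ho (by decide)
  obtain ⟨j₀, hj₀⟩ : ∃ j, x ∈ W j := by
    by_contra hcon
    push Not at hcon
    have h1 := hx 1 (one_bl s)
    rw [sh_one] at h1
    exact h1 (Or.inr (Or.inl ⟨hcon, ho⟩))
  have h1u : (1 : ZMod u) ≠ 0 := by
    have : Fact (1 < u) := ⟨by omega⟩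
    exact one_ne_zero
  have h2u : (2 : ZMod u) ≠ 0 := by
    intro h
    have h2 : ((2 : ℕ) : ZMod u) = 0 := by exact_mod_cast h
    rw [ZMod.natCast_eq_zero_iff] at h2
    have := Nat.le_of_dvd (by norm_num) h2
    omega
  have h12 : (1 : ZMod u) ≠ 2 := by
    intro h
    apply h1u
    have : (2 : ZMod u) - 1 = 0 := by rw [← h]; ring
    calc (1 : ZMod u) = 2 - 1 := by ring
      _ = 0 := this
  -- one of the two directions is free of exceptional points
  obtain ⟨c₀, hc₀, hex⟩ : ∃ c₀ : ZMod u, c₀ ≠ 0 ∧ ∀ w : Wd d u, w.toList.length ≤ s →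
      w.toList.getLast? = some ⟨i₁, Multiplicative.ofAdd c₀⟩ → ∀ j, sh w.prod x ∉ W j := by
    by_contra hcon
    push Not at hcon
    obtain ⟨w1, hw1, hl1, j1, hj1⟩ := hcon 1 h1u
    obtain ⟨w2, hw2, hl2, j2, hj2⟩ := hcon 2 h2u
    have hb1 : w1.prod ∈ bl d u s := ⟨w1, hw1, rfl⟩
    have hb2 : w2.prod ∈ bl d u s := ⟨w2, hw2, rfl⟩
    have hj₀' : sh 1 x ∈ W j₀ := by rw [sh_one]; exact hj₀
    have hne01 : (1 : G d u) ≠ w1.prod := by
      intro h
      have : (Word.empty : Wd d u) = w1 := prod_inj (by rw [Word.prod_empty]; exact h)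
      rw [← this] at hl1
      simp [Word.empty] at hl1
    have hne02 : (1 : G d u) ≠ w2.prod := by
      intro h
      have : (Word.empty : Wd d u) = w2 := prod_inj (by rw [Word.prod_empty]; exact h)
      rw [← this] at hl2
      simp [Word.empty] at hl2
    have hne12 : w1.prod ≠ w2.prod := by
      intro h
      have : w1 = w2 := prod_inj h
      rw [this, hl2] at hl1
      have h3 := Option.some.inj hl1
      have h4 := congrArg (fun q : (Σ _ : Fin d, Multiplicative (ZMod u)) =>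
        Multiplicative.toAdd q.2) h3
      exact h12 h4.symm
    rcases pigeon j₀ j1 j2 with h | h | h
    · subst h; exact hne01 (sepa Z W B s x hx hB _ _ (one_bl s) hb1 _ hj₀' hj1)
    · subst h; exact hne02 (sepa Z W B s x hx hB _ _ (one_bl s) hb2 _ hj₀' hj2)
    · subst h; exact hne12 (sepa Z W B s x hx hB _ _ hb1 hb2 _ hj1 hj2)
  have hf := follow Z W B s x hx (by omega) i₁ hi₁ c₀ hc₀ hex
  choose w hw1 hw2 i hw3 hw4 using hf
  refine ⟨fun t => (w t.1 (by omega)).prod, ?_, ?_⟩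
  · intro t t' h
    have h1 := congrArg (fun w : Wd d u => w.toList.length) (prod_inj h)
    simp only [hw1] at h1
    exact Fin.ext (by omega)
  · intro t
    exact ⟨⟨_, by rw [hw1]; omega, rfl⟩, i t.1 (by omega), hw4 _ _⟩

end path

theorem branch (h₄ : L_GRP) : S_BRANCH := by
  classical
  intro d u _ hd hu κ hκ
  obtain ⟨hcount, -⟩ := h₄ d u hd (by omega)
  obtain ⟨s, hs⟩ := exists_nat_ge (2 / κ)
  have hsκ : 2 ≤ κ * s := by
    rw [div_le_iff₀ hκ] at hs
    linarith [mul_comm κ (s : ℝ)]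
  have hs0 : (0 : ℝ) < s := by
    by_contra h
    have : κ * (s : ℝ) ≤ 0 := mul_nonpos_of_nonneg_of_nonpos hκ.le (not_lt.mp h)
    linarith
  have hfin := bl_fin d u s
  set T : Finset (G d u) := hfin.toFinset with hT
  have mT : ∀ g, g ∈ T ↔ g ∈ bl d u s := fun g => by rw [hT]; exact hfin.mem_toFinset
  let BB : Finset (G d u) := (T ×ˢ T).image (fun q => q.2 * q.1⁻¹) ∪
    (T ×ˢ T).image (fun q => q.2⁻¹ * q.1)
  have hBB1 : ∀ g ∈ bl d u s, ∀ h ∈ bl d u s, h * g⁻¹ ∈ (BB : Set (G d u)) := by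
    intro g hg h hh
    rw [Finset.mem_coe, Finset.mem_union]
    left
    exact Finset.mem_image.2 ⟨(g, h), Finset.mem_product.2 ⟨(mT _).2 hg, (mT _).2 hh⟩, rfl⟩
  have hBB2 : ∀ g ∈ bl d u s, ∀ h ∈ bl d u s, h⁻¹ * g ∈ BB := by
    intro g hg h hh
    rw [Finset.mem_union]
    right
    exact Finset.mem_image.2 ⟨(g, h), Finset.mem_product.2 ⟨(mT _).2 hg, (mT _).2 hh⟩, rfl⟩
  refine ⟨BB, 4 * T.card + 1, by positivity, ?_⟩
  intro Lam _ lam _ Z W hZ hW ε hε hinv hodd hsep
  set μ := iid (G d u) lam with hμ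
  set E := Err Z W (BB : Set (G d u)) with hE
  have hEle : μ.real E ≤ 4 * ε := by
    have hsub : E ⊆ {x | ∃ (i : Fin d) (c : ZMod u), Z i (sh (gen i c) x) ≠ Z i x} ∪
        ({x | (∀ j, x ∉ W j) ∧ Odd {i : Fin d | Z i x = true}.ncard} ∪
        ({x | x ∈ W true ∧ ∃ g ∈ BB, g ≠ 1 ∧ sh g x ∈ W true} ∪
          {x | x ∈ W false ∧ ∃ g ∈ BB, g ≠ 1 ∧ sh g x ∈ W false})) := by
      rintro x (h | h | ⟨j, h⟩)
      · exact Or.inl h
      · exact Or.inr (Or.inl h)
      · cases j
        · exact Or.inr (Or.inr (Or.inr h))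
        · exact Or.inr (Or.inr (Or.inl h))
    have h1 := (measureReal_mono (μ := μ) hsub).trans (measureReal_union_le _ _)
    have h2 := measureReal_union_le (μ := μ)
      {x | (∀ j, x ∉ W j) ∧ Odd {i : Fin d | Z i x = true}.ncard}
      ({x | x ∈ W true ∧ ∃ g ∈ BB, g ≠ 1 ∧ sh g x ∈ W true} ∪
          {x | x ∈ W false ∧ ∃ g ∈ BB, g ≠ 1 ∧ sh g x ∈ W false})
    have h3 := measureReal_union_le (μ := μ)
      {x | x ∈ W true ∧ ∃ g ∈ BB, g ≠ 1 ∧ sh g x ∈ W true}
      {x | x ∈ W false ∧ ∃ g ∈ BB, g ≠ 1 ∧ sh g x ∈ W false}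
    have h4 := hsep true
    have h5 := hsep false
    linarith
  set E' := toMeasurable μ E with hE'
  have hE'm : MeasurableSet E' := measurableSet_toMeasurable μ E
  have hE'le : μ.real E' ≤ 4 * ε := by
    unfold Measure.real
    rw [hE', measure_toMeasurable]
    exact hEle
  have hEE' : E ⊆ E' := subset_toMeasurable μ E
  set O := {x | Odd {i : Fin d | Z i x = true}.ncard} with hO
  have hOm : MeasurableSet O := by
    have h : Measurable (fun (x : G d u → Lam) (i : Fin d) => Z i x) :=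
      measurable_pi_lambda _ hZ
    have h2 : O = (fun (x : G d u → Lam) (i : Fin d) => Z i x) ⁻¹'
        {b : Fin d → Bool | Odd {i : Fin d | b i = true}.ncard} := rfl
    rw [h2]
    exact h (Set.toFinite _).measurableSet
  set Bs : Set (G d u → Lam) := Bp Z s E' with hBs
  have hBsm : MeasurableSet Bs := by
    refine hOm.inter (MeasurableSet.biInter hfin.countable fun g _ => ?_)
    exact measurable_sh g hE'm.compl
  have hBsx : ∀ x ∈ Bs, ∀ g ∈ bl d u s, sh g x ∉ E := by
    intro x hx g hg h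
    have h1 := hx.2
    simp only [Set.mem_iInter] at h1
    exact h1 g hg (hEE' h)
  set A : Set (G d u → Lam) := ⋃ i, {x | Z i x = true} with hA
  have hAm : MeasurableSet A := MeasurableSet.iUnion fun i => hZ i (measurableSet_singleton true)
  have hAle : μ.real A ≤ ∑ i, μ.real {x | Z i x = true} := measureReal_iUnion_fintype_le _
  -- mass transport
  have hlow : s * μ.real Bs ≤ ∑ g ∈ T, μ.real (Bs ∩ (sh g) ⁻¹' A) := by
    refine lower μ T _ (fun g => hBsm.inter (measurable_sh g hAm)) Bs hBsm s ?_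
    intro x hx
    obtain ⟨f, hf1, hf2⟩ := many Z W (BB : Set (G d u)) s x (hBsx x hx) hu hBB1 hx.1
    have h1 : (Finset.univ.image f) ⊆ T.filter (fun g => x ∈ Bs ∩ (sh g) ⁻¹' A) := by
      intro g hg
      obtain ⟨t, -, rfl⟩ := Finset.mem_image.1 hg
      obtain ⟨h2, i, h3⟩ := hf2 t
      rw [Finset.mem_filter]
      exact ⟨(mT _).2 h2, hx, Set.mem_iUnion.2 ⟨i, h3⟩⟩
    have h2 := Finset.card_le_card h1
    rw [Finset.card_image_of_injective _ hf1, Finset.card_univ, Fintype.card_fin] at h2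
    convert h2
  have hmove : ∀ g, μ.real (Bs ∩ (sh g) ⁻¹' A) = μ.real ((sh g⁻¹) ⁻¹' Bs ∩ A) := by
    intro g
    have h1 : Bs ∩ (sh g) ⁻¹' A = (sh g) ⁻¹' ((sh g⁻¹) ⁻¹' Bs ∩ A) := by
      ext x
      simp only [Set.mem_inter_iff, Set.mem_preimage]
      rw [sh_sh, inv_mul_cancel, sh_one]
    unfold Measure.real
    rw [h1, (mp_sh lam g).measure_preimage
      ((measurable_sh g⁻¹ hBsm).inter hAm).nullMeasurableSet]
  have hup : ∑ g ∈ T, μ.real ((sh g⁻¹) ⁻¹' Bs ∩ A) ≤ (2 : ℕ) * μ.real A := by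
    refine upper μ T _ (fun g => (measurable_sh g⁻¹ hBsm).inter hAm) A hAm 2
      (fun g => Set.inter_subset_right) ?_
    intro y
    have hcov : T.filter (fun g => y ∈ (sh g⁻¹) ⁻¹' Bs ∩ A) ⊆
        (Finset.univ : Finset Bool).biUnion
          (fun j => T.filter (fun g => sh g⁻¹ y ∈ Bs ∧ sh g⁻¹ y ∈ W j)) := by
      intro g hg
      obtain ⟨h1, h2, -⟩ := Finset.mem_filter.1 hg
      have h2' : sh g⁻¹ y ∈ Bs := h2
      obtain ⟨j, hj⟩ : ∃ j, sh g⁻¹ y ∈ W j := by
        by_contra hcon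
        push Not at hcon
        have h3 := hBsx _ h2' 1 (one_bl s)
        rw [sh_one] at h3
        exact h3 (Or.inr (Or.inl ⟨hcon, h2'.1⟩))
      rw [Finset.mem_biUnion]
      exact ⟨j, Finset.mem_univ _, Finset.mem_filter.2 ⟨h1, h2', hj⟩⟩
    have hc2 := (Finset.card_le_card hcov).trans Finset.card_biUnion_le
    have hc3 : ∀ a : ℕ, (T.filter (fun g => y ∈ (sh g⁻¹) ⁻¹' Bs ∩ A)).card ≤ a → a ≤ 2 →
        (T.filter (fun g => y ∈ (sh g⁻¹) ⁻¹' Bs ∩ A)).card ≤ 2 := fun a h h' => h.trans h'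
    have hc4 := hc3 _ hc2
    suffices hgoal : (T.filter (fun g => y ∈ (sh g⁻¹) ⁻¹' Bs ∩ A)).card ≤ 2 by
      convert hgoal
    apply hc4
    have h1 : ∀ j : Bool, (T.filter (fun g => sh g⁻¹ y ∈ Bs ∧ sh g⁻¹ y ∈ W j)).card ≤ 1 := by
      intro j
      rw [Finset.card_le_one]
      intro g hg h hh
      obtain ⟨hg1, hg2, hg3⟩ := Finset.mem_filter.1 hg
      obtain ⟨hh1, hh2, hh3⟩ := Finset.mem_filter.1 hh
      by_contra hne
      have h4 := hBsx _ hg2 1 (one_bl s)
      rw [sh_one] at h4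
      refine h4 (Or.inr (Or.inr ⟨j, hg3, h⁻¹ * g, hBB2 g ((mT _).1 hg1) h ((mT _).1 hh1), ?_, ?_⟩))
      · intro h5
        exact hne (inv_mul_eq_one.1 h5).symm
      · rw [sh_sh, mul_assoc, mul_inv_cancel, mul_one]
        exact hh3
    calc ∑ j : Bool, (T.filter (fun g => sh g⁻¹ y ∈ Bs ∧ sh g⁻¹ y ∈ W j)).card
        ≤ ∑ _j : Bool, 1 := Finset.sum_le_sum fun j _ => h1 j
      _ = 2 := by simp
  have hmain : s * μ.real Bs ≤ 2 * μ.real A := by
    refine hlow.trans ?_
    rw [Finset.sum_congr rfl (fun g _ => hmove g)]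
    refine hup.trans (le_of_eq ?_)
    norm_num
  have hBsle : μ.real Bs ≤ κ * μ.real A := by
    have h1 : (2 : ℝ) * μ.real A ≤ κ * s * μ.real A :=
      mul_le_mul_of_nonneg_right hsκ measureReal_nonneg
    have h2 : (s : ℝ) * μ.real Bs ≤ s * (κ * μ.real A) := by linarith
    exact le_of_mul_le_mul_left h2 hs0
  have hOsub : O ⊆ Bs ∪ ⋃ g ∈ T, (sh g) ⁻¹' E' := by
    intro x hx
    by_cases h : ∃ g ∈ T, sh g x ∈ E'
    · right
      obtain ⟨g, hg, h1⟩ := h
      simp only [Set.mem_iUnion]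
      exact ⟨g, hg, h1⟩
    · left
      push Not at h
      refine ⟨hx, ?_⟩
      simp only [Set.mem_iInter]
      intro g hg
      exact h g ((mT _).2 hg)
  have hT2 : μ.real (⋃ g ∈ T, (sh g) ⁻¹' E') ≤ T.card * (4 * ε) := by
    refine (measureReal_biUnion_finset_le _ _).trans ?_
    have h1 : ∀ g ∈ T, μ.real ((sh g) ⁻¹' E') ≤ 4 * ε := by
      intro g _
      unfold Measure.real
      rw [(mp_sh lam g).measure_preimage hE'm.nullMeasurableSet]
      exact hE'le
    calc ∑ g ∈ T, μ.real ((sh g) ⁻¹' E') ≤ ∑ _g ∈ T, 4 * ε := Finset.sum_le_sum h1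
      _ = T.card * (4 * ε) := by rw [Finset.sum_const, nsmul_eq_mul]
  have h1 := (measureReal_mono (μ := μ) hOsub).trans (measureReal_union_le _ _)
  have h2 : κ * μ.real A ≤ κ * ∑ i, μ.real {x | Z i x = true} :=
    mul_le_mul_of_nonneg_left hAle hκ.le
  have h3 : (T.card : ℝ) * (4 * ε) ≤ (4 * T.card + 1) * ε := by
    have : (4 * (T.card : ℝ) + 1) * ε = (T.card : ℝ) * (4 * ε) + ε := by ring
    linarith
  linarith

end Pool.Agent.Q35.LG2.Branch
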