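import Pool.Agent.Q35.LG2.Defs
import Pool.Graph.R_seed8.W841.LGIVT
import Pool.Graph.R_seed8.W856.FIApprox

/-! Correlated pairs of labels, for several functions at once (after W841/LGIVT). -/

open MeasureTheory Set

namespace Pool.Agent.Q35.LG2.Ivt

open Pool.Agent.Q35.LG2 Pool.Agent.W868.FI Pool.Agent.W841.LGIVT

noncomputable section

theorem cont {ι : Type} [Countable ι] (h : S_APPROX) (ν : Measure Bool) [IsProbabilityMeasure ν]
    (f : (ι → Bool) → Bool) (hf : Measurable f) :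
    ContinuousOn (fun t => (iid ι (lamt ν t) (Dis f)).toReal) (Icc 0 1) := by
  have hp1 : ∀ t ∈ Icc (0 : ℝ) 1, IsProbabilityMeasure (lamt ν t) :=
    fun t ht => lamt_prob ν ht.1 ht.2
  refine continuousOn_of_uniform_approx_of_continuousOn ?_
  intro u hu
  obtain ⟨ε, hε, hεu⟩ := Metric.mem_uniformity_dist.1 hu
  obtain ⟨W, g, hg1, hg2, hg3⟩ := h ι Bool Bool ν f
    (fun s => hf (measurableSet_singleton s)) (ε / 4) (by positivity)
  have hgm : Measurable g := measurable_to_countable' hg1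
  obtain ⟨Q, hQ, hQ2⟩ := local_cont ν g W hg2
  refine ⟨Q, hQ.continuousOn, ?_⟩
  intro t ht
  apply hεu
  have := hp1 t ht
  rw [Real.dist_eq, ← hQ2 t ht.1 ht.2]
  refine (approx ν (lamt ν t) (lamt_fst ν ht.1 ht.2) (lamt_snd ν ht.1 ht.2) hf hgm
    (by positivity) hg3).trans_lt ?_
  linarith

theorem at0 {ι : Type} (ν : Measure Bool) [IsProbabilityMeasure ν]
    (f : (ι → Bool) → Bool) (hf : Measurable f) :
    (iid ι (lamt ν 0) (Dis f)).toReal = 0 := by
  have hmapd : IsProbabilityMeasure (ν.map (fun b : Bool => (b, b))) :=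
    Measure.isProbabilityMeasure_map (by fun_prop)
  have e0 : lamt ν 0 = ν.map (fun b => (b, b)) := by
    unfold lamt; simp
  have e1 := Measure.infinitePi_map_pi (μ := fun _ : ι => ν)
    (f := fun _ : ι => (fun b : Bool => (b, b))) (fun _ => by fun_prop)
  have e2 : iid ι (lamt ν 0) = (iid ι ν).map (fun x i => (x i, x i)) := by
    rw [e0]; unfold iid; exact e1.symm
  rw [e2, Measure.map_apply (by fun_prop) (meas_Dis hf)]
  have e3 : (fun (x : ι → Bool) i => (x i, x i)) ⁻¹' Dis f = ∅ := by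
    ext x
    constructor
    · intro hx
      exact (hx rfl).elim
    · intro hx
      exact hx.elim
  rw [e3]
  simp

theorem at1 {ι : Type} (ν : Measure Bool) [IsProbabilityMeasure ν]
    (f : (ι → Bool) → Bool) (hf : Measurable f) :
    (iid ι (lamt ν 1) (Dis f)).toReal = 2 * (iid ι ν {x | f x = true}).toReal *
      (1 - (iid ι ν {x | f x = true}).toReal) := by
  have e0 : lamt ν 1 = ν.prod ν := by
    unfold lamt; simp
  rw [e0]
  have mA : MeasurableSet {x : ι → Bool | f x = true} := hf (measurableSet_singleton true)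
  have e1 : iid ι (ν.prod ν) (Dis f) = ((iid ι ν).prod (iid ι ν))
      (({x | f x = true} ×ˢ {x | f x = true}ᶜ) ∪ ({x | f x = true}ᶜ ×ˢ {x | f x = true})) := by
    rw [map_pair, Measure.map_apply (meas_z1.prodMk meas_z2)
      ((mA.prod mA.compl).union (mA.compl.prod mA))]
    congr 1
    ext z
    simp only [Dis, mem_preimage, mem_union, mem_prod, mem_compl_iff, mem_setOf_eq]
    cases f (z1 z) <;> cases f (z2 z) <;> simp
  rw [e1, measure_union _ (mA.compl.prod mA), Measure.prod_prod, Measure.prod_prod,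
    prob_compl_eq_one_sub mA, ENNReal.toReal_add, ENNReal.toReal_mul, ENNReal.toReal_mul,
    ENNReal.toReal_sub_of_le prob_le_one ENNReal.one_ne_top]
  · simp only [ENNReal.toReal_one]
    ring
  · exact ENNReal.mul_ne_top (measure_ne_top _ _) (ENNReal.sub_ne_top ENNReal.one_ne_top)
  · exact ENNReal.mul_ne_top (ENNReal.sub_ne_top ENNReal.one_ne_top) (measure_ne_top _ _)
  · rw [Set.disjoint_left]
    rintro ⟨x, y⟩ ⟨h1, h2⟩ ⟨h3, h4⟩
    exact h3 h1

theorem ivt (h : S_APPROX) : S_IVT := by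
  intro ι _ ν _ d f hf δ hδ0 hδ1
  have hp1 : ∀ t ∈ Icc (0 : ℝ) 1, IsProbabilityMeasure (lamt ν t) :=
    fun t ht => lamt_prob ν ht.1 ht.2
  set q : ℝ → ℝ := fun t => ∑ i, (iid ι (lamt ν t) (Dis (f i))).toReal with hq
  have hcont : ContinuousOn q (Icc 0 1) :=
    continuousOn_finset_sum _ fun i _ => cont h ν (f i) (hf i)
  have hq0 : q 0 = 0 := by
    rw [hq]
    exact Finset.sum_eq_zero fun i _ => at0 ν (f i) (hf i)
  have hq1 : q 1 = ∑ i, 2 * (iid ι ν {x | f i x = true}).toReal *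
      (1 - (iid ι ν {x | f i x = true}).toReal) := by
    rw [hq]
    exact Finset.sum_congr rfl fun i _ => at1 ν (f i) (hf i)
  obtain ⟨t, ht, hqt⟩ : δ ∈ q '' Icc 0 1 := by
    refine intermediate_value_Icc (by norm_num) hcont ⟨?_, ?_⟩
    · rw [hq0]; exact hδ0
    · rw [hq1]; exact hδ1
  exact ⟨lamt ν t, hp1 t ht, lamt_fst ν ht.1 ht.2, lamt_snd ν ht.1 ht.2, hqt⟩

end

end Pool.Agent.Q35.LG2.Ivt
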