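import Pool.Agent.Q35.LG2.FM
import Pool.Graph.R_seed8.Y721.LG.NoEven

/-! No sparse nearly even set of hyperedges as a factor of iid. -/

open MeasureTheory Set

namespace Pool.Agent.Q35.LG2.NoSp

open Pool.Agent.Q35.LG2 Pool.Agent.W868.FI Pool.Agent.Y721.LG Pool.Agent.Y721.LG.NoEven
open Pool.Agent.Q35.LG2.FM (pts card_pts)

section link

variable {d m u : ℕ} [NeZero u] (p : Fin d → Equiv.Perm (Fin m × ZMod u))
  (Zb : Fin d → Fin m × ZMod u → Bool)

/-- the blocks with a marked base point -/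
def blk : Finset (Fin d × Fin m) := Finset.univ.filter (fun q => Zb q.1 (p q.1 (q.2, 0)) = true)

/-- points of non-constant blocks -/
def bad (i : Fin d) : Set (Fin m × ZMod u) :=
  {v | ∃ c : ZMod u, Zb i (p i (((p i).symm v).1, ((p i).symm v).2 + c)) ≠ Zb i v}

theorem link1 (i : Fin d) (v : Fin m × ZMod u) (hv : v ∉ bad p Zb i) :
    (i, ((p i).symm v).1) ∈ blk p Zb ↔ Zb i v = true := by
  have h1 : Zb i (p i (((p i).symm v).1, ((p i).symm v).2 + (-((p i).symm v).2))) = Zb i v := by
    by_contra h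
    exact hv ⟨_, h⟩
  rw [add_neg_cancel] at h1
  simp only [blk, Finset.mem_filter, Finset.mem_univ, true_and]
  rw [h1]

theorem link2 : (ov p (blk p Zb)).ncard ≤
    {v | Odd {i : Fin d | Zb i v = true}.ncard}.ncard + ∑ i, (bad p Zb i).ncard := by
  classical
  have hsub : ov p (blk p Zb) ⊆ {v | Odd {i : Fin d | Zb i v = true}.ncard} ∪
      ⋃ i ∈ (Finset.univ : Finset (Fin d)), bad p Zb i := by
    intro v hv
    by_cases hb : ∃ i, v ∈ bad p Zb i
    · right
      obtain ⟨i, hi⟩ := hb
      simp only [Set.mem_iUnion, exists_prop]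
      exact ⟨i, Finset.mem_univ _, hi⟩
    · left
      push Not at hb
      have h1 : {i : Fin d | (i, ((p i).symm v).1) ∈ blk p Zb} = {i : Fin d | Zb i v = true} := by
        ext i
        exact link1 p Zb i v (hb i)
      have h2 : Odd {i : Fin d | (i, ((p i).symm v).1) ∈ blk p Zb}.ncard := hv
      rw [h1] at h2
      exact h2
  refine (Set.ncard_le_ncard hsub (Set.toFinite _)).trans ((Set.ncard_union_le _ _).trans ?_)
  exact Nat.add_le_add_left (Finset.set_ncard_biUnion_le _ _) _

theorem link3 : u * (blk p Zb).card ≤ ∑ i, {v | Zb i v = true}.ncard + ∑ i, (bad p Zb i).ncard ∧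
    ∑ i, {v | Zb i v = true}.ncard ≤ u * (blk p Zb).card + ∑ i, (bad p Zb i).ncard := by
  classical
  have h1 : ∀ i, (pts (u := u) (blk p Zb) i).card =
      {v | (i, ((p i).symm v).1) ∈ blk p Zb}.ncard := by
    intro i
    rw [← Set.ncard_coe_finset]
    have : {v | (i, ((p i).symm v).1) ∈ blk p Zb} =
        (p i) '' ((pts (u := u) (blk p Zb) i : Finset _) : Set (Fin m × ZMod u)) := by
      ext v
      constructor
      · intro hv
        refine ⟨(p i).symm v, ?_, by simp⟩
        simpa [pts] using hv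
      · rintro ⟨q, hq, rfl⟩
        have : (i, q.1) ∈ blk p Zb := by simpa [pts] using hq
        simpa using this
    rw [this, Set.ncard_image_of_injective _ (p i).injective]
  rw [← card_pts (u := u) (blk p Zb), ← Finset.sum_add_distrib, ← Finset.sum_add_distrib]
  constructor
  · refine Finset.sum_le_sum fun i _ => ?_
    rw [h1]
    refine (Set.ncard_le_ncard ?_ (Set.toFinite _)).trans (Set.ncard_union_le _ _)
    intro v hv
    by_cases hb : v ∈ bad p Zb i
    · exact Or.inr hb
    · exact Or.inl ((link1 p Zb i v hb).1 hv)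
  · refine Finset.sum_le_sum fun i _ => ?_
    rw [h1]
    refine (Set.ncard_le_ncard ?_ (Set.toFinite _)).trans (Set.ncard_union_le _ _)
    intro v hv
    by_cases hb : v ∈ bad p Zb i
    · exact Or.inr hb
    · exact Or.inl ((link1 p Zb i v hb).2 hv)

end link

theorem count {d u m : ℕ} [NeZero u] (δF δ : ℝ) (hδ : 0 < δ)
    (hδ0 : δ ≤ δF / 2)
    (hFM : ∀ (m a b : ℕ), 1 ≤ a → 10 * b ≤ a → (a : ℝ) ≤ δF * m →
      {p : Fin d → Equiv.Perm (Fin m × ZMod u) | ∃ A : Finset (Fin d × Fin m), A.card = a ∧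
        (ov p A).ncard ≤ b}.ncard * 2 ^ a ≤
      (Nat.card (Equiv.Perm (Fin m × ZMod u))) ^ d)
    (hm : 4 ≤ m * δ) (Good : (Fin d → Equiv.Perm (Fin m × ZMod u)) → Prop)
    (hGood : ∀ p, Good p → ∃ A : Finset (Fin d × Fin m),
      |(A.card : ℝ) - δ * m| ≤ δ * m / 20 ∧ ((ov p A).ncard : ℝ) ≤ 3 * (δ * m) / 40) :
    ({p | Good p}.ncard : ℝ) ≤ (Nat.card (Equiv.Perm (Fin m × ZMod u)) : ℝ) ^ d / 4 := by
  have hm0 : (0 : ℝ) < m := by
    by_contra h
    have : (m : ℝ) * δ ≤ 0 := mul_nonpos_of_nonpos_of_nonneg (not_lt.mp h) hδ.le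
    linarith
  set K : ℝ := (Nat.card (Equiv.Perm (Fin m × ZMod u)) : ℝ) ^ d with hK
  have hK0 : 0 ≤ K := by rw [hK]; positivity
  let S : ℕ → Set (Fin d → Equiv.Perm (Fin m × ZMod u)) := fun a' =>
    {p | ((a' + 3 : ℕ) : ℝ) ≤ δF * m ∧ ∃ A : Finset (Fin d × Fin m), A.card = a' + 3 ∧
      (ov p A).ncard ≤ (a' + 3) / 10}
  have hS : ∀ a', ((S a').ncard : ℝ) ≤ K * (1 / 2 : ℝ) ^ (a' + 3) := by
    intro a'
    by_cases hc : ((a' + 3 : ℕ) : ℝ) ≤ δF * m
    · have h1 := hFM m (a' + 3) ((a' + 3) / 10) (by omega) (by omega) hc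
      have h2 : S a' = {p : Fin d → Equiv.Perm (Fin m × ZMod u) |
          ∃ A : Finset (Fin d × Fin m), A.card = a' + 3 ∧ (ov p A).ncard ≤ (a' + 3) / 10} := by
        ext p
        constructor
        · intro h; exact h.2
        · intro h; exact ⟨hc, h⟩
      rw [h2]
      have h3 : (({p : Fin d → Equiv.Perm (Fin m × ZMod u) |
          ∃ A : Finset (Fin d × Fin m), A.card = a' + 3 ∧
            (ov p A).ncard ≤ (a' + 3) / 10}.ncard : ℝ)) * 2 ^ (a' + 3) ≤ K := by
        rw [hK]
        exact_mod_cast h1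
      have h4 : (0 : ℝ) < 2 ^ (a' + 3) := by positivity
      rw [one_div, inv_pow, ← div_eq_mul_inv, le_div_iff₀ h4]
      exact h3
    · have h2 : S a' = ∅ := by
        ext p
        simp only [Set.mem_empty_iff_false, iff_false]
        intro h; exact hc h.1
      rw [h2, Set.ncard_empty, Nat.cast_zero]
      positivity
  have hsub : {p | Good p} ⊆ ⋃ a' ∈ Finset.range (d * m), S a' := by
    intro p hp
    obtain ⟨A, hA, hAo⟩ := hGood p hp
    rw [abs_le] at hA
    have hle : A.card ≤ d * m := by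
      have := Finset.card_le_univ A
      rwa [Fintype.card_prod, Fintype.card_fin, Fintype.card_fin] at this
    have hmd : 4 ≤ δ * m := by linarith [mul_comm (m : ℝ) δ]
    have h3 : 3 ≤ A.card := by
      have : (3 : ℝ) ≤ A.card := by linarith [hA.1]
      exact_mod_cast this
    have hF : (A.card : ℝ) ≤ δF * m := by
      have h7 : δ * m ≤ δF / 2 * m := mul_le_mul_of_nonneg_right hδ0 hm0.le
      linarith [hA.2]
    simp only [Set.mem_iUnion, Finset.mem_range, exists_prop]
    refine ⟨A.card - 3, by omega, ?_⟩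
    have h9 : A.card - 3 + 3 = A.card := by omega
    show ((A.card - 3 + 3 : ℕ) : ℝ) ≤ δF * m ∧ ∃ A' : Finset (Fin d × Fin m),
      A'.card = A.card - 3 + 3 ∧ (ov p A').ncard ≤ (A.card - 3 + 3) / 10
    rw [h9]
    refine ⟨hF, A, rfl, ?_⟩
    rw [Nat.le_div_iff_mul_le (by norm_num)]
    have h12 : ((ov p A).ncard : ℝ) * 10 ≤ A.card := by linarith [hA.1]
    exact_mod_cast h12
  calc ({p | Good p}.ncard : ℝ) ≤ ((⋃ a' ∈ Finset.range (d * m), S a').ncard : ℝ) := by
        exact_mod_cast Set.ncard_le_ncard hsub (Set.toFinite _)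
    _ ≤ ∑ a' ∈ Finset.range (d * m), ((S a').ncard : ℝ) := by
        exact_mod_cast Finset.set_ncard_biUnion_le _ _
    _ ≤ ∑ a' ∈ Finset.range (d * m), K * (1 / 2 : ℝ) ^ (a' + 3) :=
        Finset.sum_le_sum (fun a' _ => hS a')
    _ = K * ∑ a' ∈ Finset.range (d * m), (1 / 2 : ℝ) ^ (a' + 3) := by rw [Finset.mul_sum]
    _ ≤ K * (1 / 4) := mul_le_mul_of_nonneg_left (geo _) hK0
    _ = K / 4 := by ring

section loc

variable {d u : ℕ} [NeZero u] {Lam : Type}

theorem loc_bad (Z' : (G d u → Lam) → Bool)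
    (W : Finset (G d u)) (hW : DepOn (W : Set (G d u)) Z') (i : Fin d) :
    Loc (fun x : G d u → Lam => ind (∃ c : ZMod u, Z' (sh (gen i c) x) ≠ Z' x)) := by
  classical
  refine ⟨(Finset.univ ×ˢ W).image (fun q : ZMod u × G d u => q.2 * gen i q.1) ∪ W, ?_⟩
  intro x y hxy
  have h0 : Z' x = Z' y := by
    apply hW
    intro k hk
    apply hxy
    simp only [Finset.coe_union, Set.mem_union]
    exact Or.inr hk
  have h1 : ∀ c : ZMod u, Z' (sh (gen i c) x) = Z' (sh (gen i c) y) := by
    intro c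
    apply hW
    intro k hk
    apply hxy
    simp only [Finset.coe_union, Set.mem_union, Finset.coe_image, Set.mem_image, Finset.mem_coe,
      Finset.mem_product, Finset.mem_univ, true_and]
    exact Or.inl ⟨(c, k), hk, rfl⟩
  simp only [h0, h1]

theorem loc_par (Z' : Fin d → (G d u → Lam) → Bool)
    (W : Fin d → Finset (G d u)) (hW : ∀ i, DepOn (W i : Set (G d u)) (Z' i)) :
    Loc (fun x : G d u → Lam => ind (Odd {i : Fin d | Z' i x = true}.ncard)) := by
  classical
  refine ⟨Finset.univ.biUnion W, ?_⟩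
  intro x y hxy
  have h1 : ∀ i, Z' i x = Z' i y := by
    intro i
    apply hW i
    intro k hk
    apply hxy
    simp only [Finset.coe_biUnion, Set.mem_iUnion, Finset.mem_coe, exists_prop]
    exact ⟨i, Finset.mem_univ _, hk⟩
  simp only [h1]

variable [MeasurableSpace Lam]

theorem meas_bad (Z' : (G d u → Lam) → Bool) (hZ' : Measurable Z') (i : Fin d) :
    MeasurableSet {x : G d u → Lam | ∃ c : ZMod u, Z' (sh (gen i c) x) ≠ Z' x} := by
  have : {x : G d u → Lam | ∃ c : ZMod u, Z' (sh (gen i c) x) ≠ Z' x} =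
      ⋃ c : ZMod u, {x : G d u → Lam | Z' (sh (gen i c) x) = Z' x}ᶜ := by
    ext x; simp
  rw [this]
  exact MeasurableSet.iUnion fun c =>
    (measurableSet_eq_fun (hZ'.comp (measurable_sh (gen i c))) hZ').compl

theorem meas_par (Z' : Fin d → (G d u → Lam) → Bool) (hZ' : ∀ i, Measurable (Z' i)) :
    MeasurableSet {x : G d u → Lam | Odd {i : Fin d | Z' i x = true}.ncard} := by
  have h : Measurable (fun (x : G d u → Lam) (i : Fin d) => Z' i x) :=
    measurable_pi_lambda _ hZ'
  have h2 : {x : G d u → Lam | Odd {i : Fin d | Z' i x = true}.ncard} =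
      (fun (x : G d u → Lam) (i : Fin d) => Z' i x) ⁻¹'
        {b : Fin d → Bool | Odd {i : Fin d | b i = true}.ncard} := rfl
  rw [h2]
  exact h (Set.toFinite _).measurableSet

variable [Countable (G d u)] (lam : Measure Lam) [IsProbabilityMeasure lam]

theorem bad_real (Z Z' : Fin d → (G d u → Lam) → Bool)
    (hZ : ∀ i, Measurable (Z i)) (hZ' : ∀ i, Measurable (Z' i)) (i : Fin d) (e e' : ℝ)
    (he' : 0 ≤ e')
    (h : (iid (G d u) lam).real {x | ∃ (i : Fin d) (c : ZMod u), Z i (sh (gen i c) x) ≠ Z i x} ≤ e)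
    (h' : (iid (G d u) lam).real {x | Z i x ≠ Z' i x} ≤ e') :
    (iid (G d u) lam).real {x | ∃ c : ZMod u, Z' i (sh (gen i c) x) ≠ Z' i x} ≤
      e + (u + 1) * e' := by
  set μ := iid (G d u) lam with hμ
  have hms : MeasurableSet {x : G d u → Lam | Z i x ≠ Z' i x} :=
    (measurableSet_eq_fun (hZ i) (hZ' i)).compl
  have hsub : {x | ∃ c : ZMod u, Z' i (sh (gen i c) x) ≠ Z' i x} ⊆
      {x | ∃ (i : Fin d) (c : ZMod u), Z i (sh (gen i c) x) ≠ Z i x} ∪
        ((⋃ c : ZMod u, (sh (gen i c)) ⁻¹' {x : G d u → Lam | Z i x ≠ Z' i x}) ∪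
          {x | Z i x ≠ Z' i x}) := by
    rintro x ⟨c, hc⟩
    by_contra hcon
    simp only [Set.mem_union, Set.mem_iUnion, not_or, not_exists, Set.mem_preimage] at hcon
    obtain ⟨h1, h2, h3⟩ := hcon
    apply hc
    have h1' : ∀ (i : Fin d) (c : ZMod u), ¬ Z i (sh (gen i c) x) ≠ Z i x :=
      fun i c h => h1 ⟨i, c, h⟩
    have e1 : Z i (sh (gen i c) x) = Z i x := not_not.1 (h1' i c)
    have e2 : Z i (sh (gen i c) x) = Z' i (sh (gen i c) x) := not_not.1 (h2 c)
    have e3 : Z i x = Z' i x := not_not.1 h3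
    rw [← e2, e1, e3]
  have h2 : μ.real (⋃ c : ZMod u, (sh (gen i c)) ⁻¹' {x : G d u → Lam | Z i x ≠ Z' i x}) ≤
      u * e' := by
    refine le_trans (measureReal_iUnion_fintype_le _) ?_
    have h4 : ∀ c : ZMod u, μ.real ((sh (gen i c)) ⁻¹' {x : G d u → Lam | Z i x ≠ Z' i x}) ≤ e' := by
      intro c
      unfold Measure.real
      rw [(mp_sh lam (gen i c)).measure_preimage hms.nullMeasurableSet]
      exact h'
    calc ∑ c : ZMod u, μ.real ((sh (gen i c)) ⁻¹' {x : G d u → Lam | Z i x ≠ Z' i x})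
        ≤ ∑ _c : ZMod u, e' := Finset.sum_le_sum (fun c _ => h4 c)
      _ = u * e' := by simp [ZMod.card]
  have h3 := (measureReal_mono (μ := μ) hsub).trans (measureReal_union_le _ _)
  have h4 := measureReal_union_le (μ := μ)
    (⋃ c : ZMod u, (sh (gen i c)) ⁻¹' {x : G d u → Lam | Z i x ≠ Z' i x}) {x | Z i x ≠ Z' i x}
  linarith

theorem par_real (Z Z' : Fin d → (G d u → Lam) → Bool) (e e' : ℝ)
    (h : (iid (G d u) lam).real {x | Odd {i : Fin d | Z i x = true}.ncard} ≤ e)
    (h' : ∀ i, (iid (G d u) lam).real {x | Z i x ≠ Z' i x} ≤ e') :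
    (iid (G d u) lam).real {x | Odd {i : Fin d | Z' i x = true}.ncard} ≤ e + d * e' := by
  have hsub : {x | Odd {i : Fin d | Z' i x = true}.ncard} ⊆
      {x | Odd {i : Fin d | Z i x = true}.ncard} ∪ ⋃ i : Fin d, {x | Z i x ≠ Z' i x} := by
    intro x hx
    by_cases hc : ∃ i : Fin d, Z i x ≠ Z' i x
    · right
      exact Set.mem_iUnion.2 hc
    · left
      push Not at hc
      have : {i : Fin d | Z i x = true} = {i : Fin d | Z' i x = true} := by
        ext i
        show Z i x = true ↔ Z' i x = true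
        rw [hc i]
      show Odd {i : Fin d | Z i x = true}.ncard
      rw [this]; exact hx
  have h3 := (measureReal_mono (μ := iid (G d u) lam) hsub).trans (measureReal_union_le _ _)
  have h4 : (iid (G d u) lam).real (⋃ i : Fin d, {x | Z i x ≠ Z' i x}) ≤ d * e' := by
    refine le_trans (measureReal_iUnion_fintype_le _) ?_
    calc ∑ i : Fin d, (iid (G d u) lam).real {x | Z i x ≠ Z' i x}
        ≤ ∑ _i : Fin d, e' := Finset.sum_le_sum (fun i _ => h' i)
      _ = d * e' := by simp
  linarith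

end loc

theorem nosp (h₁ : S_FM) (h₂ : L_TR) (h₃ : S_APPROX) (h₄ : L_GRP) : S_NOSP := by
  classical
  intro d u _ hd hu
  obtain ⟨δF, hδF, hFM⟩ := h₁ d u (by omega) hu
  obtain ⟨hcount, -⟩ := h₄ d u hd (by omega)
  have hu2 : (3 : ℝ) ≤ u := by exact_mod_cast hu
  have hd2 : (3 : ℝ) ≤ d := by exact_mod_cast hd
  have hu0 : (0 : ℝ) < u := by linarith
  have hd0 : (0 : ℝ) < d := by linarith
  refine ⟨δF / 2, 1 / (40 * u), by positivity, by positivity, ?_⟩
  intro δ hδ hδ0
  obtain ⟨τ, hτ⟩ : ∃ τ : ℝ, τ = δ / (20 * d * (u + 5) * u) := ⟨_, rfl⟩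
  have hτ0 : 0 < τ := by rw [hτ]; positivity
  have hτe : d * (u + 5) * τ * (20 * u) = δ := by rw [hτ]; field_simp
  have hτ1 : d * (u + 5) * τ ≤ δ / 60 := by
    have : d * (u + 5) * τ * 60 ≤ d * (u + 5) * τ * (20 * u) := by
      apply mul_le_mul_of_nonneg_left _ (by positivity)
      linarith
    linarith
  refine ⟨τ, hτ0, ?_⟩
  intro Lam _ _ _ lam _ Z hZ hZδ hinv hodd
  choose W Z' hZ's hZ'W hZZ' using fun i => h₃ (G d u) Lam Bool lam (Z i)
    (fun s => hZ i (measurableSet_singleton s)) τ hτ0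
  have hZ'm : ∀ i, Measurable (Z' i) := by
    intro i
    apply measurable_to_countable'
    intro s; exact hZ's i s
  have hD : ∀ i, (iid (G d u) lam).real {x | Z i x ≠ Z' i x} ≤ τ :=
    fun i => real_le_of_le _ hτ0.le (hZZ' i)
  have hb1 : ∀ i, (iid (G d u) lam).real {x | Z' i x = true} ≤
      (iid (G d u) lam).real {x | Z i x = true} + τ := by
    intro i
    have := real_le_of_ae (iid (G d u) lam) (P := fun x => Z' i x = true)
      (Q := fun x => Z i x = true)
      (D := fun x => Z i x ≠ Z' i x) (fun x hx => by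
        by_cases h : Z i x = true
        · exact Or.inl h
        · right; rw [hx]; exact h)
    linarith [hD i]
  have hb2 : ∀ i, (iid (G d u) lam).real {x | Z i x = true} ≤
      (iid (G d u) lam).real {x | Z' i x = true} + τ := by
    intro i
    have := real_le_of_ae (iid (G d u) lam) (P := fun x => Z i x = true)
      (Q := fun x => Z' i x = true)
      (D := fun x => Z i x ≠ Z' i x) (fun x hx => by
        by_cases h : Z' i x = true
        · exact Or.inl h
        · right; rw [hx]; exact fun h' => h h'.symm)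
    linarith [hD i]
  have hbi : ∀ i, (iid (G d u) lam).real
      {x | ∃ c : ZMod u, Z' i (sh (gen i c) x) ≠ Z' i x} ≤ τ + (u + 1) * τ := fun i =>
    bad_real lam Z Z' hZ hZ'm i τ τ hτ0.le hinv (hD i)
  have hbo : (iid (G d u) lam).real {x | Odd {i : Fin d | Z' i x = true}.ncard} ≤
      1 / (40 * u) * δ + d * τ := par_real lam Z Z' _ τ hodd hD
  -- the local functions
  let φ : Option (Fin d × Bool) → (G d u → Lam) → ℝ := fun k x => match k with
    | none => ind (Odd {i : Fin d | Z' i x = true}.ncard)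
    | some (i, true) => ind (Z' i x = true)
    | some (i, false) => ind (∃ c : ZMod u, Z' i (sh (gen i c) x) ≠ Z' i x)
  have hφloc : ∀ k, Loc (φ k) := by
    intro k
    match k with
    | none => exact loc_par Z' W hZ'W
    | some (i, true) => exact loc_one (Z' i) (W i) (hZ'W i)
    | some (i, false) => exact loc_bad (Z' i) (W i) (hZ'W i) i
  have hφ1 : ∀ k x, |φ k x| ≤ 1 := by
    intro k x
    match k with
    | none => exact ind_abs _
    | some (i, true) => exact ind_abs _
    | some (i, false) => exact ind_abs _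
  have hNk : (0 : ℝ) < (Fintype.card (Option (Fin d × Bool)) : ℝ) := by
    exact_mod_cast Fintype.card_pos
  choose m₀ hm₀ using fun k => h₂ d u hd (by omega) Lam lam (φ k) (hφloc k) (hφ1 k)
    (τ / (4 * (Fintype.card (Option (Fin d × Bool)) : ℝ))) (by positivity)
  obtain ⟨m, hm⟩ : ∃ m : ℕ, (∑ k, m₀ k) + ⌈4 / δ⌉₊ + 1 = m := ⟨_, rfl⟩
  have hmk : ∀ k, m₀ k ≤ m := by
    intro k
    have : m₀ k ≤ ∑ k, m₀ k := Finset.single_le_sum (f := m₀) (fun _ _ => Nat.zero_le _)
      (Finset.mem_univ k)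
    omega
  have hmδ : 4 ≤ m * δ := by
    have h1 : (4 / δ : ℝ) ≤ m := by
      refine (Nat.le_ceil _).trans ?_
      exact_mod_cast (by omega : ⌈4 / δ⌉₊ ≤ m)
    rwa [div_le_iff₀ hδ] at h1
  have hm1 : (0 : ℝ) < m := by
    have : 1 ≤ m := by omega
    exact_mod_cast this
  let D : Option (Fin d × Bool) → (Fin d → Equiv.Perm (Fin m × ZMod u)) →
      (Fin m × ZMod u → Lam) → ℝ := fun k p w =>
    |(∑ v : Fin m × ZMod u, φ k (pull p w v)) / (m * u : ℝ) - ∫ x, φ k x ∂(iid (G d u) lam)|
  have hTR : ∀ k, ∑ p : Fin d → Equiv.Perm (Fin m × ZMod u),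
      ∫ w, D k p w ∂(Measure.pi (fun _ : Fin m × ZMod u => lam)) ≤
      (τ / (4 * (Fintype.card (Option (Fin d × Bool)) : ℝ))) *
        (Nat.card (Fin d → Equiv.Perm (Fin m × ZMod u)) : ℝ) := fun k =>
    hm₀ k m (hmk k)
  have hDint : ∀ k p, Integrable (D k p) (Measure.pi (fun _ : Fin m × ZMod u => lam)) :=
    fun k p => Integrable.of_finite
  have hD0 : ∀ k p w, 0 ≤ D k p w := fun k p w => abs_nonneg _
  let Good : (Fin d → Equiv.Perm (Fin m × ZMod u)) → Prop := fun p => ∃ w, ∀ k, D k p w ≤ τ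
  set K : ℝ := (Nat.card (Equiv.Perm (Fin m × ZMod u)) : ℝ) ^ d with hK
  have hKc : (Nat.card (Fin d → Equiv.Perm (Fin m × ZMod u)) : ℝ) = K := by
    rw [Nat.card_fun]; simp [hK]
  have hKpos : 0 < K := by
    rw [hK]
    have : 0 < Nat.card (Equiv.Perm (Fin m × ZMod u)) := Nat.card_pos
    positivity
  -- bad permutations
  have hbad : ({p | ¬ Good p}.ncard : ℝ) * τ ≤ (τ / 4) * K := by
    have h1 : ∀ p, ¬ Good p → τ ≤
        ∑ k, ∫ w, D k p w ∂(Measure.pi (fun _ : Fin m × ZMod u => lam)) := by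
      intro p hp
      rw [← integral_finset_sum _ (fun k _ => hDint k p)]
      have h2 : ∀ w, τ ≤ ∑ k, D k p w := by
        intro w
        have h3 : ∃ k, τ < D k p w := by
          by_contra h
          push Not at h
          exact hp ⟨w, h⟩
        obtain ⟨k, hk⟩ := h3
        exact hk.le.trans (Finset.single_le_sum (f := fun k => D k p w)
          (fun k _ => hD0 k p w) (Finset.mem_univ k))
      calc τ = ∫ _w, τ ∂(Measure.pi (fun _ : Fin m × ZMod u => lam)) := by simp
        _ ≤ _ := integral_mono (integrable_const _)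
            (integrable_finset_sum _ (fun k _ => hDint k p)) h2
    have h4 : ({p | ¬ Good p}.ncard : ℝ) * τ ≤
        ∑ p, ∑ k, ∫ w, D k p w ∂(Measure.pi (fun _ : Fin m × ZMod u => lam)) := by
      rw [Set.ncard_eq_toFinset_card', Set.toFinset_setOf, ← nsmul_eq_mul, ← Finset.sum_const]
      calc ∑ _p ∈ Finset.univ.filter (fun p => ¬ Good p), τ
          ≤ ∑ p ∈ Finset.univ.filter (fun p => ¬ Good p),
              ∑ k, ∫ w, D k p w ∂(Measure.pi (fun _ : Fin m × ZMod u => lam)) := by
            apply Finset.sum_le_sum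
            intro p hp
            exact h1 p (Finset.mem_filter.mp hp).2
        _ ≤ _ := by
            apply Finset.sum_le_sum_of_subset_of_nonneg (Finset.filter_subset _ _)
            intro p _ _
            exact Finset.sum_nonneg (fun k _ => integral_nonneg (fun w => hD0 k p w))
    refine h4.trans ?_
    rw [Finset.sum_comm]
    calc ∑ k, ∑ p, ∫ w, D k p w ∂(Measure.pi (fun _ : Fin m × ZMod u => lam))
        ≤ ∑ _k : Option (Fin d × Bool),
            (τ / (4 * (Fintype.card (Option (Fin d × Bool)) : ℝ))) * K := by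
          apply Finset.sum_le_sum
          intro k _
          have := hTR k
          rwa [hKc] at this
      _ = (τ / 4) * K := by
          rw [Finset.sum_const, Finset.card_univ, nsmul_eq_mul]
          field_simp
  -- good permutations
  have hgood : ({p | Good p}.ncard : ℝ) ≤ K / 4 := by
    apply count δF δ hδ hδ0 hFM hmδ
    rintro p ⟨w, hw⟩
    have hmu : (0 : ℝ) < m * u := by positivity
    let Zb : Fin d → Fin m × ZMod u → Bool := fun i v => Z' i (pull p w v)
    refine ⟨blk p Zb, ?_⟩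
    have hl2 := link2 p Zb
    have hl3 := link3 p Zb
    -- the three statistics
    have s1 : ∀ i, |({v | Zb i v = true}.ncard : ℝ) / (m * u : ℝ) -
        (iid (G d u) lam).real {x | Z' i x = true}| ≤ τ := by
      intro i
      have h1 := hw (some (i, true))
      have h2 : (∑ v : Fin m × ZMod u, φ (some (i, true)) (pull p w v)) =
          ({v | Z' i (pull p w v) = true}.ncard : ℝ) :=
        sum_ind (fun v => Z' i (pull p w v) = true)
      have h3 : ∫ x, φ (some (i, true)) x ∂(iid (G d u) lam) =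
          (iid (G d u) lam).real {x | Z' i x = true} :=
        integral_ind _ _ (hZ'm i (measurableSet_singleton true))
      have h4 : D (some (i, true)) p w = |({v | Z' i (pull p w v) = true}.ncard : ℝ) /
          (m * u : ℝ) - (iid (G d u) lam).real {x | Z' i x = true}| := by
        rw [← h2, ← h3]
      rw [h4] at h1
      exact h1
    have s2 : ∀ i, ((bad p Zb i).ncard : ℝ) ≤ ((u + 3) * τ) * (m * u) := by
      intro i
      have h1 := hw (some (i, false))
      have h2 : (∑ v : Fin m × ZMod u, φ (some (i, false)) (pull p w v)) =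
          ({v | ∃ c : ZMod u, Z' i (sh (gen i c) (pull p w v)) ≠ Z' i (pull p w v)}.ncard : ℝ) :=
        sum_ind (fun v => ∃ c : ZMod u, Z' i (sh (gen i c) (pull p w v)) ≠ Z' i (pull p w v))
      have h3 : ∫ x, φ (some (i, false)) x ∂(iid (G d u) lam) =
          (iid (G d u) lam).real {x | ∃ c : ZMod u, Z' i (sh (gen i c) x) ≠ Z' i x} :=
        integral_ind _ _ (meas_bad (Z' i) (hZ'm i) i)
      have h5 : bad p Zb i =
          {v | ∃ c : ZMod u, Z' i (sh (gen i c) (pull p w v)) ≠ Z' i (pull p w v)} := by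
        ext v
        refine exists_congr fun c => ?_
        rw [sh_pull, act_gen]
      have h4 : D (some (i, false)) p w = |((bad p Zb i).ncard : ℝ) /
          (m * u : ℝ) - (iid (G d u) lam).real
            {x | ∃ c : ZMod u, Z' i (sh (gen i c) x) ≠ Z' i x}| := by
        rw [h5, ← h2, ← h3]
      rw [h4, abs_le] at h1
      have h6 := hbi i
      have h7 : ((bad p Zb i).ncard : ℝ) / (m * u : ℝ) ≤ (u + 3) * τ := by linarith [h1.2]
      rwa [div_le_iff₀ hmu] at h7
    have s3 : ({v | Odd {i : Fin d | Zb i v = true}.ncard}.ncard : ℝ) ≤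
        (1 / (40 * u) * δ + (d + 1) * τ) * (m * u) := by
      have h1 := hw none
      have h2 : (∑ v : Fin m × ZMod u, φ none (pull p w v)) =
          ({v | Odd {i : Fin d | Z' i (pull p w v) = true}.ncard}.ncard : ℝ) :=
        sum_ind (fun v => Odd {i : Fin d | Z' i (pull p w v) = true}.ncard)
      have h3 : ∫ x, φ none x ∂(iid (G d u) lam) =
          (iid (G d u) lam).real {x | Odd {i : Fin d | Z' i x = true}.ncard} :=
        integral_ind _ _ (meas_par Z' hZ'm)
      have h4 : D none p w = |({v | Odd {i : Fin d | Z' i (pull p w v) = true}.ncard}.ncard : ℝ) /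
          (m * u : ℝ) - (iid (G d u) lam).real
            {x | Odd {i : Fin d | Z' i x = true}.ncard}| := by
        rw [← h2, ← h3]
      rw [h4, abs_le] at h1
      have h7 : ({v | Odd {i : Fin d | Z' i (pull p w v) = true}.ncard}.ncard : ℝ) /
          (m * u : ℝ) ≤ 1 / (40 * u) * δ + (d + 1) * τ := by linarith [h1.2]
      rwa [div_le_iff₀ hmu] at h7
    -- sums
    have t2 : ∑ i, ((bad p Zb i).ncard : ℝ) ≤ d * ((u + 3) * τ) * (m * u) := by
      calc ∑ i, ((bad p Zb i).ncard : ℝ) ≤ ∑ _i : Fin d, ((u + 3) * τ) * (m * u) :=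
            Finset.sum_le_sum fun i _ => s2 i
        _ = _ := by
            rw [Finset.sum_const, Finset.card_univ, Fintype.card_fin, nsmul_eq_mul]; ring
    have t1 : |∑ i, ({v | Zb i v = true}.ncard : ℝ) - δ * (m * u)| ≤ d * (2 * τ) * (m * u) := by
      have h1 : ∑ i, ({v | Zb i v = true}.ncard : ℝ) - δ * (m * u) =
          ∑ i, (({v | Zb i v = true}.ncard : ℝ) -
            (iid (G d u) lam).real {x | Z i x = true} * (m * u)) := by
        rw [Finset.sum_sub_distrib, ← Finset.sum_mul, hZδ]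
      rw [h1]
      refine (Finset.abs_sum_le_sum_abs _ _).trans ?_
      have h2 : ∀ i, |({v | Zb i v = true}.ncard : ℝ) -
            (iid (G d u) lam).real {x | Z i x = true} * (m * u)| ≤ (2 * τ) * (m * u) := by
        intro i
        have h3 := s1 i
        rw [abs_le] at h3
        have h4 := hb1 i
        have h5 := hb2 i
        have h6 : ({v | Zb i v = true}.ncard : ℝ) =
            (({v | Zb i v = true}.ncard : ℝ) / (m * u)) * (m * u) := by
          rw [div_mul_cancel₀ _ hmu.ne']
        rw [h6, ← sub_mul, abs_mul, abs_of_pos hmu]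
        apply mul_le_mul_of_nonneg_right _ hmu.le
        rw [abs_le]
        constructor
        · linarith [h3.1]
        · linarith [h3.2]
      calc _ ≤ ∑ _i : Fin d, (2 * τ) * (m * u) := Finset.sum_le_sum fun i _ => h2 i
        _ = _ := by
            rw [Finset.sum_const, Finset.card_univ, Fintype.card_fin, nsmul_eq_mul]; ring
    have hl3a : (u : ℝ) * (blk p Zb).card ≤ ∑ i, ({v | Zb i v = true}.ncard : ℝ) +
        ∑ i, ((bad p Zb i).ncard : ℝ) := by exact_mod_cast hl3.1
    have hl3b : ∑ i, ({v | Zb i v = true}.ncard : ℝ) ≤ (u : ℝ) * (blk p Zb).card +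
        ∑ i, ((bad p Zb i).ncard : ℝ) := by exact_mod_cast hl3.2
    have hl2' : ((ov p (blk p Zb)).ncard : ℝ) ≤
        ({v | Odd {i : Fin d | Zb i v = true}.ncard}.ncard : ℝ) +
          ∑ i, ((bad p Zb i).ncard : ℝ) := by exact_mod_cast hl2
    rw [abs_le] at t1
    have htot : d * (2 * τ) * (m * u) + d * ((u + 3) * τ) * (m * u) =
        (d * (u + 5) * τ) * (m * u) := by ring
    have hsm : (d * (u + 5) * τ) * (m * u) ≤ δ / 60 * (m * u) :=
      mul_le_mul_of_nonneg_right hτ1 hmu.le
    constructor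
    · rw [abs_le]
      constructor
      · -- lower bound
        have h1 : u * (δ * m - δ * m / 20) ≤ (u : ℝ) * (blk p Zb).card := by
          have e1 : u * (δ * m - δ * m / 20) = δ * (m * u) - δ / 20 * (m * u) := by ring
          have e2 : 0 ≤ δ * (m * u) := by positivity
          rw [e1]
          linarith [t1.1]
        have h2 := le_of_mul_le_mul_left h1 hu0
        linarith
      · have h1 : (u : ℝ) * (blk p Zb).card ≤ u * (δ * m + δ * m / 20) := by
          have e1 : u * (δ * m + δ * m / 20) = δ * (m * u) + δ / 20 * (m * u) := by ring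
          have e2 : 0 ≤ δ * (m * u) := by positivity
          rw [e1]
          linarith [t1.2]
        have h2 := le_of_mul_le_mul_left h1 hu0
        linarith
    · have e1 : (1 / (40 * u) * δ + (d + 1) * τ) * (m * u) = δ * m / 40 + (d + 1) * τ * (m * u) := by
        field_simp
      have e2 : (d + 1) * τ * (m * u) + d * ((u + 3) * τ) * (m * u) ≤
          (d * (u + 5) * τ) * (m * u) := by
        have : (d + 1 : ℝ) + d * (u + 3) ≤ d * (u + 5) := by nlinarith
        have h3 : ((d + 1 : ℝ) + d * (u + 3)) * (τ * (m * u)) ≤ (d * (u + 5)) * (τ * (m * u)) :=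
          mul_le_mul_of_nonneg_right this (by positivity)
        linarith
      have e3 : (d * (u + 5) * τ) * (m * u) = δ * m / 20 := by
        have : d * (u + 5) * τ * (m * u) * 20 = (d * (u + 5) * τ * (20 * u)) * m := by ring
        rw [hτe] at this
        linarith
      rw [e1] at s3
      linarith
  -- contradiction
  have htot : ({p | Good p}.ncard : ℝ) + ({p | ¬ Good p}.ncard : ℝ) = K := by
    rw [← hKc]
    have h5 : {p | ¬ Good p} = {p | Good p}ᶜ := rfl
    rw [h5]
    exact_mod_cast Set.ncard_add_ncard_compl {p | Good p}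
  have hbad2 : ({p | ¬ Good p}.ncard : ℝ) ≤ K / 4 := by
    have h6 : ({p | ¬ Good p}.ncard : ℝ) * τ ≤ (K / 4) * τ := by
      refine hbad.trans (le_of_eq ?_)
      ring
    exact le_of_mul_le_mul_right h6 hτ0
  linarith

end Pool.Agent.Q35.LG2.NoSp
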