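import Pool.Agent.Q35.LG2.Lim
import Pool.Agent.Q35.LG2.Branch
import Pool.Agent.Q35.LG2.NoSp
import Pool.Agent.Q35.LG2.Ivt
import Pool.Graph.R_seed8.Y721.LG.All

/-! Local-global limits of hypergraphs, `d ≥ u`: assembly. -/

open MeasureTheory Set

namespace Pool.Agent.Q35.LG2.Asm

open Pool.Agent.Q35.LG2 Pool.Agent.W868.FI Pool.Agent.Y721.LG Pool.Agent.Y721.LG.Ball
open Pool.Agent.Y721.LG.Big (free_sh radius)
open Pool.Agent.W868.LG (Adj Conn IsPmp Regular Acyclic ball BallIso Cls Close frac LGLimit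
  coin rot act1 odd_xor law_map)

section basic

variable {d u : ℕ} [NeZero u]

/-- an enumeration of `ZMod u` -/
noncomputable def q (u : ℕ) [NeZero u] : Fin u ≃ ZMod u :=
  (Fintype.equivFinOfCardEq (ZMod.card u)).symm

/-- the ordered hyperedge of colour `i` at `x` -/
noncomputable def wz (i : Fin d) (x : G d u → Bool) : Fin u → (G d u → Bool) :=
  fun j => sh (gen i (q u j)) x

theorem range_wz (i : Fin d) (x : G d u → Bool) :
    range (wz i x) = range (fun c : ZMod u => sh (gen i c) x) := by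
  ext y
  constructor
  · rintro ⟨j, rfl⟩
    exact ⟨q u j, rfl⟩
  · rintro ⟨c, rfl⟩
    exact ⟨(q u).symm c, by simp [wz]⟩

theorem range_sh (hmul : ∀ (i : Fin d) (c c' : ZMod u), (gen i c : G d u) * gen i c' = gen i (c + c'))
    (i : Fin d) (c₀ : ZMod u) (x : G d u → Bool) :
    range (wz i (sh (gen i c₀) x)) = range (wz i x) := by
  rw [range_wz, range_wz]
  ext z
  constructor
  · rintro ⟨c, rfl⟩
    refine ⟨c + c₀, ?_⟩
    show sh (gen i (c + c₀)) x = sh (gen i c) (sh (gen i c₀) x)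
    rw [sh_sh, hmul]
  · rintro ⟨c, rfl⟩
    refine ⟨c - c₀, ?_⟩
    show sh (gen i (c - c₀)) (sh (gen i c₀) x) = sh (gen i c) x
    rw [sh_sh, hmul, sub_add_cancel]

theorem meas_wz (i : Fin d) : Measurable (wz (u := u) i) :=
  measurable_pi_lambda _ fun _ => measurable_sh _

end basic

/-- inconsistent points -/
def NCs (u K : ℕ) {X : Type} (E : Set (Set X)) (L : (Fin u → X) → Fin K → Bool) : Set X :=
  {x | ∃ w w' : Fin u → X, Function.Injective w ∧ Function.Injective w' ∧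
    range w' = range w ∧ range w ∈ E ∧ x ∈ range w ∧ L w ≠ L w'}

section free

variable {d u K : ℕ} [NeZero u] (hd : 3 ≤ d) (hu : 3 ≤ u) (hEdge : L_EDGE) (hGrp : L_GRP)
  (L : (Fin u → (G d u → Bool)) → Fin K → Bool)

/-- the label of the hyperedge of colour `i` at `x` -/
noncomputable def Zl (κ : Fin K) (i : Fin d) (x : G d u → Bool) : Bool := L (wz i x) κ

include hd hu hEdge in
theorem wz_inj (i : Fin d) (x : G d u → Bool) (hx : x ∈ freePart (G d u) Bool) :
    Function.Injective (wz i x) := by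
  obtain ⟨-, -, h3⟩ := hEdge d u hd (by omega) x hx
  intro a b hab
  exact (q u).injective (h3 i hab)

include hd hu hEdge in
theorem wz_mem (i : Fin d) (x : G d u → Bool) (hx : x ∈ freePart (G d u) Bool) :
    range (wz i x) ∈ EE d u ∧ x ∈ range (wz i x) := by
  obtain ⟨h1, -, -⟩ := hEdge d u hd (by omega) x hx
  have : range (wz i x) ∈ {e | e ∈ EE d u ∧ x ∈ e} := by
    rw [h1]; exact ⟨i, (range_wz i x).symm⟩
  exact this

include hd hu hEdge in
/-- the label of an ordering of a hyperedge at a consistent point -/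
theorem lab (x : G d u → Bool) (hx : x ∈ freePart (G d u) Bool)
    (hn : x ∉ NCs u K (EE d u) L) (w : Fin u → (G d u → Bool)) (hw : Function.Injective w)
    (hwE : range w ∈ EE d u) (hxw : x ∈ range w) :
    ∃ i : Fin d, range w = range (wz i x) ∧ L w = L (wz i x) := by
  obtain ⟨h1, -, -⟩ := hEdge d u hd (by omega) x hx
  have h2 : range w ∈ {e | e ∈ EE d u ∧ x ∈ e} := ⟨hwE, hxw⟩
  rw [h1] at h2
  obtain ⟨i, hi⟩ := h2
  have h3 : range w = range (wz i x) := by rw [range_wz]; exact hi.symm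
  refine ⟨i, h3, ?_⟩
  by_contra hne
  exact hn ⟨w, wz i x, hw, wz_inj hd hu hEdge i x hx, h3.symm, hwE, hxw, hne⟩

include hd hu hEdge hGrp in
theorem inv_Z (x : G d u → Bool) (hx : x ∈ freePart (G d u) Bool)
    (hn : x ∉ NCs u K (EE d u) L) (κ : Fin K) (i : Fin d) (c : ZMod u) :
    Zl L κ i (sh (gen i c) x) = Zl L κ i x := by
  obtain ⟨-, -, -, hmul, -⟩ := hGrp d u hd (by omega)
  have h1 := range_sh hmul i c x
  have h2 := wz_mem hd hu hEdge i x hx
  unfold Zl
  by_contra hne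
  refine hn ⟨wz i (sh (gen i c) x), wz i x, wz_inj hd hu hEdge i _ (free_sh hx _),
    wz_inj hd hu hEdge i x hx, h1.symm, ?_, ?_, ?_⟩
  · rw [h1]; exact h2.1
  · rw [h1]; exact h2.2
  · intro h
    exact hne (congrFun h κ)

include hd hu hEdge in
theorem edges_inj (x : G d u → Bool) (hx : x ∈ freePart (G d u) Bool) :
    Function.Injective (fun i : Fin d => range (wz i x)) := by
  classical
  obtain ⟨h1, h2, -⟩ := hEdge d u hd (by omega) x hx
  have h3 : range (fun i : Fin d => range (wz i x)) = {e | e ∈ EE d u ∧ x ∈ e} := by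
    rw [h1]
    congr 1
    funext i
    exact range_wz i x
  rw [← h3, ← Set.image_univ] at h2
  have h4 : (univ : Set (Fin d)).ncard = d := by rw [ncard_univ]; simp
  have h5 := (Set.ncard_image_iff (toFinite (univ : Set (Fin d)))).1 (h2.trans h4.symm)
  exact injOn_univ.1 h5

include hd hu hEdge in
theorem odd_Z (x : G d u → Bool) (hx : x ∈ freePart (G d u) Bool)
    (hn : x ∉ NCs u K (EE d u) L) (κ : Fin K) :
    {e | e ∈ EE d u ∧ x ∈ e ∧ ∃ w : Fin u → (G d u → Bool), Function.Injective w ∧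
      range w = e ∧ L w κ = true}.ncard = {i : Fin d | Zl L κ i x = true}.ncard := by
  have h1 : {e | e ∈ EE d u ∧ x ∈ e ∧ ∃ w : Fin u → (G d u → Bool), Function.Injective w ∧
      range w = e ∧ L w κ = true} =
      (fun i : Fin d => range (wz i x)) '' {i : Fin d | Zl L κ i x = true} := by
    ext e
    constructor
    · rintro ⟨he, hxe, w, hw, rfl, hL⟩
      obtain ⟨i, h2, h3⟩ := lab hd hu hEdge L x hx hn w hw he hxe
      refine ⟨i, ?_, h2.symm⟩
      show L (wz i x) κ = true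
      rw [← h3]; exact hL
    · rintro ⟨i, hi, rfl⟩
      obtain ⟨h2, h3⟩ := wz_mem hd hu hEdge i x hx
      exact ⟨h2, h3, wz i x, wz_inj hd hu hEdge i x hx, rfl, hi⟩
  rw [h1, ncard_image_of_injective _ (edges_inj hd hu hEdge x hx)]

end free

/-- preimages under maps with a given law -/
theorem pre_le {X Y : Type} [MeasurableSpace X] [MeasurableSpace Y] (μ : Measure X)
    [IsProbabilityMeasure μ] (ν : Measure Y) [IsProbabilityMeasure ν] (f : X → Y)
    (hf : Measurable f) (h : μ.map f = ν) (s : Set Y) : μ.real (f ⁻¹' s) ≤ ν.real s := by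
  unfold Measure.real
  apply ENNReal.toReal_mono (measure_ne_top ν s)
  rw [← h]
  exact Measure.le_map_apply hf.aemeasurable s

/-- null sets do not matter -/
theorem real_le_ae {X : Type} [MeasurableSpace X] (μ : Measure X) [IsProbabilityMeasure μ]
    {s t : Set X} (h : ∀ᵐ x ∂μ, x ∈ s → x ∈ t) : μ.real s ≤ μ.real t := by
  unfold Measure.real
  exact ENNReal.toReal_mono (measure_ne_top μ t) (measure_mono_ae h)

theorem m_le (p : ℝ) (hp : p ≤ 1) (h : 1 / 2 < p) : 1 - p ≤ 2 * p * (1 - p) := by nlinarith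

theorem m_le' (p : ℝ) (hp : 0 ≤ p) (h : p ≤ 1 / 2) : p ≤ 2 * p * (1 - p) := by nlinarith

/-- two far labellings: one of them is not nearly trivial -/
theorem spread {X : Type} [MeasurableSpace X] (μ : Measure X) [IsProbabilityMeasure μ]
    (d K : ℕ) (hK : 2 ^ d < K) (Z : Fin K → Fin d → X → Bool) (hZ : ∀ κ i, Measurable (Z κ i))
    (c : ℝ) (hfar : ∀ κ κ', κ ≠ κ' → c ≤ ∑ i, μ.real {x | Z κ i x ≠ Z κ' i x}) :
    ∃ κ, c / 2 ≤ ∑ i, 2 * (μ {x | Z κ i x = true}).toReal *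
      (1 - (μ {x | Z κ i x = true}).toReal) := by
  classical
  let p : Fin K → Fin d → ℝ := fun κ i => (μ {x | Z κ i x = true}).toReal
  let b : Fin K → Fin d → Bool := fun κ i => decide (1 / 2 < p κ i)
  obtain ⟨κ, κ', hne, hb⟩ := Fintype.exists_ne_map_eq_of_card_lt b (by
    rw [Fintype.card_fun, Fintype.card_bool, Fintype.card_fin, Fintype.card_fin]
    exact hK)
  have hp0 : ∀ κ i, 0 ≤ p κ i := fun κ i => ENNReal.toReal_nonneg
  have hp1 : ∀ κ i, p κ i ≤ 1 := fun κ i => measureReal_le_one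
  have hm : ∀ κ i, μ.real {x | Z κ i x ≠ b κ i} ≤ 2 * p κ i * (1 - p κ i) := by
    intro κ i
    by_cases h : 1 / 2 < p κ i
    · have hbt : b κ i = true := decide_eq_true h
      have h1 : {x | Z κ i x ≠ b κ i} = {x | Z κ i x = true}ᶜ := by
        ext x
        simp only [mem_setOf_eq, mem_compl_iff, hbt, ne_eq]
      have h2 : μ.real {x | Z κ i x ≠ b κ i} = 1 - p κ i := by
        have hms : MeasurableSet {x | Z κ i x = true} := hZ κ i (measurableSet_singleton true)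
        rw [h1, probReal_compl_eq_one_sub hms]
        rfl
      rw [h2]
      exact m_le _ (hp1 κ i) h
    · have hbf : b κ i = false := decide_eq_false h
      have h1 : {x | Z κ i x ≠ b κ i} = {x | Z κ i x = true} := by
        ext x
        simp only [mem_setOf_eq, hbf, ne_eq, Bool.not_eq_false]
      have h2 : μ.real {x | Z κ i x ≠ b κ i} = p κ i := by rw [h1]; rfl
      rw [h2]
      exact m_le' _ (hp0 κ i) (not_lt.1 h)
  have h1 : ∀ i, μ.real {x | Z κ i x ≠ Z κ' i x} ≤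
      2 * p κ i * (1 - p κ i) + 2 * p κ' i * (1 - p κ' i) := by
    intro i
    have hsub : {x | Z κ i x ≠ Z κ' i x} ⊆ {x | Z κ i x ≠ b κ i} ∪ {x | Z κ' i x ≠ b κ' i} := by
      intro x hx
      by_contra hcon
      simp only [mem_union, not_or, mem_setOf_eq, not_not] at hcon
      apply hx
      rw [hcon.1, hcon.2, hb]
    have h2 := (measureReal_mono (μ := μ) hsub).trans (measureReal_union_le _ _)
    have h3 := hm κ i
    have h4 := hm κ' i
    linarith
  have h2 := hfar κ κ' hne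
  have h3 := Finset.sum_le_sum (s := Finset.univ) (fun i _ => h1 i)
  rw [Finset.sum_add_distrib] at h3
  by_contra hcon
  push Not at hcon
  have h4 := hcon κ
  have h5 := hcon κ'
  have h6 : ∑ i, 2 * p κ i * (1 - p κ i) < c / 2 := h4
  have h7 : ∑ i, 2 * p κ' i * (1 - p κ' i) < c / 2 := h5
  linarith

theorem gap (hLim : S_LIM) (hBr : S_BRANCH) (hNS : S_NOSP) (hIVT : S_IVT) (hGrp : L_GRP)
    (hEdge : L_EDGE) (hEqui : L_EQUI) (hBig : L_BIG) (d u : ℕ) [NeZero u] (hu : 3 ≤ u)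
    (hud : u ≤ d) :
    ∃ (k r : ℕ) (ε : ℝ), 0 < ε ∧ ∀ (V : Type) [Fintype V] [Nonempty V] (H : Set (Set V)),
      (∀ e ∈ H, e.ncard = u) → ¬ Weak u k r ε (iid (G d u) coin) (EE d u) V H := by
  classical
  have hd : 3 ≤ d := by omega
  haveI := hEqui.1
  haveI := (hGrp d u hd (by omega)).1
  obtain ⟨-, -, -, -, hone⟩ := hGrp d u hd (by omega)
  set P := iid (G d u) coin with hP
  have hfree : ∀ᵐ x ∂P, x ∈ freePart (G d u) Bool := hEqui.2 d u hd (by omega)
  obtain ⟨δ₀, κ₀, hδ₀, hκ₀, hns⟩ := hNS d u hd hu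
  obtain ⟨B, C, hC, hbr⟩ := hBr d u hd hu (κ₀ / 2) (by linarith)
  -- the radius of `B`
  choose ρ hρ using fun g : G d u => radius hone g
  obtain ⟨R, hR⟩ : ∃ R : ℕ, R = ∑ g ∈ B, ρ g := ⟨_, rfl⟩
  have hBR : ∀ g ∈ B, ∀ x ∈ freePart (G d u) Bool, sh g x ∈ ball (EE d u) x R := by
    intro g hg x hx
    refine ball_mono _ _ ?_ (hρ g x hx)
    rw [hR]
    exact Finset.single_le_sum (f := ρ) (fun _ _ => Nat.zero_le _) hg
  obtain ⟨c, hc0, hlim⟩ := hLim d u (2 ^ d + 1) R hu hud (Nat.le_add_left 1 _)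
  obtain ⟨δ, hδdef⟩ : ∃ δ, δ = min δ₀ (c / 4) := ⟨_, rfl⟩
  have hδ : 0 < δ := by rw [hδdef]; exact lt_min hδ₀ (by linarith)
  have hδ1 : δ ≤ δ₀ := by rw [hδdef]; exact min_le_left _ _
  have hδ2 : δ ≤ c / 4 := by rw [hδdef]; exact min_le_right _ _
  obtain ⟨ε₀, hε₀, hns'⟩ := hns δ hδ hδ1
  obtain ⟨ε, hεdef⟩ : ∃ ε, ε = min (c / 4) (min (ε₀ / 2) (κ₀ * δ / (8 * C))) := ⟨_, rfl⟩
  have hε : 0 < ε := by
    rw [hεdef]
    exact lt_min (by linarith) (lt_min (by linarith) (by positivity))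
  have hε1 : ε ≤ c / 4 := by rw [hεdef]; exact min_le_left _ _
  have hε2 : ε ≤ ε₀ / 2 := by rw [hεdef]; exact (min_le_right _ _).trans (min_le_left _ _)
  have hε3 : C * (4 * ε) ≤ κ₀ / 2 * δ := by
    have h1 : ε ≤ κ₀ * δ / (8 * C) := by
      rw [hεdef]; exact (min_le_right _ _).trans (min_le_right _ _)
    rw [le_div_iff₀ (by positivity)] at h1
    linarith
  have hdegall : ∀ r : ℕ, ∀ᵐ x ∂P, ∀ y ∈ ball (EE d u) x r,
      {e | e ∈ EE d u ∧ y ∈ e}.ncard = d := by
    intro r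
    filter_upwards [hfree] with x hx
    have hall : ∀ (r : ℕ) (y : G d u → Bool), y ∈ ball (EE d u) x r →
        y ∈ freePart (G d u) Bool := by
      intro r
      induction r with
      | zero =>
        intro y hy
        have : y = x := hy
        rw [this]; exact hx
      | succ r ih =>
        rintro y ⟨z, hz, h⟩
        have hzf := ih z hz
        rcases h with rfl | ⟨e, he, hze, hye⟩
        · exact hzf
        · obtain ⟨h1, -, -⟩ := hEdge d u hd (by omega) z hzf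
          have h2 : e ∈ {e | e ∈ EE d u ∧ z ∈ e} := ⟨he, hze⟩
          rw [h1] at h2
          obtain ⟨i, rfl⟩ := h2
          obtain ⟨c, rfl⟩ := hye
          exact free_sh hzf _
    intro y hy
    exact (hEdge d u hd (by omega) y (hall r y hy)).2.1
  obtain ⟨k, r, δ', hδ', hmain⟩ := hlim (G d u → Bool) P (EE d u)
    (fun N => by
      obtain ⟨R', hR'⟩ := hBig d u hd (by omega) N
      refine ⟨R', ?_⟩
      filter_upwards [hfree] with x hx
      exact hR' x hx) hdegall ε hε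
  refine ⟨k, r, δ', hδ', ?_⟩
  intro V _ _ H hunif hweak
  obtain ⟨W, L, hW, hL, hnc, hsep, hodd, hfar⟩ := hmain V H hunif hweak
  set N : Set (G d u → Bool) := NCs u (2 ^ d + 1) (EE d u) L with hN
  have hnc' : P.real N ≤ ε := hnc
  let Z : Fin (2 ^ d + 1) → Fin d → (G d u → Bool) → Bool := fun κ i x => Zl L κ i x
  have hZ : ∀ κ i, Measurable (Z κ i) := fun κ i =>
    (measurable_pi_apply κ).comp (hL.comp (meas_wz i))
  -- invariance
  have pinv : ∀ κ, P.real {x | ∃ (i : Fin d) (c : ZMod u), Z κ i (sh (gen i c) x) ≠ Z κ i x} ≤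
      ε := by
    intro κ
    refine (real_le_ae P ?_).trans hnc'
    filter_upwards [hfree] with x hx h
    by_contra hn
    obtain ⟨i, c, h⟩ := h
    exact h (inv_Z hd hu hEdge hGrp L x hx hn κ i c)
  -- parity
  have podd : ∀ κ, P.real {x | x ∉ W ∧ Odd {i : Fin d | Z κ i x = true}.ncard} ≤ 2 * ε := by
    intro κ
    have h1 : P.real {x | x ∉ W ∧ Odd {i : Fin d | Z κ i x = true}.ncard} ≤
        P.real ({x | x ∉ W ∧ Odd {e | e ∈ EE d u ∧ x ∈ e ∧ ∃ w : Fin u → (G d u → Bool),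
            Function.Injective w ∧ range w = e ∧ L w κ = true}.ncard} ∪ N) := by
      apply real_le_ae
      filter_upwards [hfree] with x hx h
      by_cases hn : x ∈ N
      · exact Or.inr hn
      · left
        refine ⟨h.1, ?_⟩
        rw [odd_Z hd hu hEdge L x hx hn κ]
        exact h.2
    have h2 := h1.trans (measureReal_union_le _ _)
    have h3 := hodd κ
    linarith
  -- distance
  have pfar : ∀ κ κ', κ ≠ κ' → c / 2 ≤ ∑ i, P.real {x | Z κ i x ≠ Z κ' i x} := by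
    intro κ κ' hne
    have h1 := hfar κ κ' hne
    have h2 : P.real {x | ∃ w : Fin u → (G d u → Bool), Function.Injective w ∧
        range w ∈ EE d u ∧ x ∈ range w ∧ L w κ ≠ L w κ'} ≤
        P.real (N ∪ ⋃ i : Fin d, {x | Z κ i x ≠ Z κ' i x}) := by
      apply real_le_ae
      filter_upwards [hfree] with x hx h
      by_cases hn : x ∈ N
      · exact Or.inl hn
      · right
        obtain ⟨w, hw, hwE, hxw, hne'⟩ := h
        obtain ⟨i, -, h4⟩ := lab hd hu hEdge L x hx hn w hw hwE hxw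
        rw [mem_iUnion]
        refine ⟨i, ?_⟩
        show L (wz i x) κ ≠ L (wz i x) κ'
        rw [← h4]; exact hne'
    have h3 := h2.trans (measureReal_union_le _ _)
    have h4 : P.real (⋃ i : Fin d, {x | Z κ i x ≠ Z κ' i x}) ≤
        ∑ i, P.real {x | Z κ i x ≠ Z κ' i x} := measureReal_iUnion_fintype_le _
    linarith
  -- separation
  have psep : P.real {x | x ∈ W ∧ ∃ g ∈ B, g ≠ 1 ∧ sh g x ∈ W} ≤ ε := by
    refine (real_le_ae P ?_).trans hsep
    filter_upwards [hfree] with x hx h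
    obtain ⟨h1, g, hg, hg1, h2⟩ := h
    exact ⟨h1, sh g x, hBR g hg x hx, hx g hg1, h2⟩
  obtain ⟨κ, hκ⟩ := spread P d (2 ^ d + 1) (by omega) Z hZ (c / 2) pfar
  obtain ⟨lam, hlam, hl1, hl2, hl3⟩ := hIVT (G d u) coin d (Z κ) (hZ κ) δ hδ.le
    (by
      refine le_trans ?_ hκ
      linarith)
  -- the pair
  have hm1 : Measurable (fun z : G d u → Bool × Bool => fun i => (z i).1) :=
    measurable_pi_lambda _ fun i => measurable_fst.comp (measurable_pi_apply i)
  have hm2 : Measurable (fun z : G d u → Bool × Bool => fun i => (z i).2) :=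
    measurable_pi_lambda _ fun i => measurable_snd.comp (measurable_pi_apply i)
  have hlaw1 : (iid (G d u) lam).map (fun z i => (z i).1) = P := by
    rw [law_map lam Prod.fst measurable_fst, hl1]
  have hlaw2 : (iid (G d u) lam).map (fun z i => (z i).2) = P := by
    rw [law_map lam Prod.snd measurable_snd, hl2]
  set μ2 := iid (G d u) lam with hμ2
  let f1 : (G d u → Bool × Bool) → (G d u → Bool) := fun z i => (z i).1
  let f2 : (G d u → Bool × Bool) → (G d u → Bool) := fun z i => (z i).2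
  let Y : Fin d → (G d u → Bool × Bool) → Bool := fun i z => xor (Z κ i (f1 z)) (Z κ i (f2 z))
  have hY : ∀ i, Measurable (Y i) := fun i =>
    (Measurable.of_discrete (f := fun q : Bool × Bool => xor q.1 q.2)).comp
      (((hZ κ i).comp hm1).prodMk ((hZ κ i).comp hm2))
  let WW : Bool → Set (G d u → Bool × Bool) := fun j => if j = true then f1 ⁻¹' W else f2 ⁻¹' W
  have hWW : ∀ j, MeasurableSet (WW j) := by
    intro j
    cases j
    · exact hm2 hW
    · exact hm1 hW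
  have hsum : ∑ i, μ2.real {z | Y i z = true} = δ := by
    rw [← hl3]
    refine Finset.sum_congr rfl fun i _ => ?_
    unfold Measure.real
    congr 2
    ext z
    simp only [Y, f1, f2, mem_setOf_eq, bne_iff_ne, ne_eq]
  have yinv : μ2.real {z | ∃ (i : Fin d) (c : ZMod u), Y i (sh (gen i c) z) ≠ Y i z} ≤ 2 * ε := by
    have hsub : {z | ∃ (i : Fin d) (c : ZMod u), Y i (sh (gen i c) z) ≠ Y i z} ⊆
        f1 ⁻¹' {x | ∃ (i : Fin d) (c : ZMod u), Z κ i (sh (gen i c) x) ≠ Z κ i x} ∪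
        f2 ⁻¹' {x | ∃ (i : Fin d) (c : ZMod u), Z κ i (sh (gen i c) x) ≠ Z κ i x} := by
      rintro z ⟨i, c, h⟩
      by_contra hcon
      rw [mem_union, not_or] at hcon
      obtain ⟨h1, h2⟩ := hcon
      have h1' : ¬ ∃ (i : Fin d) (c : ZMod u), Z κ i (sh (gen i c) (f1 z)) ≠ Z κ i (f1 z) := h1
      have h2' : ¬ ∃ (i : Fin d) (c : ZMod u), Z κ i (sh (gen i c) (f2 z)) ≠ Z κ i (f2 z) := h2
      push Not at h1' h2'
      apply h
      show xor (Z κ i (sh (gen i c) (f1 z))) (Z κ i (sh (gen i c) (f2 z))) =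
        xor (Z κ i (f1 z)) (Z κ i (f2 z))
      rw [h1' i c, h2' i c]
    have h1 := (measureReal_mono (μ := μ2) hsub).trans (measureReal_union_le _ _)
    have h2 := pre_le μ2 P f1 hm1 hlaw1
      {x | ∃ (i : Fin d) (c : ZMod u), Z κ i (sh (gen i c) x) ≠ Z κ i x}
    have h3 := pre_le μ2 P f2 hm2 hlaw2
      {x | ∃ (i : Fin d) (c : ZMod u), Z κ i (sh (gen i c) x) ≠ Z κ i x}
    have h4 := pinv κ
    linarith
  have yodd : μ2.real {z | (∀ j, z ∉ WW j) ∧ Odd {i : Fin d | Y i z = true}.ncard} ≤ 4 * ε := by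
    have hsub : {z | (∀ j, z ∉ WW j) ∧ Odd {i : Fin d | Y i z = true}.ncard} ⊆
        f1 ⁻¹' {x | x ∉ W ∧ Odd {i : Fin d | Z κ i x = true}.ncard} ∪
        f2 ⁻¹' {x | x ∉ W ∧ Odd {i : Fin d | Z κ i x = true}.ncard} := by
      rintro z ⟨h1, h2⟩
      rcases odd_xor (fun i => Z κ i (f1 z)) (fun i => Z κ i (f2 z)) h2 with h | h
      · exact Or.inl ⟨h1 true, h⟩
      · exact Or.inr ⟨h1 false, h⟩
    have h1 := (measureReal_mono (μ := μ2) hsub).trans (measureReal_union_le _ _)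
    have h2 := pre_le μ2 P f1 hm1 hlaw1 {x | x ∉ W ∧ Odd {i : Fin d | Z κ i x = true}.ncard}
    have h3 := pre_le μ2 P f2 hm2 hlaw2 {x | x ∉ W ∧ Odd {i : Fin d | Z κ i x = true}.ncard}
    have h4 := podd κ
    linarith
  have ysep : ∀ j, μ2.real {z | z ∈ WW j ∧ ∃ g ∈ B, g ≠ 1 ∧ sh g z ∈ WW j} ≤ 4 * ε := by
    intro j
    cases j
    · have h1 : {z | z ∈ WW false ∧ ∃ g ∈ B, g ≠ 1 ∧ sh g z ∈ WW false} =
          f2 ⁻¹' {x | x ∈ W ∧ ∃ g ∈ B, g ≠ 1 ∧ sh g x ∈ W} := rfl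
      rw [h1]
      have h2 := pre_le μ2 P f2 hm2 hlaw2 {x | x ∈ W ∧ ∃ g ∈ B, g ≠ 1 ∧ sh g x ∈ W}
      linarith
    · have h1 : {z | z ∈ WW true ∧ ∃ g ∈ B, g ≠ 1 ∧ sh g z ∈ WW true} =
          f1 ⁻¹' {x | x ∈ W ∧ ∃ g ∈ B, g ≠ 1 ∧ sh g x ∈ W} := rfl
      rw [h1]
      have h2 := pre_le μ2 P f1 hm1 hlaw1 {x | x ∈ W ∧ ∃ g ∈ B, g ≠ 1 ∧ sh g x ∈ W}
      linarith
  have h1 := hbr (Bool × Bool) lam Y WW hY hWW (4 * ε) (by linarith) (yinv.trans (by linarith))
    yodd ysep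
  refine hns' (Bool × Bool) lam Y hY hsum (yinv.trans (by linarith)) ?_
  have h2 : ∑ i, (iid (G d u) lam).real {z | Y i z = true} = δ := hsum
  rw [h2] at h1
  linarith

/-- a local-global limit has no gap -/
theorem not_lg {u k : ℕ} {X : Type} [MeasurableSpace X] (μ : Measure X) (E : Set (Set X))
    (r : ℕ) (ε : ℝ) (hε : 0 < ε)
    (h : ∀ (V : Type) [Fintype V] [Nonempty V] (H : Set (Set V)),
      (∀ e ∈ H, e.ncard = u) → ¬ Weak u k r ε μ E V H) : ¬ LGLimit u μ E := by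
  rintro ⟨D, V, hF, hN, H, hunif, -, hL⟩
  obtain ⟨N, hN'⟩ := hL r k ε hε
  refine h (V N) (H N) (hunif N) ?_
  intro lv le
  exact (hN' N le_rfl).1 lv le

/-- the gap for all `d, u ≥ 3` -/
theorem gap_all (d u : ℕ) [NeZero u] (hd : 3 ≤ d) (hu : 3 ≤ u) :
    ∃ (k r : ℕ) (ε : ℝ), 0 < ε ∧ ∀ (V : Type) [Fintype V] [Nonempty V] (H : Set (Set V)),
      (∀ e ∈ H, e.ncard = u) → ¬ Weak u k r ε (iid (G d u) coin) (EE d u) V H := by
  have hGrp : L_GRP := Pool.Agent.Y721.LG.Grp.grp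
  have hEdge : L_EDGE := Pool.Agent.Y721.LG.Edge.edge hGrp
  have hTr : L_TR := Pool.Agent.Y721.LG.TR.tr
    (Pool.Agent.Y721.LG.AF.af Pool.Agent.W310.LGPerm.perm hGrp) hGrp
  have hAp : S_APPROX := Pool.Agent.W856.FI.approx
  have hEqui : L_EQUI := Pool.Agent.Y721.LG.Equi.equi hGrp
  have hBig : L_BIG := Pool.Agent.Y721.LG.Big.big hGrp
  rcases lt_or_ge d u with h | h
  · -- the earlier case
    obtain ⟨r, ε, hε, hgap⟩ := Pool.Agent.Y721.LG.Asm.gap
      (Pool.Agent.Y721.LG.Lim.lim Pool.Agent.Y721.LG.Code.code) hGrp hEdge hEqui hBig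
      (Pool.Agent.W841.LGIVT.ivt hAp)
      (Pool.Agent.Y721.LG.NoEven.noeven
        (Pool.Agent.Y721.LG.FMd.fmd Pool.Agent.W589.LG.FM.fm) hTr hAp hGrp) d u hd h
    refine ⟨2, r, ε, hε, ?_⟩
    intro V _ _ H hunif hweak
    refine hgap V H hunif ?_
    intro lv
    obtain ⟨lv', le', hm, -, hc⟩ := hweak lv (fun _ => 0)
    exact ⟨fun _ => 0, lv', le', hm, hc⟩
  · exact gap (Lim.lim Code.code) (Branch.branch hGrp) (NoSp.nosp FM.fm hTr hAp hGrp)
      (Ivt.ivt hAp) hGrp hEdge hEqui hBig d u hu h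

theorem final (d u : ℕ) (hd : 3 ≤ d) (hu : 3 ≤ u) :
    ∃ (X : Type) (_ : MeasurableSpace X) (_ : StandardBorelSpace X) (μ : Measure X)
      (_ : IsProbabilityMeasure μ) (E : Set (Set X)),
      IsPmp u μ E ∧ Regular d μ E ∧ Acyclic μ E ∧ ¬ LGLimit u μ E ∧
      ∃ (k r : ℕ) (ε : ℝ), 0 < ε ∧ ∀ (V : Type) [Fintype V] [Nonempty V] (H : Set (Set V)),
        (∀ e ∈ H, e.ncard = u) → ∃ (lv : V → Fin k) (le : (Fin u → V) → Fin k),
          ∀ (lv' : X → Fin k) (le' : (Fin u → X) → Fin k), Measurable lv' → Measurable le' →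
            ¬ Close u k r ε (frac V) H lv le (fun s => μ s) E lv' le' := by
  have : NeZero u := ⟨by omega⟩
  have hGrp : L_GRP := Pool.Agent.Y721.LG.Grp.grp
  have hEdge : L_EDGE := Pool.Agent.Y721.LG.Edge.edge hGrp
  have hEqui : L_EQUI := Pool.Agent.Y721.LG.Equi.equi hGrp
  have := hEqui.1
  have := (hGrp d u hd (by omega)).1
  obtain ⟨k, r, ε, hε, hgap⟩ := gap_all d u hd hu
  refine ⟨G d u → Bool, inferInstance, inferInstance, iid (G d u) coin, inferInstance, EE d u,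
    Pool.Agent.Y721.LG.Pmp.pmp hGrp hEdge d u hd (by omega),
    Pool.Agent.Y721.LG.Asm.reg hEdge hEqui d u hd (by omega),
    Pool.Agent.Y721.LG.Asm.acyc (Pool.Agent.Y721.LG.Acy.acy hGrp hEdge
      (Pool.Agent.Y721.LG.Cyc.cyc hGrp)) hEqui d u hd (by omega),
    not_lg _ _ r ε hε hgap, k, r, ε, hε, ?_⟩
  intro V _ _ H hunif
  by_contra hcon
  push Not at hcon
  refine hgap V H hunif ?_
  intro lv le
  obtain ⟨lv', le', hm, hm', hc⟩ := hcon lv le
  exact ⟨lv', le', hm, hm', hc⟩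

end Pool.Agent.Q35.LG2.Asm
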