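import Pool.Agent.Q35.LG2.Defs
import Pool.Graph.R_seed8.Y721.LG.Ball

/-! Classes of labelled balls with labels on the hyperedges; separated sets. -/

open MeasureTheory Set

namespace Pool.Agent.Q35.LG2.Cls

open Pool.Agent.Q35.LG2 Pool.Agent.W868.FI Pool.Agent.Y721.LG Pool.Agent.Y721.LG.Ball
open Pool.Agent.W868.LG (Adj Conn IsPmp Regular Acyclic ball BallIso Cls Close frac LGLimit
  coin rot act1)
open Pool.Agent.W466.LGLim (dcount)

section iso

variable {u k r : ℕ} {V V' : Type} {E : Set (Set V)} {E' : Set (Set V')} {x : V} {x' : V'}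
  {lv : V → Fin k} {le : (Fin u → V) → Fin k} {lv' : V' → Fin k} {le' : (Fin u → V') → Fin k}

theorem iso_symm (h : BallIso u k r E lv le x E' lv' le' x') :
    BallIso u k r E' lv' le' x' E lv le x := by
  obtain ⟨φ, hb, hx, hE, hl, hle⟩ := h
  haveI : Nonempty V := ⟨x⟩
  set ψ := Function.invFunOn φ (ball E x r) with hψ
  have h1 : ∀ y' ∈ ball E' x' r, ψ y' ∈ ball E x r ∧ φ (ψ y') = y' := by
    intro y' hy'
    have h2 : ∃ y ∈ ball E x r, φ y = y' := hb.surjOn hy'
    exact ⟨Function.invFunOn_mem h2, Function.invFunOn_eq h2⟩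
  have him : ∀ e' : Set V', e' ⊆ ball E' x' r → φ '' (ψ '' e') = e' := by
    intro e' he'
    ext z
    constructor
    · rintro ⟨_, ⟨y, hy, rfl⟩, rfl⟩
      rw [(h1 y (he' hy)).2]; exact hy
    · intro hz
      exact ⟨ψ z, ⟨z, hz, rfl⟩, (h1 z (he' hz)).2⟩
  refine ⟨ψ, ⟨fun y hy => (h1 y hy).1, ?_, ?_⟩, ?_, ?_, ?_, ?_⟩
  · intro y hy z hz hyz
    rw [← (h1 y hy).2, ← (h1 z hz).2, hyz]
  · intro y hy
    refine ⟨φ y, hb.mapsTo hy, ?_⟩
    exact hb.injOn (h1 _ (hb.mapsTo hy)).1 hy (h1 _ (hb.mapsTo hy)).2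
  · have hxb : x ∈ ball E x r := ball_self E x r
    have hxb' : x' ∈ ball E' x' r := ball_self E' x' r
    apply hb.injOn (h1 x' hxb').1 hxb
    rw [(h1 x' hxb').2, hx]
  · intro e' he'
    have hsub : ψ '' e' ⊆ ball E x r := by
      rintro _ ⟨y, hy, rfl⟩
      exact (h1 y (he' hy)).1
    rw [hE _ hsub, him e' he']
  · intro y' hy'
    have := hl _ (h1 y' hy').1
    rw [(h1 y' hy').2] at this
    exact this.symm
  · intro w' hw' hr' hE'
    have hcomp : φ ∘ (ψ ∘ w') = w' := by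
      funext j
      exact (h1 _ (hr' ⟨j, rfl⟩)).2
    have hr : range (ψ ∘ w') ⊆ ball E x r := by
      rintro _ ⟨j, rfl⟩
      exact (h1 _ (hr' ⟨j, rfl⟩)).1
    have hinj : Function.Injective (ψ ∘ w') := by
      intro a b hab
      apply hw'
      have : φ ((ψ ∘ w') a) = φ ((ψ ∘ w') b) := by rw [hab]
      have e1 := congrFun hcomp a
      have e2 := congrFun hcomp b
      simp only [Function.comp_apply] at e1 e2 this
      rw [← e1, ← e2, this]
    have hE1 : range (ψ ∘ w') ∈ E := by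
      rw [hE _ hr, ← range_comp, hcomp]
      exact hE'
    have := hle _ hinj hr hE1
    rw [hcomp] at this
    exact this.symm

end iso

theorem inv_of {u k r : ℕ} (C : Cls u k)
    (h : ∀ (V V' : Type) (E : Set (Set V)) (E' : Set (Set V')) (lv : V → Fin k)
      (lv' : V' → Fin k) (le : (Fin u → V) → Fin k) (le' : (Fin u → V') → Fin k) (x : V) (x' : V'),
      BallIso u k r E lv le x E' lv' le' x' → C V E lv le x → C V' E' lv' le' x') : C.Inv r :=
  fun V V' E E' lv lv' le le' x x' hi =>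
    ⟨h V V' E E' lv lv' le le' x x' hi, h V' V E' E lv' lv le' le x' x (iso_symm hi)⟩

/-- two orderings of a hyperedge at the root have different labels -/
def NC (u k : ℕ) : Cls u k := fun V E _ le x => ∃ w w' : Fin u → V, Function.Injective w ∧
  Function.Injective w' ∧ range w' = range w ∧ range w ∈ E ∧ x ∈ range w ∧ le w ≠ le w'

/-- the root has not a label in `J` and an odd number of hyperedges with label in `Q` -/
def OD (u k : ℕ) (J Q : Set (Fin k)) : Cls u k := fun V E lv le x => lv x ∉ J ∧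
  Odd {e | e ∈ E ∧ x ∈ e ∧ ∃ w : Fin u → V, Function.Injective w ∧ range w = e ∧
    le w ∈ Q}.ncard

/-- two near vertices with labels in `J` -/
def SE (u k : ℕ) (J : Set (Fin k)) (R : ℕ) : Cls u k := fun _ E lv _ x =>
  lv x ∈ J ∧ ∃ y ∈ ball E x R, y ≠ x ∧ lv y ∈ J

/-- a hyperedge at the root with label in `Q` -/
def DF (u k : ℕ) (Q : Set (Fin k)) : Cls u k := fun V E _ le x => ∃ w : Fin u → V,
  Function.Injective w ∧ range w ∈ E ∧ x ∈ range w ∧ le w ∈ Q

/-- some vertex near the root has not the degree `d` -/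
def BD (u k d s : ℕ) : Cls u k :=
  fun _ E _ _ x => ¬ ∀ y ∈ ball E x s, {e | e ∈ E ∧ y ∈ e}.ncard = d

theorem sub1 {V : Type} {E : Set (Set V)} {x : V} {e : Set V} {r : ℕ} (hr : 1 ≤ r) (he : e ∈ E)
    (hx : x ∈ e) : e ⊆ ball E x r := by
  have h1 : e ⊆ ball E x (0 + 1) := sub_ball (r := 0) he hx (ball_self E x 0)
  exact h1.trans (ball_mono E x (by omega))

theorem inj_comp {u : ℕ} {V V' : Type} {s : Set V} {φ : V → V'} (hφ : InjOn φ s)
    {w : Fin u → V} (hw : Function.Injective w) (hr : range w ⊆ s) :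
    Function.Injective (φ ∘ w) := by
  intro a b hab
  exact hw (hφ (hr ⟨a, rfl⟩) (hr ⟨b, rfl⟩) hab)

theorem NC_inv (u k r : ℕ) (hr : 1 ≤ r) : (NC u k).Inv r := by
  apply inv_of
  rintro V V' E E' lv lv' le le' x x' ⟨φ, hb, hx, hE, hl, hle⟩ ⟨w, w', hw, hw', hww, hwE, hxw, hne⟩
  have hs : range w ⊆ ball E x r := sub1 hr hwE hxw
  have hs' : range w' ⊆ ball E x r := by rw [hww]; exact hs
  refine ⟨φ ∘ w, φ ∘ w', inj_comp hb.injOn hw hs, inj_comp hb.injOn hw' hs', ?_, ?_, ?_, ?_⟩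
  · rw [range_comp, range_comp, hww]
  · rw [range_comp, ← hE _ hs]; exact hwE
  · rw [range_comp]; exact ⟨x, hxw, hx⟩
  · rw [hle w hw hs hwE, hle w' hw' hs' (by rw [hww]; exact hwE)]
    exact hne

theorem SE_inv (u k : ℕ) (J : Set (Fin k)) (R r : ℕ) (hr : R ≤ r) : (SE u k J R).Inv r := by
  apply inv_of
  rintro V V' E E' lv lv' le le' x x' ⟨φ, hb, hx, hE, hl, hle⟩ ⟨h1, y, hy, hyx, hyJ⟩
  have hxr : x ∈ ball E x r := ball_self E x r
  have hyr : y ∈ ball E x r := ball_mono E x hr hy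
  refine ⟨?_, φ y, map_ball hx hE R hr y hy, ?_, ?_⟩
  · rw [← hx, hl x hxr]; exact h1
  · intro h
    rw [← hx] at h
    exact hyx (hb.injOn hyr hxr h)
  · rw [hl y hyr]; exact hyJ

theorem DF_inv (u k : ℕ) (Q : Set (Fin k)) (r : ℕ) (hr : 1 ≤ r) : (DF u k Q).Inv r := by
  apply inv_of
  rintro V V' E E' lv lv' le le' x x' ⟨φ, hb, hx, hE, hl, hle⟩ ⟨w, hw, hwE, hxw, hQ⟩
  have hs : range w ⊆ ball E x r := sub1 hr hwE hxw
  refine ⟨φ ∘ w, inj_comp hb.injOn hw hs, ?_, ?_, ?_⟩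
  · rw [range_comp, ← hE _ hs]; exact hwE
  · rw [range_comp]; exact ⟨x, hxw, hx⟩
  · rw [hle w hw hs hwE]; exact hQ

theorem OD_inv (u k : ℕ) (J Q : Set (Fin k)) (r : ℕ) (hr : 1 ≤ r) : (OD u k J Q).Inv r := by
  apply inv_of
  rintro V V' E E' lv lv' le le' x x' hiso ⟨h1, h2⟩
  have hsym := iso_symm hiso
  obtain ⟨φ, hb, hx, hE, hl, hle⟩ := hiso
  have hxr : x ∈ ball E x r := ball_self E x r
  have hxr' : x' ∈ ball E' x' r := ball_self E' x' r
  refine ⟨by rw [← hx, hl x hxr]; exact h1, ?_⟩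
  have himg : {e' | e' ∈ E' ∧ x' ∈ e' ∧ ∃ w : Fin u → V', Function.Injective w ∧ range w = e' ∧
      le' w ∈ Q} = (fun e => φ '' e) '' {e | e ∈ E ∧ x ∈ e ∧ ∃ w : Fin u → V,
        Function.Injective w ∧ range w = e ∧ le w ∈ Q} := by
    ext e'
    constructor
    · rintro ⟨h3, h4, w', hw', hwe, hQ⟩
      have hs' : range w' ⊆ ball E' x' r := by rw [hwe]; exact sub1 hr h3 h4
      choose w hw1 hw2 using fun j => hb.surjOn (hs' ⟨j, rfl⟩)
      have hcomp : φ ∘ w = w' := funext hw2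
      have hs : range w ⊆ ball E x r := by
        rintro _ ⟨j, rfl⟩
        exact hw1 j
      have hwi : Function.Injective w := by
        intro a b hab
        apply hw'
        rw [← hw2 a, ← hw2 b, hab]
      have hr1 : φ '' range w = e' := by rw [← range_comp, hcomp, hwe]
      have hwE : range w ∈ E := by rw [hE _ hs, hr1]; exact h3
      refine ⟨range w, ⟨hwE, ?_, w, hwi, rfl, ?_⟩, hr1⟩
      · have : x' ∈ φ '' range w := by rw [hr1]; exact h4
        obtain ⟨y, hy, hyx⟩ := this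
        rw [← hx] at hyx
        rwa [hb.injOn (hs hy) hxr hyx] at hy
      · have := hle w hwi hs hwE
        rw [hcomp] at this
        rw [← this]; exact hQ
    · rintro ⟨e, ⟨h3, h4, w, hw, hwe, hQ⟩, rfl⟩
      have hs : range w ⊆ ball E x r := by rw [hwe]; exact sub1 hr h3 h4
      refine ⟨(hE e (sub1 hr h3 h4)).1 h3, ⟨x, h4, hx⟩, φ ∘ w, inj_comp hb.injOn hw hs, ?_, ?_⟩
      · rw [range_comp, hwe]
      · rw [hle w hw hs (by rw [hwe]; exact h3)]; exact hQ
  have hinj : InjOn (fun e => φ '' e) {e | e ∈ E ∧ x ∈ e ∧ ∃ w : Fin u → V,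
      Function.Injective w ∧ range w = e ∧ le w ∈ Q} := by
    rintro e1 ⟨h3, h3', -⟩ e2 ⟨h4, h4', -⟩ h12
    exact (hb.injOn.image_eq_image_iff (sub1 hr h3 h3') (sub1 hr h4 h4')).1 h12
  rw [himg, ncard_image_of_injOn hinj]
  exact h2

theorem BD_inv (u k d s r : ℕ) (hr : s + 1 ≤ r) : (BD u k d s).Inv r := by
  apply inv_of
  rintro V V' E E' lv lv' le le' x x' ⟨φ, hb, hx, hE, -, -⟩ h hcon
  apply h
  intro y hy
  rw [← hcon (φ y) (map_ball hx hE s (by omega) y hy)]
  have hyr : y ∈ ball E x r := ball_mono E x (by omega) hy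
  have hsub : ∀ e, e ∈ E → y ∈ e → e ⊆ ball E x r := fun e he hye =>
    (sub_ball he hye hy).trans (ball_mono E x hr)
  have himg : {e' | e' ∈ E' ∧ φ y ∈ e'} = (fun e => φ '' e) '' {e | e ∈ E ∧ y ∈ e} := by
    ext e'
    constructor
    · rintro ⟨h1, h2⟩
      have h3 : e' ⊆ ball E' x' r :=
        (sub_ball h1 h2 (map_ball hx hE s (by omega) y hy)).trans (ball_mono E' x' hr)
      obtain ⟨e, he, hes, rfl⟩ := back hb hE h1 h3
      obtain ⟨w, hw, hwy⟩ := h2
      have : w = y := hb.injOn (hes hw) hyr hwy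
      subst this
      exact ⟨e, ⟨he, hw⟩, rfl⟩
    · rintro ⟨e, ⟨he, hye⟩, rfl⟩
      exact ⟨(hE e (hsub e he hye)).1 he, ⟨y, hye, rfl⟩⟩
  have hinj : InjOn (fun e => φ '' e) {e | e ∈ E ∧ y ∈ e} := by
    rintro e1 ⟨h1, h1'⟩ e2 ⟨h2, h2'⟩ h12
    exact (hb.injOn.image_eq_image_iff (hsub e1 h1 h1') (hsub e2 h2 h2')).1 h12
  rw [himg, ncard_image_of_injOn hinj]

/-! ### Separated sets -/

theorem ball_symm {V : Type} (E : Set (Set V)) : ∀ (r : ℕ) (x y : V), y ∈ ball E x r →
    x ∈ ball E y r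
  | 0, x, y, h => by
    have : y = x := h
    rw [this]; exact ball_self E x 0
  | r + 1, x, y, h => by
    obtain ⟨z, hz, h⟩ := h
    have h1 := ball_symm E r x z hz
    have h2 : z ∈ ball E y 1 := by
      refine ⟨y, ball_self E y 0, ?_⟩
      rcases h with h | ⟨e, he, hze, hye⟩
      · exact Or.inl h.symm
      · exact Or.inr ⟨e, he, hye, hze⟩
    have h3 := ball_trans E y z 1 h2 r x h1
    rwa [add_comm] at h3

section count

variable {V : Type} [Fintype V] (H : Set (Set V)) (u d : ℕ)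

theorem ball_card (hunif : ∀ e ∈ H, e.ncard = u) (x : V) (R : ℕ)
    (hx : ∀ y ∈ ball H x R, {e | e ∈ H ∧ y ∈ e}.ncard = d) :
    ∀ s ≤ R, (ball H x s).ncard ≤ (1 + d * u) ^ s := by
  classical
  intro s
  induction s with
  | zero =>
    intro _
    have : ball H x 0 = {x} := rfl
    rw [this, ncard_singleton, pow_zero]
  | succ s ih =>
    intro hs
    have h1 := ih (by omega)
    have hsub : ball H x (s + 1) ⊆ ⋃ z ∈ (ball H x s).toFinset,
        ({z} ∪ ⋃ e ∈ ({e | e ∈ H ∧ z ∈ e} : Set (Set V)).toFinset, e) := by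
      rintro y ⟨z, hz, h⟩
      simp only [mem_iUnion, exists_prop, Set.mem_toFinset]
      refine ⟨z, hz, ?_⟩
      rcases h with h | ⟨e, he, hze, hye⟩
      · exact Or.inl h
      · right
        simp only [mem_iUnion, exists_prop, Set.mem_toFinset]
        exact ⟨e, ⟨he, hze⟩, hye⟩
    refine (ncard_le_ncard hsub (toFinite _)).trans ((Finset.set_ncard_biUnion_le _ _).trans ?_)
    have h2 : ∀ z ∈ (ball H x s).toFinset,
        ({z} ∪ ⋃ e ∈ ({e | e ∈ H ∧ z ∈ e} : Set (Set V)).toFinset, e).ncard ≤ 1 + d * u := by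
      intro z hz
      have hz' : z ∈ ball H x s := by simpa using hz
      refine (ncard_union_le _ _).trans ?_
      rw [ncard_singleton]
      apply Nat.add_le_add_left
      refine (Finset.set_ncard_biUnion_le _ _).trans ?_
      have h3 : ∀ e ∈ ({e | e ∈ H ∧ z ∈ e} : Set (Set V)).toFinset, e.ncard ≤ u := by
        intro e he
        have he' : e ∈ H ∧ z ∈ e := by simpa using he
        exact (hunif e he'.1).le
      refine (Finset.sum_le_sum h3).trans (le_of_eq ?_)
      rw [Finset.sum_const, smul_eq_mul, ← hx z (ball_mono H x (by omega) hz'),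
        ← ncard_coe_finset, coe_toFinset]
    refine (Finset.sum_le_sum h2).trans ?_
    rw [Finset.sum_const, smul_eq_mul, ← ncard_coe_finset, coe_toFinset, pow_succ]
    exact Nat.mul_le_mul_right _ h1

theorem separated (hunif : ∀ e ∈ H, e.ncard = u) (R : ℕ) (good : Set V)
    (hg : ∀ x ∈ good, ∀ y ∈ ball H x R, {e | e ∈ H ∧ y ∈ e}.ncard = d) :
    ∃ W : Set V, W ⊆ good ∧ (∀ x ∈ W, ∀ y ∈ W, y ∈ ball H x R → y = x) ∧
      good.ncard ≤ W.ncard * (1 + d * u) ^ R := by
  classical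
  let P : Set (Set V) := {W | W ⊆ good ∧ ∀ x ∈ W, ∀ y ∈ W, y ∈ ball H x R → y = x}
  have hne : P.Nonempty := ⟨∅, empty_subset _, fun x hx => absurd hx (notMem_empty x)⟩
  obtain ⟨W, hW, hmax⟩ := Set.exists_max_image P (fun W => W.ncard) (toFinite P) hne
  refine ⟨W, hW.1, hW.2, ?_⟩
  have hcov : good ⊆ ⋃ w ∈ W.toFinset, ball H w R := by
    intro x hx
    simp only [mem_iUnion, exists_prop, Set.mem_toFinset]
    by_contra hcon
    push Not at hcon
    have hxW : x ∉ W := fun h => hcon x h (ball_self H x R)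
    have hins : insert x W ∈ P := by
      refine ⟨insert_subset hx hW.1, ?_⟩
      intro a ha b hb hab
      rcases mem_insert_iff.1 ha with ha1 | ha1
      · rcases mem_insert_iff.1 hb with hb1 | hb1
        · rw [ha1, hb1]
        · rw [ha1] at hab
          exact absurd (ball_symm H R _ _ hab) (hcon b hb1)
      · rcases mem_insert_iff.1 hb with hb1 | hb1
        · rw [hb1] at hab
          exact absurd hab (hcon a ha1)
        · exact hW.2 a ha1 b hb1 hab
    have h1 := hmax _ hins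
    simp only [ncard_insert_of_notMem hxW (toFinite W)] at h1
    omega
  refine (ncard_le_ncard hcov (toFinite _)).trans ((Finset.set_ncard_biUnion_le _ _).trans ?_)
  have h2 : ∀ w ∈ W.toFinset, (ball H w R).ncard ≤ (1 + d * u) ^ R := by
    intro w hw
    have hw' : w ∈ W := by simpa using hw
    exact ball_card H u d hunif w R (hg w (hW.1 hw')) R le_rfl
  refine (Finset.sum_le_sum h2).trans (le_of_eq ?_)
  rw [Finset.sum_const, smul_eq_mul, ← ncard_coe_finset, coe_toFinset]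

theorem cover (S : Set (Set V)) (P : Set V) (hP : ∀ v ∈ P, {e | e ∈ H ∧ v ∈ e}.ncard = d)
    (hS : ∀ e ∈ S, e ∈ H ∧ ∃ v ∈ P, v ∈ e) : S.ncard ≤ d * P.ncard := by
  classical
  have hsub : S ⊆ ⋃ v ∈ P.toFinset, {e | e ∈ H ∧ v ∈ e} := by
    intro e he
    obtain ⟨h1, v, hv, hve⟩ := hS e he
    simp only [mem_iUnion, exists_prop, Set.mem_toFinset]
    exact ⟨v, hv, h1, hve⟩
  refine (ncard_le_ncard hsub (toFinite _)).trans ((Finset.set_ncard_biUnion_le _ _).trans ?_)
  have h2 : ∀ v ∈ P.toFinset, {e | e ∈ H ∧ v ∈ e}.ncard ≤ d := by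
    intro v hv
    have hv' : v ∈ P := by simpa using hv
    exact (hP v hv').le
  refine (Finset.sum_le_sum h2).trans (le_of_eq ?_)
  rw [Finset.sum_const, smul_eq_mul, ← ncard_coe_finset, coe_toFinset, mul_comm]

theorem many_edges (hunif : ∀ e ∈ H, e.ncard = u) (hu : 1 ≤ u) (hud : u ≤ d) (good : Set V)
    (hg : ∀ v ∈ good, {e | e ∈ H ∧ v ∈ e}.ncard = d) :
    good.ncard ≤ {e | e ∈ H ∧ ∃ v ∈ e, v ∈ good}.ncard := by
  classical
  set F : Set (Set V) := {e | e ∈ H ∧ ∃ v ∈ e, v ∈ good} with hF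
  have h1 : ∑ x : V, {e | e ∈ F ∧ x ∈ e}.ncard = u * F.ncard :=
    dcount F u (fun e he => hunif e he.1)
  have h2 : ∑ x ∈ good.toFinset, d ≤ ∑ x : V, {e | e ∈ F ∧ x ∈ e}.ncard := by
    calc ∑ x ∈ good.toFinset, d ≤ ∑ x ∈ good.toFinset, {e | e ∈ F ∧ x ∈ e}.ncard := by
          apply Finset.sum_le_sum
          intro x hx
          have hx' : x ∈ good := by simpa using hx
          rw [← hg x hx']
          exact ncard_le_ncard (fun e he => ⟨⟨he.1, x, he.2, hx'⟩, he.2⟩) (toFinite _)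
      _ ≤ _ := Finset.sum_le_sum_of_subset (Finset.subset_univ _)
  rw [h1, Finset.sum_const, smul_eq_mul, ← ncard_coe_finset, coe_toFinset] at h2
  have h3 : u * good.ncard ≤ u * F.ncard := by
    calc u * good.ncard ≤ d * good.ncard := Nat.mul_le_mul_right _ hud
      _ = good.ncard * d := mul_comm _ _
      _ ≤ _ := h2
  exact Nat.le_of_mul_le_mul_left h3 (by omega)

theorem ordering {e : Set V} (he : e.ncard = u) :
    ∃ w : Fin u → V, Function.Injective w ∧ range w = e := by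
  have h1 : Nat.card e = u := by rw [Nat.card_coe_set_eq]; exact he
  let f := (Finite.equivFinOfCardEq h1).symm
  refine ⟨fun j => (f j).1, Subtype.val_injective.comp f.injective, ?_⟩
  ext v
  constructor
  · rintro ⟨j, rfl⟩
    exact (f j).2
  · intro hv
    exact ⟨f.symm ⟨v, hv⟩, by simp⟩

end count

end Pool.Agent.Q35.LG2.Cls
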