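import Pool.Agent.Q35.LG2.Defs
import Pool.Graph.R_seed8.W32.LGCode

/-! Many parity codewords, pairwise far. -/

namespace Pool.Agent.Q35.LG2.Code

open Pool.Agent.Q35.LG2 Pool.Agent.W868.FI Finset Pool.Agent.W32.LGCode

variable {V : Type} [Fintype V]

open Classical in
/-- the generating function of the weights -/
theorem gen_wt (M : ℝ) : ∑ x : V → ZMod 2, M ^ (Fintype.card V - wt x) = (M + 1) ^ Fintype.card V := by
  have h1 : ∀ x : V → ZMod 2, M ^ (Fintype.card V - wt x) = ∏ v, (if x v = 1 then (1 : ℝ) else M) := by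
    intro x
    rw [Finset.prod_ite, Finset.prod_const_one, one_mul, Finset.prod_const]
    congr 1
    have h2 := Finset.card_filter_add_card_filter_not (s := (univ : Finset V)) (fun v => x v = 1)
    rw [Finset.card_univ] at h2
    have h3 : wt x = (univ.filter (fun v => x v = 1)).card := by unfold wt; congr
    omega
  simp_rw [h1]
  have h4 := (Finset.prod_univ_sum (fun _ : V => (univ : Finset (ZMod 2)))
    (fun (_ : V) (b : ZMod 2) => if b = 1 then (1 : ℝ) else M)).symm
  rw [Fintype.piFinset_univ] at h4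
  rw [h4]
  have h5 : ∀ v : V, ∑ b : ZMod 2, (if b = 1 then (1 : ℝ) else M) = M + 1 := by
    intro v
    rw [show (univ : Finset (ZMod 2)) = {0, 1} from rfl, Finset.sum_pair (by decide)]
    simp
  rw [Finset.prod_congr rfl (fun v _ => h5 v), Finset.prod_const, Finset.card_univ]

open Classical in
/-- few light words -/
theorem light (N M : ℕ) (hN : 1 ≤ N) (hM : 1 ≤ M) :
    ((univ.filter (fun x : V → ZMod 2 => N * wt x < Fintype.card V)).card : ℝ) *
      (M : ℝ) ^ (Fintype.card V) ≤ ((M : ℝ) + 1) ^ Fintype.card V * (M : ℝ) ^ (Fintype.card V / N) := by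
  have hM' : (1 : ℝ) ≤ M := by exact_mod_cast hM
  rw [← gen_wt (V := V) (M : ℝ), Finset.sum_mul, ← nsmul_eq_mul, ← Finset.sum_const]
  refine le_trans (Finset.sum_le_sum (g := fun x : V → ZMod 2 =>
    (M : ℝ) ^ (Fintype.card V - wt x) * (M : ℝ) ^ (Fintype.card V / N)) ?_)
    (Finset.sum_le_sum_of_subset_of_nonneg (Finset.filter_subset _ _)
      (fun x _ _ => by positivity))
  intro x hx
  rw [Finset.mem_filter] at hx
  rw [← pow_add]
  apply pow_le_pow_right₀ hM'
  have h1 : wt x ≤ Fintype.card V / N := by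
    rw [Nat.le_div_iff_mul_le hN, mul_comm]
    exact hx.2.le
  omega

theorem two_pow_ge (n : ℕ) : n ≤ 2 ^ n := Nat.lt_two_pow_self.le

/-- `(1 + 1/M)^{4D} ≤ 2` for `M = 8 D` -/
theorem base_le (D : ℕ) (hD : 1 ≤ D) :
    (((8 * D : ℕ) : ℝ) + 1) ^ (4 * D) ≤ 2 * ((8 * D : ℕ) : ℝ) ^ (4 * D) := by
  have hD' : (1 : ℝ) ≤ D := by exact_mod_cast hD
  have h0 : (0 : ℝ) < ((8 * D : ℕ) : ℝ) := by push_cast; linarith
  have h1 : ((8 * D : ℕ) : ℝ) + 1 = (1 + 1 / ((8 * D : ℕ) : ℝ)) * ((8 * D : ℕ) : ℝ) := by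
    field_simp
  rw [h1, mul_pow]
  apply mul_le_mul_of_nonneg_right _ (by positivity)
  have h2 : (1 + 1 / ((8 * D : ℕ) : ℝ)) ≤ Real.exp (1 / ((8 * D : ℕ) : ℝ)) := by
    have := Real.add_one_le_exp (1 / ((8 * D : ℕ) : ℝ))
    linarith
  have h3 : (1 + 1 / ((8 * D : ℕ) : ℝ)) ^ (4 * D) ≤ Real.exp (1 / ((8 * D : ℕ) : ℝ)) ^ (4 * D) :=
    pow_le_pow_left₀ (by positivity) h2 _
  rw [← Real.exp_nat_mul] at h3
  have h4 : ((4 * D : ℕ) : ℝ) * (1 / ((8 * D : ℕ) : ℝ)) = 1 / 2 := by
    push_cast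
    field_simp
    norm_num
  rw [h4] at h3
  have h5 : Real.exp (1 / 2) ≤ 2 := by
    have h6 : Real.exp (1 / 2) ^ 2 ≤ 2 ^ 2 := by
      rw [← Real.exp_nat_mul]
      have : ((2 : ℕ) : ℝ) * (1 / 2) = 1 := by norm_num
      rw [this]
      have := Real.exp_one_lt_three
      linarith
    exact (pow_le_pow_iff_left₀ (Real.exp_pos _).le (by norm_num) (by norm_num)).1 h6
  exact h3.trans h5

open Classical in
theorem light2 (D K N : ℕ) (hD : 1 ≤ D) (hN : N = 4 * D * (8 * D) + 4 * D * K + 1)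
    (hV : N ≤ Fintype.card V) (h : ℕ) (hh : D * h ≤ (D - 1) * Fintype.card V) :
    K * (univ.filter (fun x : V → ZMod 2 => N * wt x < Fintype.card V)).card * 2 ^ h <
      2 ^ Fintype.card V := by
  set n := Fintype.card V with hn
  set L := (univ.filter (fun x : V → ZMod 2 => N * wt x < n)).card with hL
  set M : ℕ := 8 * D with hMdef
  have hM : 1 ≤ M := by omega
  have hM' : (1 : ℝ) ≤ M := by exact_mod_cast hM
  have hM0 : (0 : ℝ) < M := by linarith
  have h1 := light (V := V) N M (by omega) hM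
  rw [← hn, ← hL] at h1
  -- 4D-th powers
  have h2 : (L : ℝ) ^ (4 * D) ≤ 2 ^ (2 * n) := by
    have h3 : ((L : ℝ) * (M : ℝ) ^ n) ^ (4 * D) ≤
        (((M : ℝ) + 1) ^ n * (M : ℝ) ^ (n / N)) ^ (4 * D) :=
      pow_le_pow_left₀ (by positivity) h1 _
    have h4 : (((M : ℝ) + 1) ^ n * (M : ℝ) ^ (n / N)) ^ (4 * D) ≤
        2 ^ (2 * n) * ((M : ℝ) ^ n) ^ (4 * D) := by
      rw [mul_pow, ← pow_mul, mul_comm n, pow_mul]
      have h5 : (((M : ℝ) + 1) ^ (4 * D)) ^ n ≤ (2 * (M : ℝ) ^ (4 * D)) ^ n :=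
        pow_le_pow_left₀ (by positivity) (base_le D hD) _
      have h6 : ((M : ℝ) ^ (n / N)) ^ (4 * D) ≤ 2 ^ n := by
        rw [← pow_mul, mul_comm, pow_mul]
        have h7 : (M : ℝ) ^ (4 * D) ≤ 2 ^ N := by
          have h8 : M ^ (4 * D) ≤ 2 ^ N := by
            calc M ^ (4 * D) ≤ (2 ^ M) ^ (4 * D) := Nat.pow_le_pow_left (two_pow_ge M) _
              _ = 2 ^ (M * (4 * D)) := by rw [← pow_mul]
              _ ≤ 2 ^ N := by
                apply Nat.pow_le_pow_right (by norm_num)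
                rw [hN, hMdef]
                have : 8 * D * (4 * D) = 4 * D * (8 * D) := by ring
                omega
          exact_mod_cast h8
        calc ((M : ℝ) ^ (4 * D)) ^ (n / N) ≤ (2 ^ N) ^ (n / N) :=
              pow_le_pow_left₀ (by positivity) h7 _
          _ = 2 ^ (N * (n / N)) := by rw [← pow_mul]
          _ ≤ 2 ^ n := pow_le_pow_right₀ (by norm_num) (Nat.mul_div_le _ _)
      calc (((M : ℝ) + 1) ^ (4 * D)) ^ n * ((M : ℝ) ^ (n / N)) ^ (4 * D)
          ≤ (2 * (M : ℝ) ^ (4 * D)) ^ n * 2 ^ n := by gcongr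
        _ = 2 ^ (2 * n) * ((M : ℝ) ^ n) ^ (4 * D) := by
          rw [mul_pow, two_mul n, pow_add, ← pow_mul, ← pow_mul, mul_comm n (4 * D)]
          ring
    rw [mul_pow] at h3
    exact le_of_mul_le_mul_right (h3.trans h4) (by positivity)
  have h2' : L ^ (4 * D) ≤ 2 ^ (2 * n) := by exact_mod_cast h2
  have hK : K ^ (4 * D) ≤ 2 ^ n := by
    calc K ^ (4 * D) ≤ (2 ^ K) ^ (4 * D) := Nat.pow_le_pow_left (two_pow_ge K) _
      _ = 2 ^ (K * (4 * D)) := by rw [← pow_mul]
      _ ≤ 2 ^ n := by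
        apply Nat.pow_le_pow_right (by norm_num)
        have : K * (4 * D) = 4 * D * K := by ring
        omega
  have hh2 : (2 ^ h) ^ (4 * D) ≤ 2 ^ (4 * D * n - 4 * n) := by
    rw [← pow_mul]
    apply Nat.pow_le_pow_right (by norm_num)
    obtain ⟨D', rfl⟩ : ∃ D', D = D' + 1 := ⟨D - 1, by omega⟩
    rw [Nat.add_sub_cancel] at hh
    have e1 : h * (4 * (D' + 1)) = 4 * ((D' + 1) * h) := by ring
    have e2 : 4 * (D' + 1) * n = 4 * (D' * n) + 4 * n := by ring
    omega
  have hn4 : 4 * n ≤ 4 * D * n := Nat.mul_le_mul_right _ (by omega)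
  have hfin : (K * L * 2 ^ h) ^ (4 * D) < (2 ^ n) ^ (4 * D) := by
    have hnpos : 1 ≤ n := by omega
    calc (K * L * 2 ^ h) ^ (4 * D) = K ^ (4 * D) * L ^ (4 * D) * (2 ^ h) ^ (4 * D) := by
          rw [mul_pow, mul_pow]
      _ ≤ 2 ^ n * 2 ^ (2 * n) * 2 ^ (4 * D * n - 4 * n) := by gcongr
      _ = 2 ^ (n + 2 * n + (4 * D * n - 4 * n)) := by rw [← pow_add, ← pow_add]
      _ < 2 ^ (4 * D * n) := Nat.pow_lt_pow_right (by norm_num) (by omega)
      _ = (2 ^ n) ^ (4 * D) := by rw [← pow_mul, mul_comm]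
  exact lt_of_pow_lt_pow_left₀ _ (by positivity) hfin

open Classical in
/-- the kernel of the parity checks -/
noncomputable def ker (H : Set (Set V)) : Finset (V → ZMod 2) :=
  univ.filter (fun x : V → ZMod 2 => phi H x = 0)

theorem mem_ker (H : Set (Set V)) (x : V → ZMod 2) : x ∈ ker H ↔ phi H x = 0 := by
  unfold ker; simp

open Classical in
/-- greedy choice -/
theorem greedy (H : Set (Set V)) (N : ℕ) (K : ℕ) (hpos : 0 < Fintype.card V)
    (h : K * (univ.filter (fun x : V → ZMod 2 => N * wt x < Fintype.card V)).card <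
      (ker H).card) :
    ∃ S : Finset (V → ZMod 2), S.card = K + 1 ∧ (∀ x ∈ S, phi H x = 0) ∧
      ∀ x ∈ S, ∀ y ∈ S, x ≠ y → Fintype.card V ≤ N * wt (x + y) := by
  induction K with
  | zero =>
    have h1 : 0 < (ker H).card := by omega
    obtain ⟨x, hx⟩ := Finset.card_pos.1 h1
    refine ⟨{x}, by simp, ?_, ?_⟩
    · intro y hy
      rw [Finset.mem_singleton] at hy
      subst hy
      exact (mem_ker H _).1 hx
    · intro y hy z hz hyz
      rw [Finset.mem_singleton] at hy hz
      exact absurd (hy.trans hz.symm) hyz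
  | succ K ih =>
    obtain ⟨S, hS1, hS2, hS3⟩ := ih (lt_of_le_of_lt (Nat.mul_le_mul_right _ (Nat.le_succ K)) h)
    set L := univ.filter (fun x : V → ZMod 2 => N * wt x < Fintype.card V) with hL
    set B := S.biUnion (fun x => L.image (fun z => z + x)) with hB
    have hBc : B.card ≤ (K + 1) * L.card := by
      refine Finset.card_biUnion_le.trans ?_
      calc ∑ x ∈ S, (L.image (fun z => z + x)).card ≤ ∑ _x ∈ S, L.card :=
            Finset.sum_le_sum (fun x _ => Finset.card_image_le)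
        _ = (K + 1) * L.card := by rw [Finset.sum_const, hS1, smul_eq_mul]
    obtain ⟨y, hy, hyB⟩ : ∃ y ∈ ker H, y ∉ B := by
      by_contra hcon
      push Not at hcon
      have := Finset.card_le_card (s := ker H) (t := B) hcon
      omega
    have hself : ∀ z : V → ZMod 2, z + z = 0 := fun z => funext fun v => z2add _
    have hfar : ∀ x ∈ S, Fintype.card V ≤ N * wt (x + y) := by
      intro x hx
      by_contra hlt
      push Not at hlt
      apply hyB
      rw [hB, Finset.mem_biUnion]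
      refine ⟨x, hx, Finset.mem_image.2 ⟨x + y, ?_, ?_⟩⟩
      · rw [hL, Finset.mem_filter]
        exact ⟨Finset.mem_univ _, hlt⟩
      · rw [add_comm x y, add_assoc, hself, add_zero]
    have hyS : y ∉ S := by
      intro hyS
      have h0 := hfar y hyS
      rw [hself] at h0
      have hw0 : wt (0 : V → ZMod 2) = 0 := by simp [wt]
      rw [hw0, Nat.mul_zero] at h0
      omega
    refine ⟨insert y S, by rw [Finset.card_insert_of_notMem hyS, hS1], ?_, ?_⟩
    · intro x hx
      rcases Finset.mem_insert.1 hx with rfl | hx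
      · exact (mem_ker H _).1 hy
      · exact hS2 x hx
    · intro x hx z hz hxz
      rcases Finset.mem_insert.1 hx with h1 | hx
      · rcases Finset.mem_insert.1 hz with h2 | hz
        · exact absurd (h1.trans h2.symm) hxz
        · rw [h1, add_comm]; exact hfar z hz
      · rcases Finset.mem_insert.1 hz with h2 | hz
        · rw [h2]; exact hfar x hx
        · exact hS3 x hx z hz hxz

theorem kernel (H : Set (Set V)) :
    2 ^ Fintype.card V ≤ (ker H).card * 2 ^ H.ncard := by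
  classical
  have : Fintype H := Fintype.ofFinite _
  have hHc : H.ncard = Fintype.card H := by
    rw [← Nat.card_coe_set_eq, Nat.card_eq_fintype_card]
  rw [hHc]
  have h1 := Finset.card_le_mul_card_image (f := phi H) (univ : Finset (V → ZMod 2)) (ker H).card ?_
  · have h2 : (univ : Finset (V → ZMod 2)).card = 2 ^ Fintype.card V := by
      rw [Finset.card_univ, Fintype.card_fun, ZMod.card]
    have h3 : (Finset.image (phi H) univ).card ≤ 2 ^ Fintype.card H := by
      refine le_trans (Finset.card_le_univ _) ?_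
      rw [Fintype.card_fun, ZMod.card]
    rw [h2] at h1
    exact h1.trans (Nat.mul_le_mul_left _ h3)
  · intro a ha
    obtain ⟨x0, -, hx0⟩ := Finset.mem_image.1 ha
    refine Finset.card_le_card_of_injOn (fun x => x + x0) ?_ ?_
    · intro x hx
      have hx := (Finset.mem_filter.1 (Finset.mem_coe.1 hx)).2
      show x + x0 ∈ ker H
      rw [mem_ker, phi_add, hx, hx0]
      funext e
      exact z2add _
    · intro x _ y _ hxy
      exact add_right_cancel hxy

theorem code : S_CODE := by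
  classical
  intro D K hD
  obtain ⟨N, hN⟩ : ∃ N, N = 4 * D * (8 * D) + 4 * D * K + 1 := ⟨_, rfl⟩
  refine ⟨N, by omega, ?_⟩
  intro V _ H hV hH
  have h1 := light2 (V := V) D K N hD hN hV H.ncard hH
  have h2 := kernel (V := V) H
  have h3 := lt_of_lt_of_le h1 h2
  have h4 := Nat.lt_of_mul_lt_mul_right h3
  obtain ⟨S, hS1, hS2, hS3⟩ := greedy H N K (by omega) h4
  obtain ⟨T, hT1, hT2⟩ := Finset.exists_subset_card_eq (s := S) (n := K) (by omega)
  let e : Fin K ≃ {x // x ∈ T} := (T.equivFinOfCardEq hT2).symm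
  refine ⟨fun k => {v | (e k).1 v = 1}, ?_, ?_⟩
  · intro k f hf
    exact even_iff H _ ⟨f, hf⟩ (congrFun (hS2 _ (hT1 (e k).2)) ⟨f, hf⟩)
  · intro k l hkl
    have hne : (e k).1 ≠ (e l).1 := by
      intro h
      exact hkl (e.injective (Subtype.ext h))
    have h5 := hS3 _ (hT1 (e k).2) _ (hT1 (e l).2) hne
    refine h5.trans (Nat.mul_le_mul_left _ (le_of_eq ?_))
    unfold wt
    rw [← Set.ncard_coe_finset]
    congr 1
    ext v
    simp only [Finset.coe_filter, Finset.mem_univ, true_and, Set.mem_setOf_eq, Pi.add_apply]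
    rcases z2 ((e k).1 v) with h6 | h6 <;> rcases z2 ((e l).1 v) with h7 | h7 <;>
      rw [h6, h7] <;> decide

end Pool.Agent.Q35.LG2.Code
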