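import Pool.Graph.R_seed8.Y721.LG.Defs

/-! Local-global limits of hypergraphs, all degrees `d ≥ u`: statements of the components.
The labels sit on the hyperedges (and one set of vertices is marked). -/

open MeasureTheory Set

namespace Pool.Agent.Q35.LG2

open Pool.Agent.W868.FI Pool.Agent.Y721.LG
open Pool.Agent.W868.LG (Adj Conn IsPmp Regular Acyclic ball BallIso Cls Close frac LGLimit
  coin rot act1)

/-- (1) many parity codewords, pairwise far -/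
def S_CODE : Prop :=
  ∀ (D K : ℕ), 1 ≤ D → ∃ (N : ℕ), 1 ≤ N ∧ ∀ (V : Type) [Fintype V] (H : Set (Set V)),
    N ≤ Fintype.card V → D * H.ncard ≤ (D - 1) * Fintype.card V →
    ∃ x : Fin K → Set V, (∀ k, ∀ e ∈ H, Even (e ∩ x k).ncard) ∧
      ∀ k l, k ≠ l → Fintype.card V ≤ N * {v | ¬ (v ∈ x k ↔ v ∈ x l)}.ncard

/-- vertices covered an odd number of times -/
def ov {m d u : ℕ} (p : Fin d → Equiv.Perm (Fin m × ZMod u)) (A : Finset (Fin d × Fin m)) :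
    Set (Fin m × ZMod u) :=
  {v | Odd {i : Fin d | (i, ((p i).symm v).1) ∈ A}.ncard}

/-- (2) first moment estimate for sets of blocks of `d` random partitions -/
def S_FM : Prop :=
  ∀ (d u : ℕ) [NeZero u], 1 ≤ d → 3 ≤ u → ∃ δ : ℝ, 0 < δ ∧ ∀ (m a b : ℕ), 1 ≤ a → 10 * b ≤ a →
    (a : ℝ) ≤ δ * m →
    {p : Fin d → Equiv.Perm (Fin m × ZMod u) | ∃ A : Finset (Fin d × Fin m), A.card = a ∧
      (ov p A).ncard ≤ b}.ncard * 2 ^ a ≤
    (Nat.card (Equiv.Perm (Fin m × ZMod u))) ^ d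

/-- (3) no sparse nearly even set of hyperedges as a factor of iid -/
def S_NOSP : Prop :=
  ∀ (d u : ℕ) [NeZero u], 3 ≤ d → 3 ≤ u → ∃ δ₀ κ : ℝ, 0 < δ₀ ∧ 0 < κ ∧
    ∀ δ : ℝ, 0 < δ → δ ≤ δ₀ →
    ∃ ε₀ : ℝ, 0 < ε₀ ∧ ∀ (Lam : Type) [Fintype Lam] [MeasurableSpace Lam]
      [MeasurableSingletonClass Lam] (lam : Measure Lam) [IsProbabilityMeasure lam]
      (Z : Fin d → (G d u → Lam) → Bool), (∀ i, Measurable (Z i)) →
      ∑ i, (iid (G d u) lam).real {x | Z i x = true} = δ →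
      (iid (G d u) lam).real {x | ∃ (i : Fin d) (c : ZMod u), Z i (sh (gen i c) x) ≠ Z i x} ≤ ε₀ →
      (iid (G d u) lam).real {x | Odd {i : Fin d | Z i x = true}.ncard} ≤ κ * δ → False

/-- (4) few odd points when the odd points are far from each other -/
def S_BRANCH : Prop :=
  ∀ (d u : ℕ) [NeZero u], 3 ≤ d → 3 ≤ u → ∀ κ : ℝ, 0 < κ → ∃ (B : Finset (G d u)) (C : ℝ),
    0 < C ∧ ∀ (Lam : Type) [MeasurableSpace Lam] (lam : Measure Lam) [IsProbabilityMeasure lam]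
      (Z : Fin d → (G d u → Lam) → Bool) (W : Bool → Set (G d u → Lam)),
      (∀ i, Measurable (Z i)) → (∀ j, MeasurableSet (W j)) → ∀ ε : ℝ, 0 ≤ ε →
      (iid (G d u) lam).real {x | ∃ (i : Fin d) (c : ZMod u), Z i (sh (gen i c) x) ≠ Z i x} ≤ ε →
      (iid (G d u) lam).real {x | (∀ j, x ∉ W j) ∧ Odd {i : Fin d | Z i x = true}.ncard} ≤ ε →
      (∀ j, (iid (G d u) lam).real {x | x ∈ W j ∧ ∃ g ∈ B, g ≠ 1 ∧ sh g x ∈ W j} ≤ ε) →
      (iid (G d u) lam).real {x | Odd {i : Fin d | Z i x = true}.ncard} ≤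
        κ * ∑ i, (iid (G d u) lam).real {x | Z i x = true} + C * ε

/-- (5) correlated pairs of labels -/
def S_IVT : Prop :=
  ∀ (ι : Type) [Countable ι] (ν : Measure Bool) [IsProbabilityMeasure ν] (d : ℕ)
    (f : Fin d → (ι → Bool) → Bool), (∀ i, Measurable (f i)) → ∀ δ : ℝ, 0 ≤ δ →
    δ ≤ ∑ i, 2 * (iid ι ν {x | f i x = true}).toReal * (1 - (iid ι ν {x | f i x = true}).toReal) →
    ∃ lam : Measure (Bool × Bool), IsProbabilityMeasure lam ∧ lam.map Prod.fst = ν ∧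
      lam.map Prod.snd = ν ∧
      ∑ i, (iid ι lam {z | f i (fun j => (z j).1) ≠ f i (fun j => (z j).2)}).toReal = δ

/-- all labellings of the finite hypergraph `H` with `k` labels have statistics of radius `r`
which are `ε`-approximable by measurable labellings of `X` -/
def Weak (u k r : ℕ) (ε : ℝ) {X : Type} [MeasurableSpace X] (μ : Measure X) (E : Set (Set X))
    (V : Type) [Fintype V] (H : Set (Set V)) : Prop :=
  ∀ (lv : V → Fin k) (le : (Fin u → V) → Fin k), ∃ (lv' : X → Fin k)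
    (le' : (Fin u → X) → Fin k), Measurable lv' ∧ Measurable le' ∧
      Close u k r ε (frac V) H lv le (fun s => μ s) E lv' le'

/-- (6) what a hypergraph without gap satisfies -/
def S_LIM : Prop :=
  ∀ (d u K R : ℕ), 3 ≤ u → u ≤ d → 1 ≤ K → ∃ c : ℝ, 0 < c ∧
    ∀ (X : Type) [MeasurableSpace X] (μ : Measure X) [IsProbabilityMeasure μ]
    (E : Set (Set X)),
    (∀ N : ℕ, ∃ r : ℕ, ∀ᵐ x ∂μ, ∃ f : Fin N → X, Function.Injective f ∧ ∀ i, f i ∈ ball E x r) →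
    (∀ r : ℕ, ∀ᵐ x ∂μ, ∀ y ∈ ball E x r, {e | e ∈ E ∧ y ∈ e}.ncard = d) →
    ∀ ε : ℝ, 0 < ε → ∃ (k r : ℕ) (δ : ℝ), 0 < δ ∧
      ∀ (V : Type) [Fintype V] [Nonempty V] (H : Set (Set V)), (∀ e ∈ H, e.ncard = u) →
        Weak u k r δ μ E V H → ∃ (W : Set X) (L : (Fin u → X) → Fin K → Bool),
          MeasurableSet W ∧ Measurable L ∧
          μ.real {x | ∃ w w' : Fin u → X, Function.Injective w ∧ Function.Injective w' ∧
            range w' = range w ∧ range w ∈ E ∧ x ∈ range w ∧ L w ≠ L w'} ≤ ε ∧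
          μ.real {x | x ∈ W ∧ ∃ y ∈ ball E x R, y ≠ x ∧ y ∈ W} ≤ ε ∧
          (∀ κ, μ.real {x | x ∉ W ∧ Odd {e | e ∈ E ∧ x ∈ e ∧ ∃ w : Fin u → X,
            Function.Injective w ∧ range w = e ∧ L w κ = true}.ncard} ≤ ε) ∧
          (∀ κ κ', κ ≠ κ' → c - ε ≤ μ.real {x | ∃ w : Fin u → X, Function.Injective w ∧
            range w ∈ E ∧ x ∈ range w ∧ L w κ ≠ L w κ'})

end Pool.Agent.Q35.LG2
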