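import Pool.Agent.Q35.LG2.Defs
import Pool.Graph.R_seed8.W310.LGPerm
import Pool.Graph.R_seed8.W589.LG.FM

/-! First moment estimate for sets of blocks of `d` random partitions. -/

namespace Pool.Agent.Q35.LG2.FM

open Pool.Agent.Q35.LG2 Finset
open Pool.Agent.W589.LG.FM (choose_upper desc_le)

section perm

variable {V : Type} [Fintype V] [DecidableEq V]

/-- permutations mapping `S` into `U` -/
theorem perm_le (S U : Finset V) :
    {p : Equiv.Perm V | ∀ v ∈ S, p v ∈ U}.ncard ≤
      U.card.descFactorial S.card * (Fintype.card V - S.card).factorial := by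
  classical
  set k := S.card with hk
  let e : Fin k ≃ {x // x ∈ S} := S.equivFin.symm
  have hsub : {p : Equiv.Perm V | ∀ v ∈ S, p v ∈ U} ⊆
      ⋃ f ∈ (univ : Finset (Fin k ↪ {x // x ∈ U})),
        {p : Equiv.Perm V | ∀ j, p ((e j).1) = (f j).1} := by
    intro p hp
    simp only [Set.mem_iUnion, exists_prop]
    refine ⟨⟨fun j => ⟨p (e j).1, hp _ (e j).2⟩, ?_⟩, mem_univ _, fun j => rfl⟩
    intro i j hij
    have h1 : p (e i).1 = p (e j).1 := congrArg Subtype.val hij
    exact e.injective (Subtype.ext (p.injective h1))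
  refine (Set.ncard_le_ncard hsub (Set.toFinite _)).trans
    ((Finset.set_ncard_biUnion_le _ _).trans ?_)
  have h2 : ∀ f : Fin k ↪ {x // x ∈ U},
      {p : Equiv.Perm V | ∀ j, p ((e j).1) = (f j).1}.ncard = (Fintype.card V - k).factorial :=
    fun f => Pool.Agent.W310.LGPerm.perm V k (fun j => (e j).1) (fun j => (f j).1)
      (Subtype.val_injective.comp e.injective) (Subtype.val_injective.comp f.injective)
  rw [Finset.sum_congr rfl (fun f _ => h2 f), Finset.sum_const, smul_eq_mul, card_univ,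
    Fintype.card_embedding_eq, Fintype.card_fin, Fintype.card_coe]

theorem perm_le' (S U : Finset V) (hU : U.card ≤ Fintype.card V) :
    {p : Equiv.Perm V | ∀ v ∈ S, p v ∈ U}.ncard * Fintype.card V ^ S.card ≤
      (Fintype.card V).factorial * U.card ^ S.card := by
  have h1 := perm_le S U
  have h2 := desc_le 1 (Fintype.card V) U.card hU S.card
  rw [one_mul, one_mul] at h2
  have hS : S.card ≤ Fintype.card V := Finset.card_le_univ S
  calc {p : Equiv.Perm V | ∀ v ∈ S, p v ∈ U}.ncard * Fintype.card V ^ S.card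
      ≤ (U.card.descFactorial S.card * (Fintype.card V - S.card).factorial) *
        Fintype.card V ^ S.card := Nat.mul_le_mul_right _ h1
    _ = (U.card.descFactorial S.card * Fintype.card V ^ S.card) *
        (Fintype.card V - S.card).factorial := by ring
    _ ≤ ((Fintype.card V).descFactorial S.card * U.card ^ S.card) *
        (Fintype.card V - S.card).factorial := Nat.mul_le_mul_right _ h2
    _ = (Fintype.card V).factorial * U.card ^ S.card := by
        rw [← Nat.factorial_mul_descFactorial hS]; ring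

end perm

section comb

variable {d m u : ℕ} [NeZero u]

/-- the points of the blocks of colour `i` -/
def pts (A : Finset (Fin d × Fin m)) (i : Fin d) : Finset (Fin m × ZMod u) :=
  univ.filter (fun q => (i, q.1) ∈ A)

theorem card_pts (A : Finset (Fin d × Fin m)) :
    ∑ i, (pts (u := u) A i).card = u * A.card := by
  classical
  have h1 : ∀ i, (pts (u := u) A i).card = (univ.filter (fun j : Fin m => (i, j) ∈ A)).card * u := by
    intro i
    have : pts (u := u) A i = (univ.filter (fun j : Fin m => (i, j) ∈ A)) ×ˢ (univ : Finset (ZMod u)) := by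
      ext q
      simp [pts]
    rw [this, card_product, card_univ, ZMod.card]
  rw [Finset.sum_congr rfl (fun i _ => h1 i), ← Finset.sum_mul, mul_comm]
  congr 1
  have h2 : A.card = ∑ i, (A.filter (fun q => q.1 = i)).card :=
    Finset.card_eq_sum_card_fiberwise (fun _ _ => mem_coe.2 (mem_univ _))
  rw [h2]
  refine Finset.sum_congr rfl fun i _ => ?_
  refine Finset.card_bij (fun j _ => (i, j)) ?_ ?_ ?_
  · intro j hj
    simpa using hj
  · intro j _ j' _ h
    exact (Prod.mk.inj h).2
  · rintro ⟨i', j⟩ hq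
    simp only [Finset.mem_filter] at hq
    obtain ⟨h3, rfl⟩ := hq
    exact ⟨j, by simpa using h3, rfl⟩

/-- the covered vertices -/
def cov (p : Fin d → Equiv.Perm (Fin m × ZMod u)) (A : Finset (Fin d × Fin m)) :
    Finset (Fin m × ZMod u) :=
  univ.filter (fun v => ∃ i, (i, ((p i).symm v).1) ∈ A)

theorem cov_le (p : Fin d → Equiv.Perm (Fin m × ZMod u)) (A : Finset (Fin d × Fin m)) :
    2 * (cov p A).card ≤ u * A.card + (ov p A).ncard := by
  classical
  have h1 : u * A.card = ∑ v, (univ.filter (fun i : Fin d => (i, ((p i).symm v).1) ∈ A)).card := by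
    rw [← card_pts]
    have h2 : ∀ i, (pts (u := u) A i).card =
        (univ.filter (fun v : Fin m × ZMod u => (i, ((p i).symm v).1) ∈ A)).card := by
      intro i
      refine Finset.card_bij (fun q _ => p i q) ?_ ?_ ?_
      · intro q hq
        simpa [pts] using hq
      · intro q _ q' _ h
        exact (p i).injective h
      · intro v hv
        refine ⟨(p i).symm v, ?_, by simp⟩
        simpa [pts] using hv
    rw [Finset.sum_congr rfl (fun i _ => h2 i)]
    simp only [Finset.card_filter]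
    exact Finset.sum_comm
  have h3 : (ov p A).ncard =
      (univ.filter (fun v => Odd (univ.filter (fun i : Fin d => (i, ((p i).symm v).1) ∈ A)).card)).card := by
    rw [← Set.ncard_coe_finset]
    congr 1
    ext v
    simp only [ov, Finset.coe_filter, Finset.mem_univ, true_and]
    have : {i : Fin d | (i, ((p i).symm v).1) ∈ A} =
        ((univ.filter (fun i : Fin d => (i, ((p i).symm v).1) ∈ A) : Finset (Fin d)) : Set (Fin d)) := by
      ext i; simp
    show Odd {i : Fin d | (i, ((p i).symm v).1) ∈ A}.ncard ↔ _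
    rw [this, Set.ncard_coe_finset]
    rfl
  rw [h1, h3, Finset.card_filter (fun v => Odd _), ← Finset.sum_add_distrib, cov, mul_comm,
    ← smul_eq_mul, ← Finset.sum_const, Finset.sum_filter]
  apply Finset.sum_le_sum
  intro v _
  by_cases hv : ∃ i, (i, ((p i).symm v).1) ∈ A
  · rw [if_pos hv]
    obtain ⟨i, hi⟩ := hv
    have h5 : 0 < (univ.filter (fun i : Fin d => (i, ((p i).symm v).1) ∈ A)).card :=
      Finset.card_pos.2 ⟨i, by simpa using hi⟩
    by_cases ho : Odd (univ.filter (fun i : Fin d => (i, ((p i).symm v).1) ∈ A)).card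
    · rw [if_pos ho]; omega
    · rw [if_neg ho]
      rw [Nat.not_odd_iff_even] at ho
      obtain ⟨k, hk⟩ := ho
      omega
  · rw [if_neg hv]; exact Nat.zero_le _

/-- the permutations whose covered vertices lie in a small set -/
theorem count_one (A : Finset (Fin d × Fin m)) (a b s : ℕ) (hA : A.card = a)
    (hs : (u * a + b) / 2 ≤ s) (hsm : s ≤ m * u) :
    {p : Fin d → Equiv.Perm (Fin m × ZMod u) | (ov p A).ncard ≤ b}.ncard * (m * u) ^ (u * a) ≤
      (m * u).choose s * ((m * u).factorial ^ d * s ^ (u * a)) := by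
  classical
  have hcard : Fintype.card (Fin m × ZMod u) = m * u := by
    rw [Fintype.card_prod, Fintype.card_fin, ZMod.card]
  have hsub : {p : Fin d → Equiv.Perm (Fin m × ZMod u) | (ov p A).ncard ≤ b} ⊆
      ⋃ U ∈ powersetCard s (univ : Finset (Fin m × ZMod u)),
        Set.pi Set.univ (fun i : Fin d => {q : Equiv.Perm (Fin m × ZMod u) |
          ∀ v ∈ pts (u := u) A i, q v ∈ U}) := by
    intro p hp
    have h1 := cov_le p A
    have hp' : (ov p A).ncard ≤ b := hp
    obtain ⟨U, hU1, hU2⟩ := Finset.exists_superset_card_eq (s := cov p A) (n := s)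
      (by rw [hA] at h1; omega) (by rw [hcard]; exact hsm)
    simp only [Set.mem_iUnion, exists_prop]
    refine ⟨U, mem_powersetCard.2 ⟨subset_univ _, hU2⟩, ?_⟩
    intro i _ v hv
    apply hU1
    simp only [cov, Finset.mem_filter, Finset.mem_univ, true_and]
    refine ⟨i, ?_⟩
    rw [Equiv.symm_apply_apply]
    simpa [pts] using hv
  have h2 : {p : Fin d → Equiv.Perm (Fin m × ZMod u) | (ov p A).ncard ≤ b}.ncard ≤
      ∑ U ∈ powersetCard s (univ : Finset (Fin m × ZMod u)),
        ∏ i : Fin d, {q : Equiv.Perm (Fin m × ZMod u) | ∀ v ∈ pts (u := u) A i, q v ∈ U}.ncard := by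
    refine (Set.ncard_le_ncard hsub (Set.toFinite _)).trans
      ((Finset.set_ncard_biUnion_le _ _).trans (le_of_eq ?_))
    refine Finset.sum_congr rfl fun U _ => ?_
    rw [← Nat.card_coe_set_eq, Nat.card_congr (Equiv.Set.univPi _), Nat.card_pi]
    rfl
  have h3 : ∀ U ∈ powersetCard s (univ : Finset (Fin m × ZMod u)),
      (∏ i : Fin d, {q : Equiv.Perm (Fin m × ZMod u) | ∀ v ∈ pts (u := u) A i, q v ∈ U}.ncard) *
        (m * u) ^ (u * a) ≤ (m * u).factorial ^ d * s ^ (u * a) := by
    intro U hU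
    have hUc : U.card = s := (mem_powersetCard.1 hU).2
    rw [← hA, ← card_pts (u := u) A, ← Finset.prod_pow_eq_pow_sum, ← Finset.prod_pow_eq_pow_sum,
      ← Finset.prod_mul_distrib]
    have h4 : (m * u).factorial ^ d = ∏ _i : Fin d, (m * u).factorial := by
      rw [Finset.prod_const, card_univ, Fintype.card_fin]
    rw [h4, ← Finset.prod_mul_distrib]
    apply Finset.prod_le_prod' 
    intro i _
    have h5 := perm_le' (pts (u := u) A i) U (by rw [hcard, hUc]; exact hsm)
    rw [hcard, hUc] at h5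
    exact h5
  calc _ ≤ (∑ U ∈ powersetCard s (univ : Finset (Fin m × ZMod u)),
        ∏ i : Fin d, {q : Equiv.Perm (Fin m × ZMod u) | ∀ v ∈ pts (u := u) A i, q v ∈ U}.ncard) *
          (m * u) ^ (u * a) := Nat.mul_le_mul_right _ h2
    _ ≤ ∑ _U ∈ powersetCard s (univ : Finset (Fin m × ZMod u)),
          (m * u).factorial ^ d * s ^ (u * a) := by
        rw [Finset.sum_mul]
        exact Finset.sum_le_sum h3
    _ = _ := by
        rw [Finset.sum_const, card_powersetCard, card_univ, hcard, smul_eq_mul]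

end comb

theorem numeric (d u m a b s : ℕ) (hd : 1 ≤ d) (hu : 3 ≤ u) (ha : 1 ≤ a) (hb : 10 * b ≤ a)
    (hs : s = (u * a + b) / 2)
    (ham : (a : ℝ) ≤ 1 / (6 * d * 3 ^ u) ^ 3 * m) :
    ((d * m).choose a : ℝ) * (((m * u).choose s : ℝ) * (s : ℝ) ^ (u * a)) * 2 ^ a ≤
      ((m : ℝ) * u) ^ (u * a) := by
  have hd' : (1 : ℝ) ≤ d := by exact_mod_cast hd
  have hu' : (3 : ℝ) ≤ u := by exact_mod_cast hu
  have ha' : (0 : ℝ) < a := by exact_mod_cast ha
  have hua : 3 * a ≤ u * a := Nat.mul_le_mul_right _ hu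
  have hs1 : 1 ≤ s := by omega
  have hs' : (0 : ℝ) < s := by exact_mod_cast hs1
  have hC : (1 : ℝ) ≤ 6 * d * 3 ^ u := by
    have h1 : (1 : ℝ) ≤ 3 ^ u := one_le_pow₀ (by norm_num)
    nlinarith
  have hm' : (0 : ℝ) < m := by
    by_contra hn
    have h0 : (m : ℝ) ≤ 0 := not_lt.1 hn
    have h1 : 1 / (6 * (d : ℝ) * 3 ^ u) ^ 3 * m ≤ 0 :=
      mul_nonpos_of_nonneg_of_nonpos (by positivity) h0
    linarith
  set x : ℝ := (a : ℝ) / m with hx
  have hx0 : 0 < x := by positivity
  have hCx : (6 * (d : ℝ) * 3 ^ u) ^ 3 * x ≤ 1 := by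
    rw [hx, ← mul_div_assoc, div_le_one hm']
    calc (6 * (d : ℝ) * 3 ^ u) ^ 3 * (a : ℝ)
        ≤ (6 * (d : ℝ) * 3 ^ u) ^ 3 * (1 / (6 * (d : ℝ) * 3 ^ u) ^ 3 * (m : ℝ)) :=
          mul_le_mul_of_nonneg_left ham (by positivity)
      _ = (m : ℝ) := by
          rw [← mul_assoc, mul_one_div_cancel (by positivity), one_mul]
  have hx1 : x ≤ 1 := by
    refine le_trans ?_ hCx
    exact le_mul_of_one_le_left hx0.le (one_le_pow₀ hC)
  obtain ⟨e, he⟩ : ∃ e, u * a = s + e := ⟨u * a - s, by omega⟩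
  have he1 : a ≤ e := by omega
  obtain ⟨f, hf⟩ : ∃ f, e = a + f := ⟨e - a, by omega⟩
  have hf3 : a ≤ 3 * f := by omega
  -- first binomial
  have b1 : ((d * m).choose a : ℝ) ≤ (3 * d) ^ a / x ^ a := by
    refine (choose_upper (d * m) a ha).trans (le_of_eq ?_)
    rw [← div_pow, hx]
    congr 1
    push_cast
    field_simp
  -- second binomial
  set n : ℝ := (m : ℝ) * u with hn
  have hn0 : 0 < n := by positivity
  have b2 : ((m * u).choose s : ℝ) * (s : ℝ) ^ (u * a) ≤ 3 ^ (u * a) * n ^ (u * a) * x ^ e := by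
    have h1 : ((m * u).choose s : ℝ) ≤ (3 * n / s) ^ s := by
      refine (choose_upper (m * u) s hs1).trans (le_of_eq ?_)
      rw [hn]; push_cast; ring
    have h2 : (s : ℝ) ≤ n * x := by
      rw [hn, hx]
      have h3 : (m : ℝ) * u * (a / m) = u * a := by field_simp
      rw [h3]
      have : s ≤ u * a := by omega
      exact_mod_cast this
    calc ((m * u).choose s : ℝ) * (s : ℝ) ^ (u * a) ≤ (3 * n / s) ^ s * (s : ℝ) ^ (u * a) := by
          gcongr
      _ = 3 ^ s * n ^ s * (s : ℝ) ^ e := by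
          rw [he, pow_add, div_pow, mul_pow]
          field_simp
      _ ≤ 3 ^ (u * a) * n ^ s * (n * x) ^ e := by
          have h4 : (3 : ℝ) ^ s ≤ 3 ^ (u * a) := pow_le_pow_right₀ (by norm_num) (by omega)
          gcongr
      _ = 3 ^ (u * a) * n ^ (u * a) * x ^ e := by
          rw [he, mul_pow, pow_add n]; ring
  have hcpos : (0 : ℝ) ≤ ((m * u).choose s : ℝ) * (s : ℝ) ^ (u * a) := by positivity
  have key : ((6 * (d : ℝ) * 3 ^ u) ^ a * x ^ f) ≤ 1 := by
    have h8 : ((6 * (d : ℝ) * 3 ^ u) ^ a * x ^ f) ^ 3 ≤ 1 := by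
      calc ((6 * (d : ℝ) * 3 ^ u) ^ a * x ^ f) ^ 3
          = ((6 * (d : ℝ) * 3 ^ u) ^ 3) ^ a * x ^ (3 * f) := by
            rw [mul_pow, ← pow_mul, ← pow_mul, ← pow_mul, mul_comm a 3, mul_comm f 3]
        _ ≤ ((6 * (d : ℝ) * 3 ^ u) ^ 3) ^ a * x ^ a := by
            refine mul_le_mul_of_nonneg_left ?_ (by positivity)
            exact pow_le_pow_of_le_one hx0.le hx1 hf3
        _ = ((6 * (d : ℝ) * 3 ^ u) ^ 3 * x) ^ a := by rw [← mul_pow]
        _ ≤ 1 := pow_le_one₀ (by positivity) hCx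
    exact (pow_le_one_iff_of_nonneg (by positivity) (by norm_num)).1 h8
  calc ((d * m).choose a : ℝ) * (((m * u).choose s : ℝ) * (s : ℝ) ^ (u * a)) * 2 ^ a
      ≤ ((3 * d) ^ a / x ^ a) * (3 ^ (u * a) * n ^ (u * a) * x ^ e) * 2 ^ a := by
        gcongr
    _ = n ^ (u * a) * ((6 * (d : ℝ) * 3 ^ u) ^ a * x ^ f) := by
        rw [hf, pow_add x, pow_mul (3 : ℝ) u a, mul_pow (6 * (d : ℝ)), mul_pow (3 : ℝ) (d : ℝ),
          mul_pow (6 : ℝ) (d : ℝ), show (6 : ℝ) = 3 * 2 by norm_num, mul_pow (3 : ℝ) 2 a]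
        field_simp
    _ ≤ n ^ (u * a) * 1 := mul_le_mul_of_nonneg_left key (by positivity)
    _ = ((m : ℝ) * u) ^ (u * a) := by rw [mul_one]

theorem fm : S_FM := by
  classical
  intro d u _ hd hu
  refine ⟨1 / (6 * d * 3 ^ u) ^ 3, by positivity, ?_⟩
  intro m a b ha hb ham
  obtain ⟨s, hs⟩ : ∃ s, s = (u * a + b) / 2 := ⟨_, rfl⟩
  have hnum := numeric d u m a b s hd hu ha hb hs ham
  have hd' : (1 : ℝ) ≤ d := by exact_mod_cast hd
  have hm : a ≤ m := by
    have h1 : (a : ℝ) ≤ m := by
      refine ham.trans ?_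
      have hC : (1 : ℝ) ≤ 6 * d * 3 ^ u := by
        have h1 : (1 : ℝ) ≤ 3 ^ u := one_le_pow₀ (by norm_num)
        nlinarith
      exact mul_le_of_le_one_left (by positivity)
        ((div_le_one (by positivity)).2 (one_le_pow₀ hC))
    exact_mod_cast h1
  have hua : 3 * a ≤ u * a := Nat.mul_le_mul_right _ hu
  have hsm : s ≤ m * u := by
    have h1 : u * a ≤ m * u := by rw [mul_comm m u]; exact Nat.mul_le_mul_left _ hm
    omega
  have hcard : Fintype.card (Fin m × ZMod u) = m * u := by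
    rw [Fintype.card_prod, Fintype.card_fin, ZMod.card]
  -- the union bound
  have hU : {p : Fin d → Equiv.Perm (Fin m × ZMod u) | ∃ A : Finset (Fin d × Fin m),
      A.card = a ∧ (ov p A).ncard ≤ b}.ncard * (m * u) ^ (u * a) ≤
      (d * m).choose a * ((m * u).choose s * ((m * u).factorial ^ d * s ^ (u * a))) := by
    have hsub : {p : Fin d → Equiv.Perm (Fin m × ZMod u) | ∃ A : Finset (Fin d × Fin m),
        A.card = a ∧ (ov p A).ncard ≤ b} ⊆
        ⋃ A ∈ powersetCard a (univ : Finset (Fin d × Fin m)),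
          {p : Fin d → Equiv.Perm (Fin m × ZMod u) | (ov p A).ncard ≤ b} := by
      rintro p ⟨A, hA, hp⟩
      simp only [Set.mem_iUnion, exists_prop]
      exact ⟨A, mem_powersetCard.2 ⟨subset_univ _, hA⟩, hp⟩
    have h1 := (Set.ncard_le_ncard hsub (Set.toFinite _)).trans
      (Finset.set_ncard_biUnion_le _ _)
    calc _ ≤ (∑ A ∈ powersetCard a (univ : Finset (Fin d × Fin m)),
          {p : Fin d → Equiv.Perm (Fin m × ZMod u) | (ov p A).ncard ≤ b}.ncard) *
            (m * u) ^ (u * a) := Nat.mul_le_mul_right _ h1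
      _ ≤ ∑ _A ∈ powersetCard a (univ : Finset (Fin d × Fin m)),
          (m * u).choose s * ((m * u).factorial ^ d * s ^ (u * a)) := by
          rw [Finset.sum_mul]
          refine Finset.sum_le_sum fun A hA => ?_
          exact count_one A a b s (mem_powersetCard.1 hA).2 hs.ge hsm
      _ = _ := by
          rw [Finset.sum_const, card_powersetCard, card_univ, Fintype.card_prod,
            Fintype.card_fin, Fintype.card_fin, smul_eq_mul]
  rw [Nat.card_eq_fintype_card, Fintype.card_perm, hcard]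
  have hmpos : 0 < m * u := by
    have : 0 < u := by omega
    have : 0 < m := by omega
    positivity
  have hpos : (0 : ℝ) < ((m : ℝ) * u) ^ (u * a) := by
    have : (0 : ℝ) < (m : ℝ) * u := by exact_mod_cast hmpos
    positivity
  have hUR : (({p : Fin d → Equiv.Perm (Fin m × ZMod u) | ∃ A : Finset (Fin d × Fin m),
      A.card = a ∧ (ov p A).ncard ≤ b}.ncard : ℝ)) * ((m : ℝ) * u) ^ (u * a) ≤
      ((d * m).choose a : ℝ) * (((m * u).choose s : ℝ) *
        ((((m * u).factorial : ℝ)) ^ d * (s : ℝ) ^ (u * a))) := by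
    exact_mod_cast hU
  have hfin : (({p : Fin d → Equiv.Perm (Fin m × ZMod u) | ∃ A : Finset (Fin d × Fin m),
      A.card = a ∧ (ov p A).ncard ≤ b}.ncard : ℝ)) * 2 ^ a ≤ (((m * u).factorial : ℝ)) ^ d := by
    refine le_of_mul_le_mul_right ?_ hpos
    calc _ = ((({p : Fin d → Equiv.Perm (Fin m × ZMod u) | ∃ A : Finset (Fin d × Fin m),
          A.card = a ∧ (ov p A).ncard ≤ b}.ncard : ℝ)) * ((m : ℝ) * u) ^ (u * a)) * 2 ^ a := by
          ring
      _ ≤ (((d * m).choose a : ℝ) * (((m * u).choose s : ℝ) *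
          ((((m * u).factorial : ℝ)) ^ d * (s : ℝ) ^ (u * a)))) * 2 ^ a := by gcongr
      _ = (((m * u).factorial : ℝ)) ^ d *
          (((d * m).choose a : ℝ) * (((m * u).choose s : ℝ) * (s : ℝ) ^ (u * a)) * 2 ^ a) := by
          ring
      _ ≤ (((m * u).factorial : ℝ)) ^ d * ((m : ℝ) * u) ^ (u * a) := by gcongr
  exact_mod_cast hfin

end Pool.Agent.Q35.LG2.FM
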