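import Pool.Agent.Q35.LG2.Cls
import Pool.Agent.Q35.LG2.Code
import Pool.Graph.R_seed8.Y721.LG.Lim

/-! What a hypergraph without gap satisfies: far nearly even labellings of the hyperedges. -/

open MeasureTheory Set

namespace Pool.Agent.Q35.LG2.Lim

open Pool.Agent.Q35.LG2 Pool.Agent.W868.FI Pool.Agent.Y721.LG Pool.Agent.Y721.LG.Ball
open Pool.Agent.Q35.LG2.Cls
open Pool.Agent.W868.LG (Adj Conn IsPmp Regular Acyclic ball BallIso Cls Close frac LGLimit
  coin rot act1)
open Pool.Agent.W466.LGLim (dcount frac_eq)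
open Pool.Agent.Y721.LG.Lim (frac_mono)

/-- the codewords in the finite hypergraph -/
theorem words (hcode : S_CODE) (d u K R : ℕ) (hu : 3 ≤ u) (hud : u ≤ d) :
    ∃ N : ℕ, 1 ≤ N ∧ ∀ (V : Type) [Fintype V] (H : Set (Set V)), (∀ e ∈ H, e.ncard = u) →
      N ≤ {x | ∀ y ∈ ball H x R, {e | e ∈ H ∧ y ∈ e}.ncard = d}.ncard →
      ∃ (W : Set V) (X : Fin K → Set (Set V)),
        (∀ x ∈ W, ∀ y ∈ W, y ∈ ball H x R → y = x) ∧
        (∀ κ, ∀ v, (∀ y ∈ ball H v R, {e | e ∈ H ∧ y ∈ e}.ncard = d) → v ∉ W →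
          Even {e | e ∈ H ∧ v ∈ e ∧ e ∈ X κ}.ncard) ∧
        (∀ κ κ', κ ≠ κ' → {x | ∀ y ∈ ball H x R, {e | e ∈ H ∧ y ∈ e}.ncard = d}.ncard ≤
          d * N * {v | ∃ e ∈ H, v ∈ e ∧ ¬ (e ∈ X κ ↔ e ∈ X κ')}.ncard) := by
  classical
  obtain ⟨N, hN, hc⟩ := hcode (d * (1 + d * u) ^ R) K
    (Nat.mul_pos (by omega) (by positivity))
  refine ⟨N, hN, ?_⟩
  intro V _ H hunif hcard
  set good : Set V := {x | ∀ y ∈ ball H x R, {e | e ∈ H ∧ y ∈ e}.ncard = d} with hgood
  have hg0 : ∀ v ∈ good, {e | e ∈ H ∧ v ∈ e}.ncard = d := fun v hv => hv v (ball_self H v R)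
  obtain ⟨W, hW1, hW2, hW3⟩ := separated H u d hunif R good (fun x hx => hx)
  set F : Set (Set V) := {e | e ∈ H ∧ ∃ v ∈ e, v ∈ good} with hF
  have hF1 : good.ncard ≤ F.ncard := many_edges H u d hunif (by omega) hud good hg0
  have hF2 : F.ncard ≤ d * good.ncard := cover H d F good hg0
    (fun e he => ⟨he.1, he.2.choose, he.2.choose_spec.2, he.2.choose_spec.1⟩)
  have hFc : Fintype.card F = F.ncard := by
    rw [← Nat.card_coe_set_eq, Nat.card_eq_fintype_card]
  let star : V → Set F := fun v => {e : F | v ∈ (e : Set V)}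
  let HH : Set (Set F) := star '' (good \ W)
  have hHH : HH.ncard ≤ good.ncard - W.ncard := by
    refine (ncard_image_le (toFinite _)).trans ?_
    rw [ncard_diff hW1 (toFinite W)]
  have hWg : W.ncard ≤ good.ncard := ncard_le_ncard hW1 (toFinite _)
  have hDW : F.ncard ≤ (d * (1 + d * u) ^ R) * W.ncard := by
    calc F.ncard ≤ d * good.ncard := hF2
      _ ≤ d * (W.ncard * (1 + d * u) ^ R) := Nat.mul_le_mul_left _ hW3
      _ = (d * (1 + d * u) ^ R) * W.ncard := by ring
  set D := d * (1 + d * u) ^ R with hD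
  have hineq : D * HH.ncard ≤ (D - 1) * Fintype.card F := by
    rw [hFc, Nat.sub_mul, one_mul]
    have h1 : D * HH.ncard ≤ D * (good.ncard - W.ncard) := Nat.mul_le_mul_left _ hHH
    rw [Nat.mul_sub] at h1
    have h2 : D * good.ncard ≤ D * F.ncard := Nat.mul_le_mul_left _ hF1
    omega
  obtain ⟨x, hx1, hx2⟩ := hc F HH (by rw [hFc]; omega) hineq
  refine ⟨W, fun κ => {e | ∃ h : e ∈ F, (⟨e, h⟩ : F) ∈ x κ}, hW2, ?_, ?_⟩
  · intro κ v hv hvW
    have hv' : v ∈ good := hv
    have h1 := hx1 κ (star v) ⟨v, ⟨hv', hvW⟩, rfl⟩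
    have h2 : {e | e ∈ H ∧ v ∈ e ∧ e ∈ {e | ∃ h : e ∈ F, (⟨e, h⟩ : F) ∈ x κ}} =
        Subtype.val '' (star v ∩ x κ) := by
      ext e
      constructor
      · rintro ⟨-, h3, h4, h5⟩
        exact ⟨⟨e, h4⟩, ⟨h3, h5⟩, rfl⟩
      · rintro ⟨⟨e, he⟩, ⟨h3, h4⟩, rfl⟩
        exact ⟨he.1, h3, he, h4⟩
    rw [h2, ncard_image_of_injective _ Subtype.val_injective]
    exact h1
  · intro κ κ' hne
    have h1 := hx2 κ κ' hne
    rw [hFc] at h1
    set S : Set (Set V) := Subtype.val '' {e : F | ¬ (e ∈ x κ ↔ e ∈ x κ')} with hS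
    have h2 : S.ncard = {e : F | ¬ (e ∈ x κ ↔ e ∈ x κ')}.ncard :=
      ncard_image_of_injective _ Subtype.val_injective
    set P : Set V := {v | ∃ e ∈ H, v ∈ e ∧ ¬ (e ∈ {e | ∃ h : e ∈ F, (⟨e, h⟩ : F) ∈ x κ} ↔
      e ∈ {e | ∃ h : e ∈ F, (⟨e, h⟩ : F) ∈ x κ'})} with hP
    have h3 : S.ncard ≤ d * (P ∩ good).ncard := by
      refine cover H d S (P ∩ good) (fun v hv => hg0 v hv.2) ?_
      rintro _ ⟨⟨e, he⟩, h4, rfl⟩
      obtain ⟨heH, v, hve, hvg⟩ := id he
      refine ⟨heH, v, ⟨⟨e, heH, hve, ?_⟩, hvg⟩, hve⟩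
      intro h5
      apply h4
      constructor
      · intro h6
        obtain ⟨h7, h8⟩ := h5.1 ⟨he, h6⟩
        exact h8
      · intro h6
        obtain ⟨h7, h8⟩ := h5.2 ⟨he, h6⟩
        exact h8
    have h4 : (P ∩ good).ncard ≤ P.ncard := ncard_le_ncard inter_subset_left (toFinite _)
    calc good.ncard ≤ F.ncard := hF1
      _ ≤ N * S.ncard := by rw [h2]; exact h1
      _ ≤ N * (d * P.ncard) :=
          Nat.mul_le_mul_left _ (h3.trans (Nat.mul_le_mul_left _ h4))
      _ = d * N * P.ncard := by ring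

theorem real_of {X : Type} [MeasurableSpace X] {μ : Measure X} [IsProbabilityMeasure μ]
    {s : Set X} {a b : ℝ} (ha : 0 ≤ a) (hb : 0 ≤ b)
    (h : μ s ≤ ENNReal.ofReal a + ENNReal.ofReal b) : μ.real s ≤ a + b := by
  unfold Measure.real
  rw [← ENNReal.ofReal_add ha hb] at h
  exact ENNReal.toReal_le_of_le_ofReal (by positivity) h

theorem real_of' {X : Type} [MeasurableSpace X] {μ : Measure X} [IsProbabilityMeasure μ]
    {s : Set X} {a b : ℝ} (hb : 0 ≤ b)
    (h : ENNReal.ofReal a ≤ μ s + ENNReal.ofReal b) : a - b ≤ μ.real s := by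
  unfold Measure.real
  rw [← ENNReal.ofReal_toReal (measure_ne_top μ s),
    ← ENNReal.ofReal_add ENNReal.toReal_nonneg hb] at h
  have := (ENNReal.ofReal_le_ofReal_iff (by positivity)).1 h
  linarith

theorem lim (hcode : S_CODE) : S_LIM := by
  classical
  intro d u K R hu hud hK
  obtain ⟨N, hN, hwords⟩ := words hcode d u K R hu hud
  have hd0 : (0 : ℝ) < d := by exact_mod_cast (by omega : 0 < d)
  have hN0 : (0 : ℝ) < N := by exact_mod_cast hN
  refine ⟨1 / (2 * (d * N)), by positivity, ?_⟩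
  intro X _ μ _ E hbig hdeg ε hε
  obtain ⟨R0, hR0⟩ := hbig (2 * N)
  let k := Fintype.card (Fin K → Bool)
  let enc : (Fin K → Bool) ≃ Fin k := Fintype.equivFin _
  have hδ : (0 : ℝ) < min (ε / 2) (1 / 2) := lt_min (by linarith) (by norm_num)
  set δ : ℝ := min (ε / 2) (1 / 2) with hδdef
  have hδε : δ ≤ ε / 2 := min_le_left _ _
  have hδ2 : δ ≤ 1 / 2 := min_le_right _ _
  set r := max R0 (R + 1) with hr
  have hrR0 : R0 ≤ r := le_max_left _ _
  have hrR : R + 1 ≤ r := le_max_right _ _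
  refine ⟨k, r, δ, hδ, ?_⟩
  intro V _ _ H hunif hweak
  have hV : (0 : ℝ) < (Fintype.card V : ℝ) := by exact_mod_cast Fintype.card_pos
  -- bad vertices
  have hbadall : ∀ (lv : V → Fin k) (le : (Fin u → V) → Fin k) (lv' : X → Fin k)
      (le' : (Fin u → X) → Fin k),
      Close u k r δ (frac V) H lv le (fun s => μ s) E lv' le' →
      frac V {x | BD u k d R V H lv le x} ≤ ENNReal.ofReal δ := by
    intro lv le lv' le' hc
    have h1 := (hc (BD u k d R) (BD_inv u k d R r hrR)).1
    have h2 : μ {x | BD u k d R X E lv' le' x} = 0 := by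
      have h3 : ∀ᵐ x ∂μ, ¬ BD u k d R X E lv' le' x := by
        filter_upwards [hdeg R] with x hx h
        exact h hx
      have h4 := ae_iff.1 h3
      simpa only [not_not] using h4
    simpa only [h2, zero_add] using h1
  set good : Set V := {x | ∀ y ∈ ball H x R, {e | e ∈ H ∧ y ∈ e}.ncard = d} with hgood
  -- many vertices, many good vertices
  have h0 := hweak (fun _ => enc (fun _ => true)) (fun _ => enc (fun _ => true))
  have hcard : 2 * N ≤ Fintype.card V := by
    obtain ⟨lv', le', -, -, hc⟩ := h0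
    have h1 := (hc (CB u k (2 * N) R0) (inv_mono (CB_inv u k (2 * N) R0) hrR0)).1
    have h2 : μ {x | CB u k (2 * N) R0 X E lv' le' x} = 0 := by
      have h3 : ∀ᵐ x ∂μ, ¬ CB u k (2 * N) R0 X E lv' le' x := by
        filter_upwards [hR0] with x hx h
        exact h hx
      have h4 := ae_iff.1 h3
      simpa only [not_not] using h4
    simp only [h2, zero_add] at h1
    by_contra hlt
    have h5 : {x | CB u k (2 * N) R0 V H (fun _ => enc (fun _ => true))
        (fun _ => enc (fun _ => true)) x} = univ := by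
      ext x
      simp only [mem_setOf_eq, mem_univ, iff_true]
      rintro ⟨f, hf, -⟩
      have := Fintype.card_le_of_injective f hf
      rw [Fintype.card_fin] at this
      exact hlt this
    rw [h5, frac_eq, ncard_univ, Nat.card_eq_fintype_card, div_self hV.ne',
      ENNReal.ofReal_le_ofReal_iff hδ.le] at h1
    linarith
  have hgc : Fintype.card V ≤ 2 * good.ncard := by
    obtain ⟨lv', le', -, -, hc⟩ := h0
    have h1 := hbadall _ _ _ _ hc
    rw [frac_eq, ENNReal.ofReal_le_ofReal_iff hδ.le, div_le_iff₀ hV] at h1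
    have h2 : {x | BD u k d R V H (fun _ => enc (fun _ => true)) (fun _ => enc (fun _ => true)) x} =
        goodᶜ := rfl
    rw [h2] at h1
    have h3 : good.ncard + goodᶜ.ncard = Fintype.card V := by
      rw [ncard_add_ncard_compl, Nat.card_eq_fintype_card]
    have h4 : (goodᶜ.ncard : ℝ) ≤ 1 / 2 * Fintype.card V :=
      h1.trans (mul_le_mul_of_nonneg_right hδ2 hV.le)
    have h5 : 2 * goodᶜ.ncard ≤ Fintype.card V := by
      have : 2 * (goodᶜ.ncard : ℝ) ≤ Fintype.card V := by linarith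
      exact_mod_cast this
    omega
  obtain ⟨W, Xs, hW, heven, hfar⟩ := hwords V H hunif
    (show N ≤ good.ncard by omega)
  -- the labels
  set lv : V → Fin k := fun v => enc (fun _ => decide (v ∈ W)) with hlv
  set le : (Fin u → V) → Fin k := fun w => enc (fun κ => decide (range w ∈ Xs κ)) with hle
  obtain ⟨lv', le', hmv, hme, hc⟩ := hweak lv le
  set J : Set (Fin k) := {enc (fun _ => true)} with hJ
  have hlvJ : ∀ v, lv v ∈ J ↔ v ∈ W := by
    intro v
    rw [hJ, mem_singleton_iff, hlv]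
    constructor
    · intro h
      have h1 := congrFun (enc.injective h) (⟨0, by omega⟩ : Fin K)
      exact of_decide_eq_true h1
    · intro h
      exact congrArg enc (funext fun _ => decide_eq_true h)
  have hbd := hbadall _ _ _ _ hc
  refine ⟨{x | lv' x ∈ J}, fun w => enc.symm (le' w), hmv (Set.toFinite _).measurableSet,
    (Measurable.of_discrete (f := fun j : Fin k => enc.symm j)).comp hme, ?_, ?_, ?_, ?_⟩
  · -- consistency
    have h1 := (hc (NC u k) (NC_inv u k r (by omega))).2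
    have h2 : {x | NC u k V H lv le x} = ∅ := by
      ext x
      simp only [mem_setOf_eq, mem_empty_iff_false, iff_false]
      rintro ⟨w, w', -, -, hww, -, -, hne⟩
      apply hne
      rw [hle]
      simp only [hww]
    have h3 : frac V {x | NC u k V H lv le x} = 0 := by rw [h2]; simp [frac]
    rw [h3] at h1
    have h4 : μ {x | NC u k X E lv' le' x} ≤ ENNReal.ofReal 0 + ENNReal.ofReal δ := by
      rw [ENNReal.ofReal_zero]; exact h1
    have h5 := real_of (le_refl (0 : ℝ)) hδ.le h4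
    refine (measureReal_mono ?_).trans (h5.trans (by linarith))
    rintro x ⟨w, w', hw, hw', hww, hwE, hxw, hne⟩
    exact ⟨w, w', hw, hw', hww, hwE, hxw, fun h => hne (congrArg enc.symm h)⟩
  · -- separation
    have h1 := (hc (SE u k J R) (SE_inv u k J R r (by omega))).2
    have h2 : {x | SE u k J R V H lv le x} = ∅ := by
      ext x
      simp only [mem_setOf_eq, mem_empty_iff_false, iff_false]
      rintro ⟨h3, y, hy, hyx, h4⟩
      exact hyx (hW x ((hlvJ x).1 h3) y ((hlvJ y).1 h4) hy)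
    have h3 : frac V {x | SE u k J R V H lv le x} = 0 := by rw [h2]; simp [frac]
    rw [h3] at h1
    have h4 : μ {x | SE u k J R X E lv' le' x} ≤ ENNReal.ofReal 0 + ENNReal.ofReal δ := by
      rw [ENNReal.ofReal_zero]; exact h1
    have h5 := real_of (le_refl (0 : ℝ)) hδ.le h4
    exact (measureReal_mono (fun x hx => hx)).trans (h5.trans (by linarith))
  · -- parity
    intro κ
    have h1 := (hc (OD u k J {j | enc.symm j κ = true})
      (OD_inv u k J {j | enc.symm j κ = true} r (by omega))).2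
    have h2 : {x | OD u k J {j | enc.symm j κ = true} V H lv le x} ⊆
        {x | BD u k d R V H lv le x} := by
      rintro x ⟨h3, h4⟩ h5
      have h6 := heven κ x h5 (fun h => h3 ((hlvJ x).2 h))
      have h7 : {e | e ∈ H ∧ x ∈ e ∧ ∃ w : Fin u → V, Function.Injective w ∧ range w = e ∧
          le w ∈ {j | enc.symm j κ = true}} = {e | e ∈ H ∧ x ∈ e ∧ e ∈ Xs κ} := by
        ext e
        constructor
        · rintro ⟨he, hxe, w, hw, hwe, hq⟩
          refine ⟨he, hxe, ?_⟩
          have h8 : enc.symm (le w) κ = true := hq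
          rw [hle] at h8
          simp only [Equiv.symm_apply_apply] at h8
          rw [← hwe]
          exact of_decide_eq_true h8
        · rintro ⟨he, hxe, hq⟩
          obtain ⟨w, hw, hwe⟩ := ordering u (hunif e he)
          refine ⟨he, hxe, w, hw, hwe, ?_⟩
          show enc.symm (le w) κ = true
          rw [hle]
          simp only [Equiv.symm_apply_apply]
          rw [hwe]
          exact decide_eq_true hq
      rw [h7] at h4
      exact (Nat.not_even_iff_odd.2 h4) h6
    have h3 : μ {x | OD u k J {j | enc.symm j κ = true} X E lv' le' x} ≤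
        ENNReal.ofReal δ + ENNReal.ofReal δ :=
      h1.trans (add_le_add ((frac_mono V h2).trans hbd) le_rfl)
    have h5 := real_of hδ.le hδ.le h3
    refine (measureReal_mono ?_).trans (h5.trans (by linarith))
    intro x hx
    exact hx
  · -- distance
    intro κ κ' hne
    have h1 := (hc (DF u k {j | enc.symm j κ ≠ enc.symm j κ'})
      (DF_inv u k {j | enc.symm j κ ≠ enc.symm j κ'} r (by omega))).1
    have h2 : {v | ∃ e ∈ H, v ∈ e ∧ ¬ (e ∈ Xs κ ↔ e ∈ Xs κ')} ⊆
        {x | DF u k {j | enc.symm j κ ≠ enc.symm j κ'} V H lv le x} := by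
      rintro v ⟨e, he, hve, hq⟩
      obtain ⟨w, hw, hwe⟩ := ordering u (hunif e he)
      refine ⟨w, hw, by rw [hwe]; exact he, by rw [hwe]; exact hve, ?_⟩
      show enc.symm (le w) κ ≠ enc.symm (le w) κ'
      rw [hle]
      simp only [Equiv.symm_apply_apply]
      rw [hwe]
      intro h
      apply hq
      constructor
      · intro h3
        rw [decide_eq_true h3] at h
        exact of_decide_eq_true h.symm
      · intro h3
        rw [decide_eq_true h3] at h
        exact of_decide_eq_true h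
    have h3 := hfar κ κ' hne
    set P : Set V := {v | ∃ e ∈ H, v ∈ e ∧ ¬ (e ∈ Xs κ ↔ e ∈ Xs κ')} with hP
    have h4 : Fintype.card V ≤ 2 * (d * N) * P.ncard := by
      calc Fintype.card V ≤ 2 * good.ncard := hgc
        _ ≤ 2 * (d * N * P.ncard) := Nat.mul_le_mul_left _ h3
        _ = 2 * (d * N) * P.ncard := by ring
    have h5 : 1 / (2 * ((d : ℝ) * N)) ≤ (P.ncard : ℝ) / (Fintype.card V : ℝ) := by
      rw [div_le_div_iff₀ (by positivity) hV]
      have : (Fintype.card V : ℝ) ≤ 2 * (d * N) * P.ncard := by exact_mod_cast h4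
      linarith
    have h6 : ENNReal.ofReal (1 / (2 * ((d : ℝ) * N))) ≤
        μ {x | DF u k {j | enc.symm j κ ≠ enc.symm j κ'} X E lv' le' x} + ENNReal.ofReal δ := by
      refine le_trans ?_ h1
      refine (ENNReal.ofReal_le_ofReal h5).trans ?_
      rw [← frac_eq]
      exact frac_mono V h2
    have h7 := real_of' hδ.le h6
    have h8 : μ.real {x | DF u k {j | enc.symm j κ ≠ enc.symm j κ'} X E lv' le' x} ≤
        μ.real {x | ∃ w : Fin u → X, Function.Injective w ∧ range w ∈ E ∧ x ∈ range w ∧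
          (fun w => enc.symm (le' w)) w κ ≠ (fun w => enc.symm (le' w)) w κ'} :=
      measureReal_mono (fun x hx => hx)
    linarith

end Pool.Agent.Q35.LG2.Lim
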